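import Pool.Agent.Lib.MP_5e7226_co.AB.A5

/-!
# NF, B1: the support function of a body and its sublevel sets
-/

set_option autoImplicit false
set_option linter.unusedSectionVars false

open MeasureTheory Set Module
open scoped Pointwise InnerProductSpace
open Pool.Agent.Lib.MP_5e7226_co.AB (pol ind)

namespace Pool.Agent.Lib.MP_5e7226_co.NF

/-- Euclidean space -/
abbrev V (d : ℕ) := EuclideanSpace ℝ (Fin d)

variable {d : ℕ}

/-- the support function of `K - o` -/
noncomputable def hs (K : Set (V d)) (o v : V d) : ℝ := sSup ((fun x => ⟪v, x - o⟫_ℝ) '' K)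

/-- a compact set with `o` in its interior -/
structure Body (K : Set (V d)) (o : V d) : Prop where
  comp : IsCompact K
  int : o ∈ interior K

/-- the set `r P`, `P` the polar body -/
def sl (K : Set (V d)) (o : V d) (r : ℝ) : Set (V d) := {v | hs K o v ≤ r}

variable {K : Set (V d)} {o : V d}

lemma Body.nonempty (hK : Body K o) : K.Nonempty := ⟨o, interior_subset hK.int⟩

lemma Body.mem (hK : Body K o) : o ∈ K := interior_subset hK.int

lemma hs_attained (hK : Body K o) (v : V d) :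
    ∃ x ∈ K, ⟪v, x - o⟫_ℝ = hs K o v ∧ ∀ y ∈ K, ⟪v, y - o⟫_ℝ ≤ ⟪v, x - o⟫_ℝ := by
  obtain ⟨x, hx, hmax⟩ := hK.comp.exists_isMaxOn hK.nonempty
    (f := fun x => ⟪v, x - o⟫_ℝ) (by fun_prop)
  refine ⟨x, hx, ?_, fun y hy => hmax hy⟩
  unfold hs
  refine le_antisymm ?_ ?_
  · refine le_csSup ?_ ⟨x, hx, rfl⟩
    refine ⟨⟪v, x - o⟫_ℝ, ?_⟩
    rintro _ ⟨y, hy, rfl⟩
    exact hmax hy
  · refine csSup_le ⟨_, x, hx, rfl⟩ ?_
    rintro _ ⟨y, hy, rfl⟩
    exact hmax hy

lemma le_hs (hK : Body K o) {x : V d} (hx : x ∈ K) (v : V d) : ⟪v, x - o⟫_ℝ ≤ hs K o v := by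
  obtain ⟨y, _, h1, h2⟩ := hs_attained hK v
  rw [← h1]
  exact h2 x hx

lemma hs_le (hK : Body K o) {v : V d} {c : ℝ} (h : ∀ x ∈ K, ⟪v, x - o⟫_ℝ ≤ c) :
    hs K o v ≤ c := by
  obtain ⟨y, hy, h1, _⟩ := hs_attained hK v
  rw [← h1]
  exact h y hy

lemma hs_add_le (hK : Body K o) (u v : V d) : hs K o (u + v) ≤ hs K o u + hs K o v := by
  refine hs_le hK fun x hx => ?_
  rw [inner_add_left]
  exact add_le_add (le_hs hK hx u) (le_hs hK hx v)

lemma hs_smul (hK : Body K o) {c : ℝ} (hc : 0 ≤ c) (v : V d) :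
    hs K o (c • v) = c * hs K o v := by
  refine le_antisymm (hs_le hK fun x hx => ?_) ?_
  · rw [inner_smul_left, conj_trivial]
    exact mul_le_mul_of_nonneg_left (le_hs hK hx v) hc
  · obtain ⟨x, hx, h1, _⟩ := hs_attained hK v
    rw [← h1]
    have := le_hs hK hx (c • v)
    rwa [inner_smul_left, conj_trivial] at this

lemma hs_zero (hK : Body K o) : hs K o 0 = 0 := by
  have := hs_smul hK (le_refl 0) (0 : V d)
  simpa using this

lemma hs_nonneg (hK : Body K o) (v : V d) : 0 ≤ hs K o v := by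
  have := le_hs hK hK.mem v
  simpa using this

/-- `h` is bounded by a multiple of the Euclidean norm. -/
lemma exists_bound (hK : Body K o) :
    ∃ R : ℝ, 0 < R ∧ (∀ x ∈ K, ‖x - o‖ ≤ R) ∧ ∀ v, hs K o v ≤ R * ‖v‖ := by
  obtain ⟨R, hR⟩ := hK.comp.isBounded.exists_norm_le
  have h1 : ∀ x ∈ K, ‖x - o‖ ≤ max (R + ‖o‖) 1 := fun x hx =>
    ((norm_sub_le x o).trans (add_le_add (hR x hx) le_rfl)).trans (le_max_left _ _)
  refine ⟨max (R + ‖o‖) 1, by positivity, h1, fun v => hs_le hK fun x hx => ?_⟩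
  calc ⟪v, x - o⟫_ℝ ≤ ‖v‖ * ‖x - o‖ := real_inner_le_norm _ _
    _ ≤ ‖v‖ * max (R + ‖o‖) 1 := mul_le_mul_of_nonneg_left (h1 x hx) (norm_nonneg _)
    _ = _ := mul_comm _ _

lemma hs_sub_le (hK : Body K o) (u v : V d) : hs K o u - hs K o v ≤ hs K o (u - v) := by
  have := hs_add_le hK (u - v) v
  rw [sub_add_cancel] at this
  linarith

lemma exists_lipschitz (hK : Body K o) : ∃ C : NNReal, LipschitzWith C (hs K o) := by
  obtain ⟨R, hR, _, h2⟩ := exists_bound hK
  refine ⟨⟨R, hR.le⟩, LipschitzWith.of_dist_le_mul fun u v => ?_⟩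
  rw [Real.dist_eq, dist_eq_norm]
  change |hs K o u - hs K o v| ≤ R * ‖u - v‖
  rw [abs_le]
  have h3 := hs_sub_le hK u v
  have h4 := hs_sub_le hK v u
  have h5 := h2 (u - v)
  have h6 := h2 (v - u)
  rw [norm_sub_rev] at h6
  constructor <;> linarith

lemma continuous_hs (hK : Body K o) : Continuous (hs K o) := by
  obtain ⟨C, hC⟩ := exists_lipschitz hK
  exact hC.continuous

lemma measurable_hs (hK : Body K o) : Measurable (hs K o) := (continuous_hs hK).measurable

lemma mem_pol (hK : Body K o) {v : V d} : v ∈ pol K o ↔ hs K o v ≤ 1 :=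
  ⟨fun h => hs_le hK h, fun h x hx => (le_hs hK hx v).trans h⟩

lemma sl_one (hK : Body K o) : sl K o 1 = pol K o := by
  ext v
  exact (mem_pol hK).symm

lemma mem_smul_pol (hK : Body K o) {r : ℝ} (hr : 0 < r) {v : V d} :
    v ∈ r • pol K o ↔ hs K o v ≤ r := by
  rw [mem_smul_set_iff_inv_smul_mem₀ hr.ne', mem_pol hK, hs_smul hK (inv_nonneg.2 hr.le),
    inv_mul_le_iff₀ hr, mul_one]

lemma sl_eq (hK : Body K o) {r : ℝ} (hr : 0 < r) : sl K o r = r • pol K o := by
  ext v
  exact (mem_smul_pol hK hr).symm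

lemma measurableSet_sl (hK : Body K o) (r : ℝ) : MeasurableSet (sl K o r) :=
  measurableSet_le (measurable_hs hK) measurable_const

lemma measurableSet_pol (hK : Body K o) : MeasurableSet (pol K o) := by
  rw [← sl_one hK]
  exact measurableSet_sl hK 1

lemma sl_mono {r s : ℝ} (h : r ≤ s) : sl K o r ⊆ sl K o s := fun _ hv => le_trans hv h

lemma isCompact_pol (hK : Body K o) : IsCompact (pol K o) := AB.pol_isCompact hK.int

lemma sl_ne_top (hK : Body K o) (r : ℝ) : volume (sl K o r) ≠ ⊤ := by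
  refine ne_top_of_le_ne_top ?_ (measure_mono (sl_mono (le_max_left r 1)))
  rw [sl_eq hK (by positivity)]
  exact ((isCompact_pol hK).smul _).measure_lt_top.ne

lemma pol_ne_top (hK : Body K o) : volume (pol K o) ≠ ⊤ :=
  (isCompact_pol hK).measure_lt_top.ne

lemma vol_pos (hK : Body K o) : 0 < volume.real (pol K o) :=
  ENNReal.toReal_pos (AB.pol_volume hK.comp o) (pol_ne_top hK)

lemma vol_smul (r : ℝ) (hr : 0 ≤ r) (B : Set (V d)) :
    volume.real (r • B) = r ^ d * volume.real B := by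
  rw [Measure.real, Measure.addHaar_smul, ENNReal.toReal_mul, finrank_euclideanSpace_fin,
    abs_of_nonneg (by positivity), ENNReal.toReal_ofReal (by positivity)]
  rfl

lemma vol_sl (hK : Body K o) {r : ℝ} (hr : 0 < r) :
    volume.real (sl K o r) = r ^ d * volume.real (pol K o) := by
  rw [sl_eq hK hr, vol_smul r hr.le]

lemma convex_pol : Convex ℝ (pol K o) := AB.pol_convex K o

lemma zero_mem_pol : (0 : V d) ∈ pol K o := fun _ _ => by
  rw [inner_zero_left]
  exact zero_le_one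

end Pool.Agent.Lib.MP_5e7226_co.NF
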