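import Pool.Agent.Lib.MP_5e7226_co.NF.B1

/-!
# NF, B2: tight sets; the sums `x + λ y` have a density in `L²`
-/

set_option autoImplicit false
set_option linter.unusedSectionVars false

open MeasureTheory Set Module
open scoped Pointwise InnerProductSpace
open Pool.Agent.Lib.MP_5e7226_co.AB (pol ind)

namespace Pool.Agent.Lib.MP_5e7226_co.NF

variable {d : ℕ} {K : Set (V d)} {o : V d}

/-- `R ⊆ P` is tight: every translate of `λ P` contains at most `e^L (λ / (1 + λ))^d |R|` points of
`R`. -/
structure Tight (K : Set (V d)) (o : V d) (R : Finset (V d)) (L lam : ℝ) : Prop where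
  body : Body K o
  nonempty : R.Nonempty
  mem : ∀ x ∈ R, x ∈ pol K o
  pos : 0 < lam
  le : lam ≤ 1
  card : ∀ t, ∑ x ∈ R, ind (lam • pol K o) (x - t) ≤
    Real.exp L * (lam / (1 + lam)) ^ d * R.card

variable {R : Finset (V d)} {L lam : ℝ}

/-- The mass of the points `x + λ y`, `x ∈ R`, `y ∈ P`, in a set `B`. -/
theorem mass (hT : Tight K o R L lam) {B : Set (V d)} (hB : MeasurableSet B)
    (hBf : volume B ≠ ⊤) :
    (∑ x ∈ R, volume.real {y | y ∈ pol K o ∧ x + lam • y ∈ B}) ^ 2 ≤
      (R.card : ℝ) ^ 2 * Real.exp L * volume.real (pol K o) *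
        (volume.real B / (1 + lam) ^ d) := by
  have hK := hT.body
  have hl := hT.pos
  set P := pol K o with hP
  set Q : Set (V d) := lam • P with hQ
  have hPm : MeasurableSet P := measurableSet_pol hK
  have hQm : MeasurableSet Q := hPm.const_smul₀ lam
  have hQf : volume Q ≠ ⊤ := ((isCompact_pol hK).smul lam).measure_lt_top.ne
  have hQv : volume.real Q = lam ^ d * volume.real P := vol_smul lam hl.le P
  set G : V d → ℝ := fun w => ∑ x ∈ R, ind Q (w - x) with hG
  have hG0 : ∀ w, 0 ≤ G w := fun w => Finset.sum_nonneg fun x _ => AB.ind_nonneg _ _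
  have hGint : Integrable G volume :=
    integrable_finsetSum _ (fun x _ => AB.integrable_right volume hQm hQf x)
  have hG2int : Integrable (fun w => G w ^ 2) volume := by
    have h1 : ∀ w, G w ^ 2 = ∑ x ∈ R, ∑ y ∈ R, ind Q (w - x) * ind Q (w - y) := by
      intro t; rw [sq, hG, Finset.sum_mul_sum]
    simp only [h1]
    exact integrable_finsetSum _ (fun x _ => integrable_finsetSum _ (fun y _ =>
      AB.integrable_mul_of volume (AB.integrable_right volume hQm hQf x)
        (AB.integrable_right volume hQm hQf y)
        (fun _ => AB.ind_nonneg _ _) (fun _ => AB.ind_le_one _ _)))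
  -- the second moment
  have h2 : ∫ w, G w ^ 2 ≤ Real.exp L * (lam / (1 + lam)) ^ d * R.card *
      (R.card * (lam ^ d * volume.real P)) := by
    rw [hG]
    simp only
    rw [← AB.energy volume hQm hQf R]
    have ih : Integrable (fun t => ∑ x ∈ R, ind Q (x - t)) volume :=
      integrable_finsetSum _ (fun x _ => AB.integrable_left volume hQm hQf x)
    have eh : ∫ t, ∑ x ∈ R, ind Q (x - t) = R.card * (lam ^ d * volume.real P) := by
      rw [integral_finsetSum _ (fun x _ => AB.integrable_left volume hQm hQf x)]
      have : ∀ x ∈ R, ∫ t, ind Q (x - t) = lam ^ d * volume.real P := by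
        intro x _
        rw [integral_sub_left_eq_self (ind Q) volume x, AB.integral_ind volume hQm, hQv]
      rw [Finset.sum_congr rfl this, Finset.sum_const, nsmul_eq_mul]
    have ih2 : Integrable (fun t => (∑ x ∈ R, ind Q (x - t)) ^ 2) volume := by
      have h1 : ∀ t, (∑ x ∈ R, ind Q (x - t)) ^ 2
          = ∑ x ∈ R, ∑ y ∈ R, ind Q (x - t) * ind Q (y - t) := by
        intro t; rw [sq, Finset.sum_mul_sum]
      simp only [h1]
      exact integrable_finsetSum _ (fun x _ => integrable_finsetSum _ (fun y _ =>
        AB.integrable_mul_of volume (AB.integrable_left volume hQm hQf x)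
          (AB.integrable_left volume hQm hQf y)
          (fun _ => AB.ind_nonneg _ _) (fun _ => AB.ind_le_one _ _)))
    rw [← eh, ← integral_const_mul]
    refine integral_mono ih2 (ih.const_mul _) (fun t => ?_)
    have h0 : 0 ≤ ∑ x ∈ R, ind Q (x - t) := Finset.sum_nonneg (fun x _ => AB.ind_nonneg _ _)
    have := mul_le_mul_of_nonneg_right (hT.card t) h0
    simp only
    rw [sq]
    exact this
  -- the mass of `B`
  have h3 : ∫ w in B, G w = lam ^ d *
      ∑ x ∈ R, volume.real {y | y ∈ P ∧ x + lam • y ∈ B} := by
    rw [hG]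
    simp only
    rw [integral_finsetSum _ (fun x _ => (AB.integrable_right volume hQm hQf x).integrableOn),
      Finset.mul_sum]
    refine Finset.sum_congr rfl fun x _ => ?_
    have e1 : ∀ w, ind Q (w - x) = ind ((fun w => w - x) ⁻¹' Q) w := fun w => rfl
    have hm1 : MeasurableSet ((fun w : V d => w - x) ⁻¹' Q) :=
      (measurable_id.sub measurable_const) hQm
    simp only [e1]
    have e2 : ∫ w in B, ind ((fun w => w - x) ⁻¹' Q) w
        = volume.real (B ∩ (fun w => w - x) ⁻¹' Q) := by
      unfold ind
      rw [setIntegral_indicator hm1]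
      simp
    rw [e2]
    have e3 : (B ∩ (fun w => w - x) ⁻¹' Q) =
        (fun w => w - x) ⁻¹' (lam • {y | y ∈ P ∧ x + lam • y ∈ B}) := by
      ext w
      constructor
      · rintro ⟨hwB, y, hy, hyw⟩
        simp only at hyw
        refine ⟨y, ⟨hy, ?_⟩, hyw⟩
        rw [hyw, add_sub_cancel]
        exact hwB
      · rintro ⟨y, ⟨hy, hyB⟩, hyw⟩
        simp only at hyw
        rw [hyw, add_sub_cancel] at hyB
        exact ⟨hyB, y, hy, hyw⟩
    have hm2 : MeasurableSet {y | y ∈ P ∧ x + lam • y ∈ B} := by
      refine hPm.inter ?_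
      have hc : Continuous fun y : V d => x + lam • y := by fun_prop
      exact hc.measurable hB
    rw [e3, Measure.real,
      (measurePreserving_sub_right volume x).measure_preimage
        (hm2.const_smul₀ _).nullMeasurableSet]
    exact vol_smul lam hl.le _
  -- Cauchy-Schwarz
  have h4 : (∫ w in B, G w) ^ 2 ≤ (∫ w, G w ^ 2) * volume.real B := by
    have hb : ∀ c : ℝ, 2 * c * (∫ w in B, G w) - c ^ 2 * volume.real B ≤ ∫ w, G w ^ 2 := by
      intro c
      have i1 : Integrable (fun w => ind B w) volume := AB.integrable_ind volume hB hBf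
      have i2 : Integrable (fun w => B.indicator G w) volume := hGint.indicator hB
      have e1 : ∫ w, (2 * c * B.indicator G w - c ^ 2 * ind B w)
          = 2 * c * (∫ w in B, G w) - c ^ 2 * volume.real B := by
        rw [integral_sub (i2.const_mul _) (i1.const_mul _), integral_const_mul,
          integral_const_mul, AB.integral_ind volume hB, integral_indicator hB]
      rw [← e1]
      refine integral_mono ((i2.const_mul _).sub (i1.const_mul _)) hG2int fun w => ?_
      simp only
      by_cases hw : w ∈ B
      · rw [indicator_of_mem hw]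
        have : ind B w = 1 := by simp [ind, hw]
        rw [this]
        nlinarith [sq_nonneg (G w - c)]
      · rw [indicator_of_notMem hw]
        have : ind B w = 0 := by simp [ind, hw]
        rw [this]
        simp only [mul_zero, sub_zero]
        positivity
    rcases (measureReal_nonneg (μ := volume) (s := B)).eq_or_lt with h0 | h0
    · have hz : ∫ w in B, G w = 0 := by
        have : volume B = 0 := by
          have := h0.symm
          rw [Measure.real, ENNReal.toReal_eq_zero_iff] at this
          exact this.resolve_right hBf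
        rw [Measure.restrict_eq_zero.2 this, integral_zero_measure]
      rw [hz, ← h0]
      simp
    · have h5 := hb ((∫ w in B, G w) / volume.real B)
      have h6 : 2 * ((∫ w in B, G w) / volume.real B) * (∫ w in B, G w)
          - ((∫ w in B, G w) / volume.real B) ^ 2 * volume.real B
          = (∫ w in B, G w) ^ 2 / volume.real B := by
        field_simp
        ring
      rw [h6, div_le_iff₀ h0] at h5
      exact h5
  -- conclusion
  have h7 : (lam ^ d * ∑ x ∈ R, volume.real {y | y ∈ P ∧ x + lam • y ∈ B}) ^ 2 ≤
      Real.exp L * (lam / (1 + lam)) ^ d * R.card *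
      (R.card * (lam ^ d * volume.real P)) * volume.real B := by
    rw [← h3]
    exact h4.trans (mul_le_mul_of_nonneg_right h2 measureReal_nonneg)
  have hl2 : 0 < (lam ^ d) ^ 2 := by positivity
  have h8 : (lam ^ d) ^ 2 * (∑ x ∈ R, volume.real {y | y ∈ P ∧ x + lam • y ∈ B}) ^ 2 ≤
      (lam ^ d) ^ 2 * ((R.card : ℝ) ^ 2 * Real.exp L * volume.real P *
        (volume.real B / (1 + lam) ^ d)) := by
    rw [← mul_pow]
    refine h7.trans (le_of_eq ?_)
    rw [div_pow]
    ring
  exact le_of_mul_le_mul_left h8 hl2

end Pool.Agent.Lib.MP_5e7226_co.NF
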