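import Pool.Agent.Lib.MP_5e7226_co.NF.B2

/-!
# NF, C1: two consequences of the `L²` bound
-/

set_option autoImplicit false
set_option linter.unusedSectionVars false

open MeasureTheory Set Module
open scoped Pointwise InnerProductSpace
open Pool.Agent.Lib.MP_5e7226_co.AB (pol ind)

namespace Pool.Agent.Lib.MP_5e7226_co.NF

variable {d : ℕ} {K : Set (V d)} {o : V d} {R : Finset (V d)} {L lam : ℝ}

/-- Few points of a tight set have a large value of a linear functional which is rarely large on
`P`. -/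
theorem few (hT : Tight K o R L lam) (e : V d) {η η₂ θ Θ : ℝ} (hη : 0 ≤ η) (hη₂ : 0 ≤ η₂)
    (hθ : 2 * η + η₂ ≤ θ) (hΘ : 0 ≤ Θ)
    (h1 : volume.real {v | v ∈ pol K o ∧ η ≤ ⟪v, e⟫_ℝ} ≤ Θ * volume.real (pol K o))
    (h2 : volume.real (pol K o) ≤ 2 * volume.real {v | v ∈ pol K o ∧ -η₂ ≤ ⟪v, e⟫_ℝ}) :
    ((R.filter fun x => θ ≤ ⟪x, e⟫_ℝ).card : ℝ) ≤ 2 * Real.sqrt (Real.exp L * Θ) * R.card := by
  have hK := hT.body
  have hl := hT.pos
  have hl1 := hT.le
  set P := pol K o with hP
  have hPm : MeasurableSet P := measurableSet_pol hK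
  have hPf : volume P ≠ ⊤ := pol_ne_top hK
  have hV := vol_pos hK
  have hc : Continuous fun v : V d => ⟪v, e⟫_ℝ := by fun_prop
  -- the set `B`
  set B : Set (V d) := (1 + lam) • {v | v ∈ P ∧ η ≤ ⟪v, e⟫_ℝ} with hB
  have hB0m : MeasurableSet {v | v ∈ P ∧ η ≤ ⟪v, e⟫_ℝ} :=
    hPm.inter (measurableSet_le measurable_const hc.measurable)
  have hBm : MeasurableSet B := hB0m.const_smul₀ _
  have hBv : volume.real B = (1 + lam) ^ d * volume.real {v | v ∈ P ∧ η ≤ ⟪v, e⟫_ℝ} :=
    vol_smul (1 + lam) (by linarith) _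
  have hBf : volume B ≠ ⊤ := by
    rw [hB, Measure.addHaar_smul]
    refine ENNReal.mul_ne_top ENNReal.ofReal_ne_top ?_
    exact ne_top_of_le_ne_top hPf (measure_mono fun v hv => hv.1)
  have hm := mass hT hBm hBf
  -- each large point contributes half of the volume of `P`
  set N : Finset (V d) := R.filter fun x => θ ≤ ⟪x, e⟫_ℝ with hN
  have hbig : (N.card : ℝ) * (volume.real P / 2) ≤
      ∑ x ∈ R, volume.real {y | y ∈ P ∧ x + lam • y ∈ B} := by
    calc (N.card : ℝ) * (volume.real P / 2) = ∑ x ∈ N, volume.real P / 2 := by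
          rw [Finset.sum_const, nsmul_eq_mul]
      _ ≤ ∑ x ∈ N, volume.real {y | y ∈ P ∧ x + lam • y ∈ B} := by
          refine Finset.sum_le_sum fun x hx => ?_
          have hx' := Finset.mem_filter.1 hx
          have hsub : {v | v ∈ P ∧ -η₂ ≤ ⟪v, e⟫_ℝ} ⊆ {y | y ∈ P ∧ x + lam • y ∈ B} := by
            rintro y ⟨hy, hye⟩
            refine ⟨hy, ?_⟩
            have h1l : (0 : ℝ) < 1 + lam := by linarith
            rw [hB, mem_smul_set_iff_inv_smul_mem₀ h1l.ne']
            refine ⟨?_, ?_⟩
            · have hcomb : (1 + lam)⁻¹ • (x + lam • y) =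
                  (1 / (1 + lam)) • x + (lam / (1 + lam)) • y := by
                rw [smul_add, smul_smul, one_div, div_eq_inv_mul]
              rw [hcomb]
              exact convex_pol (hT.mem x hx'.1) hy (by positivity) (by positivity)
                (by field_simp)
            · rw [inner_smul_left, inner_add_left, inner_smul_left, conj_trivial, conj_trivial,
                le_inv_mul_iff₀ h1l]
              have e1 : lam * (-η₂) ≤ lam * ⟪y, e⟫_ℝ := mul_le_mul_of_nonneg_left hye hl.le
              have e2 := hx'.2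
              nlinarith
          have hmono : volume.real {v | v ∈ P ∧ -η₂ ≤ ⟪v, e⟫_ℝ} ≤
              volume.real {y | y ∈ P ∧ x + lam • y ∈ B} :=
            measureReal_mono hsub (ne_top_of_le_ne_top hPf (measure_mono fun v hv => hv.1))
          linarith
      _ ≤ ∑ x ∈ R, volume.real {y | y ∈ P ∧ x + lam • y ∈ B} :=
          Finset.sum_le_sum_of_subset_of_nonneg (Finset.filter_subset _ _)
            fun _ _ _ => measureReal_nonneg
  have h3 : ((N.card : ℝ) * (volume.real P / 2)) ^ 2 ≤
      (R.card : ℝ) ^ 2 * Real.exp L * volume.real P * (Θ * volume.real P) := by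
    refine (pow_le_pow_left₀ (by positivity) hbig 2).trans (hm.trans ?_)
    apply mul_le_mul_of_nonneg_left _ (by positivity)
    rw [hBv, mul_div_cancel_left₀ _ (by positivity)]
    exact h1
  have h4 : ((N.card : ℝ)) ^ 2 ≤ (2 * Real.sqrt (Real.exp L * Θ) * R.card) ^ 2 := by
    rw [mul_pow, mul_pow, Real.sq_sqrt (by positivity)]
    have h5 : ((N.card : ℝ)) ^ 2 * (volume.real P) ^ 2 ≤
        (2 ^ 2 * (Real.exp L * Θ) * R.card ^ 2) * (volume.real P) ^ 2 := by
      have e1 : ((N.card : ℝ) * (volume.real P / 2)) ^ 2 =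
          ((N.card : ℝ)) ^ 2 * (volume.real P) ^ 2 / 4 := by ring
      rw [e1] at h3
      linarith
    exact le_of_mul_le_mul_right h5 (by positivity)
  exact le_of_sq_le_sq h4 (by positivity)

/-- For most `x ∈ R`, `u ∈ P` the point `x + λ u` is close to the boundary of `(1 + λ) P`. -/
theorem spread (hT : Tight K o R L lam) {s : ℝ} (hs0 : 0 ≤ s) (hsd : s < d) :
    ∑ x ∈ R, volume.real {u | u ∈ pol K o ∧ hs K o (x + lam • u) ≤ (1 + lam) * (1 - s / d)} ≤
      R.card * Real.exp ((L - s) / 2) * volume.real (pol K o) := by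
  have hK := hT.body
  have hl := hT.pos
  have hd0 : (0 : ℝ) < d := by linarith
  have hr : 0 < 1 - s / d := by
    rw [sub_pos, div_lt_one hd0]
    exact hsd
  have hr2 : 0 < (1 + lam) * (1 - s / d) := by positivity
  have hm := mass hT (measurableSet_sl hK ((1 + lam) * (1 - s / d))) (sl_ne_top hK _)
  rw [vol_sl hK hr2, mul_pow] at hm
  have hV := vol_pos hK
  have hexp : (1 - s / d) ^ d ≤ Real.exp (-s) := by
    have h1 : 1 - s / d ≤ Real.exp (-(s / d)) := by
      have := Real.add_one_le_exp (-(s / d))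
      linarith
    calc (1 - s / d) ^ d ≤ Real.exp (-(s / d)) ^ d := pow_le_pow_left₀ hr.le h1 d
      _ = Real.exp (-s) := by
        rw [← Real.exp_nat_mul]
        congr 1
        field_simp
  have hsq : (∑ x ∈ R, volume.real {u | u ∈ pol K o ∧
      hs K o (x + lam • u) ≤ (1 + lam) * (1 - s / d)}) ^ 2 ≤
      (R.card * Real.exp ((L - s) / 2) * volume.real (pol K o)) ^ 2 := by
    refine hm.trans ?_
    have e1 : (1 + lam) ^ d * (1 - s / d) ^ d * volume.real (pol K o) / (1 + lam) ^ d =
        (1 - s / d) ^ d * volume.real (pol K o) := by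
      field_simp
    rw [e1, mul_pow, mul_pow, ← Real.exp_nat_mul]
    have e2 : ((2 : ℕ) : ℝ) * ((L - s) / 2) = L + -s := by
      push_cast
      ring
    rw [e2, Real.exp_add]
    calc (R.card : ℝ) ^ 2 * Real.exp L * volume.real (pol K o) *
          ((1 - s / d) ^ d * volume.real (pol K o))
        ≤ (R.card : ℝ) ^ 2 * Real.exp L * volume.real (pol K o) *
          (Real.exp (-s) * volume.real (pol K o)) := by
          apply mul_le_mul_of_nonneg_left _ (by positivity)
          exact mul_le_mul_of_nonneg_right hexp hV.le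
      _ = _ := by ring
  exact le_of_sq_le_sq hsq (by positivity)

end Pool.Agent.Lib.MP_5e7226_co.NF
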