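import Pool.Agent.Lib.MP_5e7226_co.NF.C1

/-!
# NF, C2: the points `u + t x` leave `P` far, and its consequences
-/

set_option autoImplicit false
set_option linter.unusedSectionVars false

open MeasureTheory Set Module
open scoped Pointwise InnerProductSpace
open Pool.Agent.Lib.MP_5e7226_co.AB (pol ind)

namespace Pool.Agent.Lib.MP_5e7226_co.NF

variable {d : ℕ} {K : Set (V d)} {o : V d} {R : Finset (V d)} {L lam : ℝ}

/-- For most `x ∈ R`, `u ∈ P`: `h (u + t x) ≥ 1 + t - (1 + 1 / λ) s / d`. -/
theorem far (hT : Tight K o R L lam) {s t : ℝ} (hs0 : 0 ≤ s) (hsd : s < d)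
    (ht : t ≤ 1) :
    R.card * (1 - Real.exp ((L - s) / 2)) * volume.real (pol K o) ≤
      ∑ x ∈ R, volume.real {u | u ∈ pol K o ∧
        1 + t - (1 + 1 / lam) * s / d ≤ hs K o (u + t • x)} := by
  have hK := hT.body
  have hl := hT.pos
  have hl1 := hT.le
  have hd0 : (0 : ℝ) < d := by linarith
  have hPf := pol_ne_top hK
  have hsp := spread hT hs0 hsd
  have hsplit : ∀ x ∈ R, volume.real (pol K o) -
      volume.real {u | u ∈ pol K o ∧ hs K o (x + lam • u) ≤ (1 + lam) * (1 - s / d)} ≤
      volume.real {u | u ∈ pol K o ∧ 1 + t - (1 + 1 / lam) * s / d ≤ hs K o (u + t • x)} := by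
    intro x hx
    have hf1 : volume {u | u ∈ pol K o ∧
        hs K o (x + lam • u) ≤ (1 + lam) * (1 - s / d)} ≠ ⊤ :=
      ne_top_of_le_ne_top hPf (measure_mono fun v hv => hv.1)
    have hf2 : volume {u | u ∈ pol K o ∧
        1 + t - (1 + 1 / lam) * s / d ≤ hs K o (u + t • x)} ≠ ⊤ :=
      ne_top_of_le_ne_top hPf (measure_mono fun v hv => hv.1)
    have hcov : pol K o ⊆ {u | u ∈ pol K o ∧
        hs K o (x + lam • u) ≤ (1 + lam) * (1 - s / d)} ∪
        {u | u ∈ pol K o ∧ 1 + t - (1 + 1 / lam) * s / d ≤ hs K o (u + t • x)} := by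
      intro u hu
      by_cases h : hs K o (x + lam • u) ≤ (1 + lam) * (1 - s / d)
      · exact Or.inl ⟨hu, h⟩
      · right
        refine ⟨hu, ?_⟩
        rw [not_le] at h
        have e1 : x + lam • u = lam • (u + t • x) + (1 - lam * t) • x := by module
        have hlt : 0 ≤ 1 - lam * t := by nlinarith
        have h2 : hs K o (x + lam • u) ≤ lam * hs K o (u + t • x) + (1 - lam * t) := by
          rw [e1]
          refine (hs_add_le hK _ _).trans ?_
          rw [hs_smul hK hl.le, hs_smul hK hlt]
          have h3 : hs K o x ≤ 1 := (mem_pol hK).1 (hT.mem x hx)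
          have h4 := mul_le_mul_of_nonneg_left h3 hlt
          linarith
        have h5 : (1 + lam) * (1 - s / d) < lam * hs K o (u + t • x) + (1 - lam * t) :=
          h.trans_le h2
        have h6 : lam * (1 + t - (1 + 1 / lam) * s / d) =
            (1 + lam) * (1 - s / d) - (1 - lam * t) := by
          field_simp
          ring
        have h7 : lam * (1 + t - (1 + 1 / lam) * s / d) ≤ lam * hs K o (u + t • x) := by
          rw [h6]
          linarith
        exact le_of_mul_le_mul_left h7 hl
    have h8 : volume.real (pol K o) ≤ _ :=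
      (measureReal_mono hcov (measure_union_ne_top hf1 hf2)).trans (measureReal_union_le _ _)
    linarith
  have hsum := Finset.sum_le_sum hsplit
  rw [Finset.sum_sub_distrib, Finset.sum_const, nsmul_eq_mul] at hsum
  refine le_trans ?_ hsum
  have : (R.card : ℝ) * (1 - Real.exp ((L - s) / 2)) * volume.real (pol K o) =
      R.card * volume.real (pol K o) -
        R.card * Real.exp ((L - s) / 2) * volume.real (pol K o) := by ring
  rw [this]
  linarith

/-- For most `x ∈ R` most points of `P` leave `P` if they are moved by `t x`. -/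
theorem exit_avg (hT : Tight K o R L lam) {s t : ℝ} (hs0 : 0 ≤ s) (hsd : s < d)
    (ht : t ≤ 1) (hst : (1 + 1 / lam) * s / d < t) :
    R.card * (1 - Real.exp ((L - s) / 2)) * volume.real (pol K o) ≤
      ∑ x ∈ R, volume.real {u | u ∈ pol K o ∧ u + t • x ∉ pol K o} := by
  have hK := hT.body
  refine (far hT hs0 hsd ht).trans (Finset.sum_le_sum fun x _ => ?_)
  refine measureReal_mono ?_
    (ne_top_of_le_ne_top (pol_ne_top hK) (measure_mono fun v hv => hv.1))
  rintro u ⟨hu, h⟩
  refine ⟨hu, fun h2 => ?_⟩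
  rw [mem_pol hK] at h2
  linarith

/-- If for almost all `w` few points `x ∈ R` have a large derivative of `h` at `w` in the direction
`x`, there is no tight set. -/
theorem stay (hT : Tight K o R L lam) {s t θ : ℝ} (hs0 : 0 ≤ s) (hsd : s < d) (ht0 : 0 < t)
    (ht : t ≤ 1) (hθ : θ * t ≤ t - (1 + 1 / lam) * s / d) (c : V d → ℝ)
    (hci : IntegrableOn c (sl K o (1 + t)) volume)
    (hc : ∀ᵐ w ∂volume.restrict (sl K o (1 + t)), ∃ x₀ ∈ K, ⟪w, x₀ - o⟫_ℝ = hs K o w ∧
      ((R.filter fun x => θ ≤ ⟪x, x₀ - o⟫_ℝ).card : ℝ) ≤ c w * R.card) :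
    (1 - Real.exp ((L - s) / 2)) * volume.real (pol K o) ≤ ∫ w in sl K o (1 + t), c w := by
  classical
  have hK := hT.body
  have hRc : (0 : ℝ) < R.card := by exact_mod_cast hT.nonempty.card_pos
  set ρ : ℝ := 1 + t - (1 + 1 / lam) * s / d with hρ
  -- the sets `D x`
  set D : V d → Set (V d) := fun x => {w | hs K o (w - t • x) ≤ 1 ∧ ρ ≤ hs K o w} with hD
  have hDm : ∀ x, MeasurableSet (D x) := by
    intro x
    have h1 : Measurable fun w => hs K o (w - t • x) :=
      (measurable_hs hK).comp (measurable_id.sub measurable_const)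
    exact (measurableSet_le h1 measurable_const).inter
      (measurableSet_le measurable_const (measurable_hs hK))
  have hDsub : ∀ x ∈ R, D x ⊆ sl K o (1 + t) := by
    intro x hx w hw
    have h1 := hs_add_le hK (w - t • x) (t • x)
    rw [sub_add_cancel, hs_smul hK ht0.le] at h1
    have h2 : hs K o x ≤ 1 := (mem_pol hK).1 (hT.mem x hx)
    have h3 := mul_le_mul_of_nonneg_left h2 ht0.le
    have h4 := hw.1
    change hs K o w ≤ 1 + t
    linarith
  have h1 : ∑ x ∈ R, volume.real {u | u ∈ pol K o ∧ ρ ≤ hs K o (u + t • x)} ≤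
      ∑ x ∈ R, volume.real (D x) := by
    refine Finset.sum_le_sum fun x hx => ?_
    have e : {u | u ∈ pol K o ∧ ρ ≤ hs K o (u + t • x)} = (fun u => u + t • x) ⁻¹' D x := by
      ext u
      constructor
      · rintro ⟨hu, hu2⟩
        refine ⟨?_, hu2⟩
        rw [add_sub_cancel_right]
        exact (mem_pol hK).1 hu
      · rintro ⟨hu, hu2⟩
        rw [add_sub_cancel_right] at hu
        exact ⟨(mem_pol hK).2 hu, hu2⟩
    rw [e, Measure.real, (measurePreserving_add_right volume (t • x)).measure_preimage
      (hDm x).nullMeasurableSet]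
    rfl
  have h2 : ∑ x ∈ R, volume.real (D x) =
      ∫ w in sl K o (1 + t), ∑ x ∈ R, (D x).indicator (fun _ => (1 : ℝ)) w := by
    rw [integral_finsetSum]
    · refine Finset.sum_congr rfl fun x hx => ?_
      rw [setIntegral_indicator (hDm x), inter_eq_self_of_subset_right (hDsub x hx)]
      simp
    · intro x hx
      refine (integrable_indicator_iff (hDm x)).2 ?_
      refine integrableOn_const (hs := ?_)
      rw [Measure.restrict_apply (hDm x)]
      exact ne_top_of_le_ne_top (sl_ne_top hK (1 + t)) (measure_mono inter_subset_right)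
  have h3 : ∫ w in sl K o (1 + t), ∑ x ∈ R, (D x).indicator (fun _ => (1 : ℝ)) w ≤
      ∫ w in sl K o (1 + t), c w * R.card := by
    refine integral_mono_of_nonneg ?_ (hci.mul_const _) ?_
    · exact Filter.Eventually.of_forall fun w => Finset.sum_nonneg fun x _ =>
        indicator_nonneg (fun _ _ => zero_le_one) w
    · filter_upwards [hc] with w hw
      obtain ⟨x₀, hx₀, hx₀w, hcard⟩ := hw
      refine le_trans ?_ hcard
      have e1 : ∑ x ∈ R, (D x).indicator (fun _ => (1 : ℝ)) w =
          ((R.filter fun x => w ∈ D x).card : ℝ) := by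
        rw [Finset.card_filter]
        push_cast
        refine Finset.sum_congr rfl fun x _ => ?_
        by_cases h : w ∈ D x
        · rw [indicator_of_mem h, if_pos h]
        · rw [indicator_of_notMem h, if_neg h]
      rw [e1]
      have hsub : (R.filter fun x => w ∈ D x) ⊆ R.filter fun x => θ ≤ ⟪x, x₀ - o⟫_ℝ := by
        intro x hx
        rw [Finset.mem_filter] at hx ⊢
        refine ⟨hx.1, ?_⟩
        have h4 := le_hs hK hx₀ (w - t • x)
        rw [inner_sub_left, inner_smul_left, conj_trivial, hx₀w] at h4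
        have h5 := hx.2.1
        have h6 := hx.2.2
        have h7 : θ * t ≤ t * ⟪x, x₀ - o⟫_ℝ := by linarith
        rw [mul_comm] at h7
        exact le_of_mul_le_mul_left h7 ht0
      exact_mod_cast Finset.card_le_card hsub
  rw [integral_mul_const] at h3
  have h4 := ((far hT hs0 hsd ht).trans h1).trans (h2.le.trans h3)
  have h5 : R.card * ((1 - Real.exp ((L - s) / 2)) * volume.real (pol K o)) ≤
      R.card * ∫ w in sl K o (1 + t), c w := by
    linarith
  exact le_of_mul_le_mul_left h5 hRc

end Pool.Agent.Lib.MP_5e7226_co.NF
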