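import Pool.Agent.Lib.MP_5e7226_co.NF.B1
import Pool.Agent.Lib.MP_5e7226_co.HL.A2

/-!
# NF, C3: tails of linear functionals on a convex body
-/

set_option autoImplicit false
set_option linter.unusedSectionVars false

open MeasureTheory Set Module
open scoped Pointwise InnerProductSpace
open Pool.Agent.Lib.MP_5e7226_co.AB (pol ind)

namespace Pool.Agent.Lib.MP_5e7226_co.NF

variable {d : ℕ} {K : Set (V d)} {o : V d}

/-- the volume of the part of `P` with `⟪v, e⟫ ≥ s` -/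
noncomputable def qv (K : Set (V d)) (o e : V d) (s : ℝ) : ℝ :=
  volume.real {v | v ∈ pol K o ∧ s ≤ ⟪v, e⟫_ℝ}

lemma qv_nonneg (e : V d) (s : ℝ) : 0 ≤ qv K o e s := measureReal_nonneg

lemma qv_fin (hK : Body K o) (e : V d) (s : ℝ) :
    volume {v | v ∈ pol K o ∧ s ≤ ⟪v, e⟫_ℝ} ≠ ⊤ :=
  ne_top_of_le_ne_top (pol_ne_top hK) (measure_mono fun _ hv => hv.1)

lemma continuous_inner_right' (e : V d) : Continuous fun v : V d => ⟪v, e⟫_ℝ := by fun_prop

lemma qv_ms (hK : Body K o) (e : V d) (s : ℝ) :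
    MeasurableSet {v | v ∈ pol K o ∧ s ≤ ⟪v, e⟫_ℝ} :=
  (measurableSet_pol hK).inter
    (measurableSet_le measurable_const (continuous_inner_right' e).measurable)

lemma qv_anti (hK : Body K o) (e : V d) {s t : ℝ} (h : s ≤ t) : qv K o e t ≤ qv K o e s :=
  measureReal_mono (fun _ hv => ⟨hv.1, h.trans hv.2⟩) (qv_fin hK e s)

lemma qv_bm (hK : Body K o) (e : V d) (s t : ℝ) :
    qv K o e s * qv K o e t ≤ qv K o e ((s + t) / 2) ^ 2 := by
  have h1 := Pool.Agent.MP5e7226.HL.bm_mid (qv_ms hK e s) (qv_ms hK e t)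
    (qv_ms hK e ((s + t) / 2)) (by
      rintro a ⟨ha, ha2⟩ b ⟨hb, hb2⟩
      refine ⟨?_, ?_⟩
      · rw [smul_add]
        exact convex_pol ha hb (by norm_num) (by norm_num) (by norm_num)
      · rw [inner_smul_left, inner_add_left, conj_trivial]
        linarith)
  have h2 := ENNReal.toReal_mono (ENNReal.pow_ne_top (qv_fin hK e ((s + t) / 2))) h1
  rw [ENNReal.toReal_mul, ENNReal.toReal_pow] at h2
  exact h2

/-- Chebyshev's inequality. -/
lemma cheb (hK : Body K o) (e : V d) {S a : ℝ} (ha : 0 ≤ a)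
    (hS : ⨍ v in pol K o, ⟪v, e⟫_ℝ ^ 2 ≤ S) :
    volume.real {v | v ∈ pol K o ∧ a ≤ |⟪v, e⟫_ℝ|} * a ^ 2 ≤ S * volume.real (pol K o) := by
  have hV := vol_pos hK
  rw [setAverage_eq, smul_eq_mul, inv_mul_le_iff₀ hV] at hS
  rw [mul_comm S]
  refine le_trans ?_ hS
  have hc := continuous_inner_right' e
  have hms : MeasurableSet {v : V d | a ≤ |⟪v, e⟫_ℝ|} :=
    measurableSet_le measurable_const hc.abs.measurable
  have hint : IntegrableOn (fun v : V d => ⟪v, e⟫_ℝ ^ 2) (pol K o) :=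
    (hc.pow 2).continuousOn.integrableOn_compact (isCompact_pol hK)
  have h1 : volume.real {v | v ∈ pol K o ∧ a ≤ |⟪v, e⟫_ℝ|} * a ^ 2 =
      ∫ v in pol K o, {v : V d | a ≤ |⟪v, e⟫_ℝ|}.indicator (fun _ => a ^ 2) v := by
    rw [setIntegral_indicator hms, setIntegral_const, smul_eq_mul]
    rfl
  rw [h1]
  refine integral_mono_of_nonneg ?_ hint ?_
  · exact Filter.Eventually.of_forall fun v => indicator_nonneg (fun _ _ => by positivity) v
  · refine Filter.Eventually.of_forall fun v => ?_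
    simp only
    by_cases h : v ∈ {v : V d | a ≤ |⟪v, e⟫_ℝ|}
    · rw [indicator_of_mem h, ← sq_abs ⟪v, e⟫_ℝ]
      exact pow_le_pow_left₀ ha h 2
    · rw [indicator_of_notMem h]
      exact sq_nonneg _

/-- At least half of `P` has `⟪v, e⟫ ≥ -√(2 S)`. -/
lemma half (hK : Body K o) (e : V d) {S : ℝ} (hS0 : 0 < S)
    (hS : ⨍ v in pol K o, ⟪v, e⟫_ℝ ^ 2 ≤ S) :
    volume.real (pol K o) ≤ 2 * volume.real {v | v ∈ pol K o ∧ -Real.sqrt (2 * S) ≤ ⟪v, e⟫_ℝ} := by
  have h1 := cheb hK e (Real.sqrt_nonneg (2 * S)) hS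
  rw [Real.sq_sqrt (by positivity)] at h1
  have h2 : volume.real {v | v ∈ pol K o ∧ Real.sqrt (2 * S) ≤ |⟪v, e⟫_ℝ|} ≤
      volume.real (pol K o) / 2 := by
    rw [le_div_iff₀ (by norm_num)]
    have h3 : S * (volume.real {v | v ∈ pol K o ∧ Real.sqrt (2 * S) ≤ |⟪v, e⟫_ℝ|} * 2) ≤
        S * volume.real (pol K o) := by linarith
    exact le_of_mul_le_mul_left h3 hS0
  have hf1 : volume {v | v ∈ pol K o ∧ Real.sqrt (2 * S) ≤ |⟪v, e⟫_ℝ|} ≠ ⊤ :=
    ne_top_of_le_ne_top (pol_ne_top hK) (measure_mono fun _ hv => hv.1)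
  have hcov : pol K o ⊆ {v | v ∈ pol K o ∧ Real.sqrt (2 * S) ≤ |⟪v, e⟫_ℝ|} ∪
      {v | v ∈ pol K o ∧ -Real.sqrt (2 * S) ≤ ⟪v, e⟫_ℝ} := by
    intro v hv
    by_cases h : -Real.sqrt (2 * S) ≤ ⟪v, e⟫_ℝ
    · exact Or.inr ⟨hv, h⟩
    · left
      refine ⟨hv, ?_⟩
      rw [not_le] at h
      rw [le_abs]
      right
      linarith
  have h4 := (measureReal_mono hcov
    (measure_union_ne_top hf1 (qv_fin hK e _))).trans (measureReal_union_le _ _)
  linarith

/-- The tails of linear functionals decrease geometrically. -/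
lemma tail (hK : Body K o) (e : V d) {S : ℝ} (hS0 : 0 < S)
    (hS : ⨍ v in pol K o, ⟪v, e⟫_ℝ ^ 2 ≤ S) (j : ℕ) :
    qv K o e ((2 * j + 1) * Real.sqrt (8 * S)) ≤ 1 / 8 * (1 / 7) ^ j * volume.real (pol K o) := by
  set a := Real.sqrt (8 * S) with ha
  have ha0 : 0 < a := Real.sqrt_pos.2 (by positivity)
  have hV := vol_pos hK
  have h1 := cheb hK e ha0.le hS
  have ha2 : a ^ 2 = 8 * S := Real.sq_sqrt (by positivity)
  rw [ha2] at h1
  have hf1 : volume {v | v ∈ pol K o ∧ a ≤ |⟪v, e⟫_ℝ|} ≠ ⊤ :=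
    ne_top_of_le_ne_top (pol_ne_top hK) (measure_mono fun _ hv => hv.1)
  have h2 : volume.real {v | v ∈ pol K o ∧ a ≤ |⟪v, e⟫_ℝ|} ≤ volume.real (pol K o) / 8 := by
    rw [le_div_iff₀ (by norm_num)]
    have h3 : S * (volume.real {v | v ∈ pol K o ∧ a ≤ |⟪v, e⟫_ℝ|} * 8) ≤
        S * volume.real (pol K o) := by linarith
    exact le_of_mul_le_mul_left h3 hS0
  -- `q a ≤ 1 / 8`
  have hqa : qv K o e a ≤ 1 / 8 * volume.real (pol K o) := by
    have h3 : qv K o e a ≤ volume.real {v | v ∈ pol K o ∧ a ≤ |⟪v, e⟫_ℝ|} :=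
      measureReal_mono (fun _ hv => ⟨hv.1, hv.2.trans (le_abs_self _)⟩) hf1
    linarith
  -- `q (-a) ≥ 7 / 8`
  have hqm : 7 / 8 * volume.real (pol K o) ≤ qv K o e (-a) := by
    have hcov : pol K o ⊆ {v | v ∈ pol K o ∧ a ≤ |⟪v, e⟫_ℝ|} ∪
        {v | v ∈ pol K o ∧ -a ≤ ⟪v, e⟫_ℝ} := by
      intro v hv
      by_cases h : -a ≤ ⟪v, e⟫_ℝ
      · exact Or.inr ⟨hv, h⟩
      · left
        refine ⟨hv, ?_⟩
        rw [not_le] at h
        rw [le_abs]
        right
        linarith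
    have h4 := (measureReal_mono hcov
      (measure_union_ne_top hf1 (qv_fin hK e _))).trans (measureReal_union_le _ _)
    unfold qv
    linarith
  -- ratios
  have hratio : ∀ j : ℕ, qv K o e ((2 * (j : ℝ) + 1) * a) ≤
      1 / 7 * qv K o e ((2 * (j : ℝ) - 1) * a) := by
    intro j
    induction j with
    | zero =>
      have e1 : (2 * ((0 : ℕ) : ℝ) + 1) * a = a := by push_cast; ring
      have e2 : (2 * ((0 : ℕ) : ℝ) - 1) * a = -a := by push_cast; ring
      rw [e1, e2]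
      linarith
    | succ j ih =>
      have e1 : (2 * ((j + 1 : ℕ) : ℝ) + 1) * a = (2 * (j : ℝ) + 3) * a := by push_cast; ring
      have e2 : (2 * ((j + 1 : ℕ) : ℝ) - 1) * a = (2 * (j : ℝ) + 1) * a := by push_cast; ring
      rw [e1, e2]
      have hbm := qv_bm hK e ((2 * (j : ℝ) - 1) * a) ((2 * (j : ℝ) + 3) * a)
      have e3 : ((2 * (j : ℝ) - 1) * a + (2 * (j : ℝ) + 3) * a) / 2 = (2 * (j : ℝ) + 1) * a := by
        ring
      rw [e3] at hbm
      set x := qv K o e ((2 * (j : ℝ) - 1) * a) with hx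
      set y := qv K o e ((2 * (j : ℝ) + 1) * a) with hy
      set z := qv K o e ((2 * (j : ℝ) + 3) * a) with hz
      have hx0 : 0 ≤ x := qv_nonneg _ _
      have hy0 : 0 ≤ y := qv_nonneg _ _
      have hz0 : 0 ≤ z := qv_nonneg _ _
      have hzy : z ≤ y := qv_anti hK e (by nlinarith)
      rcases hx0.eq_or_lt with h0 | h0
      · rw [← h0] at ih
        linarith
      · have h5 : x * z ≤ x * (1 / 7 * y) := by nlinarith
        exact le_of_mul_le_mul_left h5 h0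
  -- conclusion
  induction j with
  | zero =>
    have e1 : (2 * ((0 : ℕ) : ℝ) + 1) * a = a := by push_cast; ring
    rw [e1, pow_zero, mul_one]
    exact hqa
  | succ j ih =>
    have h5 := hratio (j + 1)
    have e2 : (2 * ((j + 1 : ℕ) : ℝ) - 1) * a = (2 * (j : ℝ) + 1) * a := by push_cast; ring
    rw [e2] at h5
    refine h5.trans ?_
    rw [pow_succ]
    linarith

end Pool.Agent.Lib.MP_5e7226_co.NF
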