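import Pool.Agent.Lib.MP_5e7226_co.NF.B2

/-!
# NF, C4: bodies without tight sets are covered by few homothetic copies
-/

set_option autoImplicit false
set_option linter.unusedSectionVars false

open MeasureTheory Set Module
open scoped Pointwise InnerProductSpace
open Pool.Agent.Lib.MP_5e7226_co.AB (pol ind)

namespace Pool.Agent.Lib.MP_5e7226_co.NF

lemma numerics2 {d : ℕ} (hd : 2 ≤ d) : ∃ lam δ : ℝ, 0 < lam ∧ 0 < δ ∧ lam + δ < 1 ∧
    1 - 1 / (5 * d) ≤ lam ∧
    (1 + 1 / lam) ^ d * (d * Real.log (4 / δ + 2)) + 1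
      ≤ 2 ^ d * (d * Real.log d + d * Real.log (Real.log d) + 5 * d) := by
  have hD : (2 : ℝ) ≤ d := by exact_mod_cast hd
  have hD0 : (0 : ℝ) < d := by linarith
  set L : ℝ := Real.log d with hLdef
  have h2 := Real.log_two_lt_d9
  have hL : 0.69 ≤ L := by
    have h1 := Real.log_two_gt_d9
    have h3 : Real.log 2 ≤ L := Real.log_le_log (by norm_num) hD
    norm_num at h1 h3 ⊢
    linarith
  have hL0 : 0 < L := by linarith
  set w : ℝ := 1 / (L + 10) with hw
  have hw0 : 0 < w := by positivity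
  have hw1 : w ≤ 0.1 := by
    rw [hw, div_le_iff₀ (by positivity)]
    linarith
  set δ : ℝ := w / d with hδ
  have hδ0 : 0 < δ := by positivity
  have hδd : d * δ = w := by
    rw [hδ]; field_simp
  have hδw : 2 * δ ≤ w := by
    rw [← hδd]
    exact mul_le_mul_of_nonneg_right hD hδ0.le
  have hlam : 0 < 1 - 2 * δ := by linarith
  have hclose : 1 - 1 / (5 * (d : ℝ)) ≤ 1 - 2 * δ := by
    have h1 : 2 * δ ≤ 1 / (5 * (d : ℝ)) := by
      rw [le_div_iff₀ (by positivity)]
      have h2 : 2 * δ * (5 * (d : ℝ)) = 10 * (d * δ) := by ring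
      rw [h2, hδd]
      norm_num at hw1 ⊢
      linarith
    linarith
  refine ⟨1 - 2 * δ, δ, hlam, hδ0, by linarith, hclose, ?_⟩
  -- the factor
  have hF : (1 + 1 / (1 - 2 * δ)) ^ d ≤ 2 ^ d * (1 + 1 / (L + 8)) := by
    have e1 : 1 + 1 / (1 - 2 * δ) = 2 * (1 + δ / (1 - 2 * δ)) := by
      field_simp
      ring
    rw [e1, mul_pow]
    apply mul_le_mul_of_nonneg_left _ (by positivity)
    have h3 : δ / (1 - 2 * δ) ≤ δ / (1 - w) :=
      div_le_div_of_nonneg_left hδ0.le (by linarith) (by linarith)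
    have h4 : 1 + δ / (1 - 2 * δ) ≤ Real.exp (δ / (1 - w)) := by
      have := Real.add_one_le_exp (δ / (1 - w))
      linarith
    have h5 : (1 + δ / (1 - 2 * δ)) ^ d ≤ Real.exp (δ / (1 - w)) ^ d :=
      pow_le_pow_left₀ (by positivity) h4 d
    rw [← Real.exp_nat_mul] at h5
    have e2 : (d : ℝ) * (δ / (1 - w)) = 1 / (L + 9) := by
      rw [← mul_div_assoc, hδd, hw]
      have e3 : 1 - 1 / (L + 10) = (L + 9) / (L + 10) := by
        field_simp
        ring
      rw [e3]
      field_simp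
    rw [e2] at h5
    have h6 : Real.exp (1 / (L + 9)) ≤ 1 + 1 / (L + 8) := by
      have h7 := Real.add_one_le_exp (-(1 / (L + 9)))
      have h8 : 0 < 1 - 1 / (L + 9) := by
        rw [sub_pos, div_lt_one (by positivity)]
        linarith
      have h9 : Real.exp (1 / (L + 9)) ≤ 1 / (1 - 1 / (L + 9)) := by
        rw [le_div_iff₀ h8]
        calc Real.exp (1 / (L + 9)) * (1 - 1 / (L + 9))
            ≤ Real.exp (1 / (L + 9)) * Real.exp (-(1 / (L + 9))) := by
              apply mul_le_mul_of_nonneg_left _ (Real.exp_pos _).le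
              linarith
          _ = 1 := by rw [← Real.exp_add]; simp
      refine h9.trans (le_of_eq ?_)
      have e3 : 1 - 1 / (L + 9) = (L + 8) / (L + 9) := by
        field_simp
        ring
      rw [e3]
      field_simp
      ring
    exact h5.trans h6
  have hlog : Real.log (4 / δ + 2) ≤ L + Real.log (L + 10) + 1.41 := by
    have e1 : 4 / δ + 2 = 4 * (d * (L + 10)) * (1 + 1 / (2 * (d * (L + 10)))) := by
      rw [hδ, hw]
      field_simp
      ring
    rw [e1, Real.log_mul (by positivity) (by positivity), Real.log_mul (by norm_num) (by positivity),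
      Real.log_mul (by positivity) (by positivity)]
    have h3 : Real.log 4 ≤ 1.3863 := by
      have : (4 : ℝ) = 2 ^ 2 := by norm_num
      rw [this, Real.log_pow]
      push_cast
      norm_num at h2 ⊢
      linarith
    have h4 := Real.log_le_sub_one_of_pos (x := 1 + 1 / (2 * (d * (L + 10)))) (by positivity)
    have h5 : 1 / (2 * (d * (L + 10))) ≤ (0.0235 : ℝ) := by
      rw [div_le_iff₀ (by positivity)]
      nlinarith
    have e3 : Real.log (d : ℝ) = L := rfl
    rw [e3]
    have e4 : (1.41 : ℝ) = 1.3863 + 0.0237 := by norm_num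
    have e5 : (0.0235 : ℝ) ≤ 0.0237 := by norm_num
    linarith
  have hlog0 : 0 ≤ Real.log (4 / δ + 2) := by
    apply Real.log_nonneg
    have : 0 < 4 / δ := by positivity
    linarith
  have hkey := AB.log_bound hL
  have hmain : (1 + 1 / (L + 8)) * (L + Real.log (L + 10) + 1.41) + 0.125
      ≤ L + Real.log L + 5 := by
    have e1 : (1 + 1 / (L + 8)) * (L + Real.log (L + 10) + 1.41)
        = (L + Real.log (L + 10) + 1.41) + (L + Real.log (L + 10) + 1.41) / (L + 8) := by
      field_simp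
    rw [e1]
    norm_num at hkey ⊢
    linarith
  have h8 : (1 : ℝ) ≤ 2 ^ d * d * 0.125 := by
    have h9 : (4 : ℝ) ≤ 2 ^ d := by
      calc (4 : ℝ) = 2 ^ 2 := by norm_num
        _ ≤ 2 ^ d := pow_le_pow_right₀ (by norm_num) hd
    nlinarith
  have hX0 : 0 ≤ L + Real.log (L + 10) + 1.41 := hlog0.trans hlog
  calc (1 + 1 / (1 - 2 * δ)) ^ d * (d * Real.log (4 / δ + 2)) + 1
      ≤ (2 ^ d * (1 + 1 / (L + 8))) * (d * (L + Real.log (L + 10) + 1.41))
          + 2 ^ d * d * 0.125 := by
        apply add_le_add _ h8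
        apply mul_le_mul hF _ (by positivity) (by positivity)
        exact mul_le_mul_of_nonneg_left hlog hD0.le
    _ = 2 ^ d * d * ((1 + 1 / (L + 8)) * (L + Real.log (L + 10) + 1.41) + 0.125) := by ring
    _ ≤ 2 ^ d * d * (L + Real.log L + 5) := by
        apply mul_le_mul_of_nonneg_left hmain (by positivity)
    _ = 2 ^ d * (d * L + d * Real.log L + 5 * d) := by ring


variable {d : ℕ} {K : Set (V d)} {o : V d}

/-- If there is no tight set then few smaller homothetic copies cover `P`. -/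
theorem cover_of_not_tight (hd : 2 ≤ d) (hK : Body K o) {L : ℝ} (hL : 0 ≤ L)
    (H : ∀ (R : Finset (V d)) (lam : ℝ), 1 - 1 / (5 * d) ≤ lam → ¬ Tight K o R L lam) :
    ∃ n : ℕ, (n : ℝ) ≤
        Real.exp (-L) * (2 ^ d * (d * Real.log d + d * Real.log (Real.log d) + 5 * d)) + 1 ∧
      ∃ m : ℝ, 0 < m ∧ m < 1 ∧ ∃ t : Fin n → V d,
        ∀ x ∈ pol K o, ∃ i, ∃ k ∈ pol K o, x = t i + m • k := by
  obtain ⟨lam, δ, hlam, hδ, h1, hclose, hB⟩ := numerics2 hd
  have hlam1 : lam ≤ 1 := by linarith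
  set B : ℝ := (1 + 1 / lam) ^ d * (d * Real.log (4 / δ + 2)) with hBdef
  have hlog0 : 0 ≤ Real.log (4 / δ + 2) := by
    apply Real.log_nonneg
    have : 0 < 4 / δ := by positivity
    linarith
  have hB0 : 0 ≤ B := by positivity
  have hexp := Real.exp_pos (-L)
  have hexp1 : Real.exp (-L) ≤ 1 := Real.exp_le_one_iff.2 (by linarith)
  refine ⟨⌊Real.exp (-L) * B⌋₊ + 1, ?_, lam + δ, by positivity, h1, ?_⟩
  · push_cast
    have h2 := Nat.floor_le (mul_nonneg hexp.le hB0)
    have h3 : Real.exp (-L) * B ≤ Real.exp (-L) *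
        (2 ^ d * (d * Real.log d + d * Real.log (Real.log d) + 5 * d)) :=
      mul_le_mul_of_nonneg_left (by linarith) hexp.le
    linarith
  -- the net
  set P := pol K o with hP
  have h0 : volume P ≠ 0 := AB.pol_volume hK.comp o
  obtain ⟨c, Λ, hΛK, hΛc, hnet⟩ := AB.exists_net volume (convex_pol (K := K) (o := o))
    (isCompact_pol hK) h0 hδ
  rw [finrank_euclideanSpace_fin] at hΛc
  set p : ℝ := Real.exp L * (lam / (1 + lam)) ^ d with hp
  have hp0 : 0 < p := by positivity
  -- hitting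
  have hit : ∀ R : Finset (V d), R ⊆ Λ → R.Nonempty →
      ∃ t : V d, (R.card : ℝ) * p ≤ ∑ x ∈ R, ind (lam • P) (x - t) := by
    intro R hR hne
    by_contra hcon
    push Not at hcon
    refine H R lam hclose ⟨hK, hne, fun x hx => hΛK x (hR hx), hlam, hlam1, fun t => ?_⟩
    have := hcon t
    rw [mul_comm] at this
    exact this.le
  have hΛne : Λ.Nonempty := by
    obtain ⟨y, hy, _⟩ := hnet 0 zero_mem_pol
    exact ⟨y, hy⟩
  have hΛpos : (0 : ℝ) < Λ.card := by exact_mod_cast hΛne.card_pos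
  have hp1 : p ≤ 1 := by
    obtain ⟨t, ht⟩ := hit Λ (Finset.Subset.refl _) hΛne
    have h2 : ∑ x ∈ Λ, ind (lam • P) (x - t) ≤ Λ.card := by
      calc ∑ x ∈ Λ, ind (lam • P) (x - t) ≤ ∑ x ∈ Λ, (1 : ℝ) :=
            Finset.sum_le_sum fun x _ => AB.ind_le_one _ _
        _ = Λ.card := by simp
    have h3 : (Λ.card : ℝ) * p ≤ Λ.card * 1 := by linarith
    exact le_of_mul_le_mul_left h3 hΛpos
  have hinv : p * (Real.exp (-L) * (1 + 1 / lam) ^ d) = 1 := by
    have e1 : lam / (1 + lam) * (1 + 1 / lam) = 1 := by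
      have : (1 + lam : ℝ) ≠ 0 := by positivity
      field_simp
      ring
    calc p * (Real.exp (-L) * (1 + 1 / lam) ^ d)
        = (Real.exp L * Real.exp (-L)) * ((lam / (1 + lam)) * (1 + 1 / lam)) ^ d := by
          rw [hp, mul_pow]
          ring
      _ = 1 := by rw [← Real.exp_add, add_neg_cancel, Real.exp_zero, e1, one_pow, one_mul]
  have hlog : Real.log Λ.card < ((⌊Real.exp (-L) * B⌋₊ + 1 : ℕ) : ℝ) * p := by
    have h2 : Real.log Λ.card ≤ d * Real.log (4 / δ + 2) := by
      rw [← Real.log_pow]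
      exact Real.log_le_log hΛpos hΛc
    have h3 : Real.exp (-L) * B < ((⌊Real.exp (-L) * B⌋₊ + 1 : ℕ) : ℝ) := by
      push_cast
      exact Nat.lt_floor_add_one _
    have h4 := mul_lt_mul_of_pos_left h3 hp0
    have h5 : p * (Real.exp (-L) * B) = d * Real.log (4 / δ + 2) := by
      calc p * (Real.exp (-L) * B)
          = (p * (Real.exp (-L) * (1 + 1 / lam) ^ d)) * (d * Real.log (4 / δ + 2)) := by
            rw [hBdef]
            ring
        _ = _ := by rw [hinv, one_mul]
    rw [h5] at h4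
    linarith
  obtain ⟨t, ht⟩ := AB.greedy_cover Λ hp1 hit hlog
  refine ⟨fun i => t i - δ • c, fun x hx => ?_⟩
  obtain ⟨y, hy, ℓ, hℓ, hxy⟩ := hnet x hx
  obtain ⟨i, k, hk, hk'⟩ := ht y hy
  simp only at hk'
  refine ⟨i, (lam / (lam + δ)) • k + (δ / (lam + δ)) • ℓ,
    convex_pol hk hℓ (by positivity) (by positivity) (by field_simp), ?_⟩
  have h1 : y = t i + lam • k := by rw [hk']; abel
  have h2 : (lam + δ : ℝ) ≠ 0 := by positivity
  rw [hxy, h1, smul_add, smul_smul, smul_smul, mul_div_cancel₀ _ h2, mul_div_cancel₀ _ h2]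
  module

end Pool.Agent.Lib.MP_5e7226_co.NF
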