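import Pool.Agent.Lib.MP_5e7226_co.NF.C2
import Pool.Agent.Lib.MP_5e7226_co.NF.C3

/-!
# NF, C5: no tight sets if there are no flat directions
-/

set_option autoImplicit false
set_option linter.unusedSectionVars false

open MeasureTheory Set Module
open scoped Pointwise InnerProductSpace
open Pool.Agent.Lib.MP_5e7226_co.AB (pol ind)

namespace Pool.Agent.Lib.MP_5e7226_co.NF

lemma num_lam {d : ℕ} {lam : ℝ} (hd : 5 ≤ (d : ℝ)) (hlam : 1 - 1 / (5 * d) ≤ lam) :
    1 / lam ≤ 1 + 1 / (4 * d) := by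
  have hd0 : (0 : ℝ) < d := by linarith
  have h1 : 1 / (5 * (d : ℝ)) ≤ 1 / 25 := one_div_le_one_div_of_le (by norm_num) (by linarith)
  have hl : 0 < lam := by
    norm_num at h1 hlam ⊢
    linarith
  rw [div_le_iff₀ hl]
  have h2 : (1 + 1 / (4 * (d : ℝ))) * (1 - 1 / (5 * d)) ≤ (1 + 1 / (4 * (d : ℝ))) * lam :=
    mul_le_mul_of_nonneg_left hlam (by positivity)
  refine le_trans ?_ h2
  have h3 : (1 + 1 / (4 * (d : ℝ))) * (1 - 1 / (5 * d)) = 1 + (1 / (20 * d)) * (1 - 1 / d) := by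
    field_simp
    ring
  rw [h3]
  have h4 : 1 / (d : ℝ) ≤ 1 := by
    rw [div_le_one hd0]
    linarith
  have h5 : 0 ≤ 1 / (20 * (d : ℝ)) * (1 - 1 / d) := mul_nonneg (by positivity) (by linarith)
  linarith

lemma num_t {d : ℕ} {L lam : ℝ} (hL : 0 ≤ L) (hLd : 5 * (L + 1) ≤ d)
    (hlam : 1 - 1 / (5 * d) ≤ lam) :
    ∃ t : ℝ, 0 < t ∧ t ≤ 1 ∧ 1 / 2 * t ≤ t - (1 + 1 / lam) * (L + 1) / d ∧
      (1 + t) ^ d ≤ Real.exp (4 * (L + 1) + 1 / 10) := by
  have hd5 : (5 : ℝ) ≤ d := by linarith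
  have hd0 : (0 : ℝ) < d := by linarith
  have h1 := num_lam hd5 hlam
  have hl : 0 < lam := by
    have h1 : 1 / (5 * (d : ℝ)) ≤ 1 / 25 := one_div_le_one_div_of_le (by norm_num) (by linarith)
    norm_num at h1 hlam ⊢
    linarith
  have h1' : 0 < 1 / lam := by positivity
  set t : ℝ := 2 * (1 + 1 / lam) * (L + 1) / d with ht
  have htd : t * d ≤ 4 * (L + 1) + 1 / 10 := by
    rw [ht, div_mul_cancel₀ _ hd0.ne']
    have h2 : 2 * (1 + 1 / lam) * (L + 1) ≤ 2 * (2 + 1 / (4 * d)) * (L + 1) := by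
      apply mul_le_mul_of_nonneg_right _ (by linarith)
      linarith
    refine h2.trans ?_
    have h3 : 2 * (2 + 1 / (4 * (d : ℝ))) * (L + 1) = 4 * (L + 1) + (L + 1) / (2 * d) := by
      field_simp
      ring
    rw [h3]
    have h4 : (L + 1) / (2 * (d : ℝ)) ≤ 1 / 10 := by
      rw [div_le_iff₀ (by positivity)]
      linarith
    linarith
  have ht0 : 0 < t := by positivity
  refine ⟨t, ht0, ?_, ?_, ?_⟩
  · have h2 : t * d ≤ 1 * d := by linarith
    exact le_of_mul_le_mul_right h2 hd0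
  · have h2 : (1 + 1 / lam) * (L + 1) / d = 1 / 2 * t := by
      rw [ht]
      ring
    rw [h2]
    linarith
  · have h2 : 1 + t ≤ Real.exp t := by
      have := Real.add_one_le_exp t
      linarith
    calc (1 + t) ^ d ≤ Real.exp t ^ d := pow_le_pow_left₀ (by linarith) h2 d
      _ = Real.exp (d * t) := by rw [← Real.exp_nat_mul]
      _ ≤ _ := Real.exp_le_exp.2 (by linarith)

lemma num_exp : 2 * Real.exp (-19 / 10) < 1 - Real.exp (-1 / 2) := by
  have h1 : Real.exp (-1 / 2) < 61 / 100 := by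
    have h2 : Real.exp (-1 / 2) ^ 2 = (Real.exp 1)⁻¹ := by
      rw [← Real.exp_nat_mul, ← Real.exp_neg]
      norm_num
    have h3 : (Real.exp 1)⁻¹ < (61 / 100) ^ 2 := by
      rw [inv_lt_comm₀ (Real.exp_pos 1) (by norm_num)]
      have := Real.exp_one_gt_d9
      refine lt_trans ?_ this
      norm_num
    rw [← h2] at h3
    exact lt_of_pow_lt_pow_left₀ 2 (by norm_num) h3
  have h4 : Real.exp (-19 / 10) < 19 / 100 := by
    have h5 : (19 / 10 + 1 : ℝ) ≤ Real.exp (19 / 10) := Real.add_one_le_exp _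
    have h6 : Real.exp (-19 / 10) = Real.exp (-2) * Real.exp (1 / 10) := by
      rw [← Real.exp_add]
      norm_num
    have h7 : Real.exp (-2) = (Real.exp 1)⁻¹ ^ 2 := by
      rw [← Real.exp_neg, ← Real.exp_nat_mul]
      norm_num
    have h8 : (Real.exp 1)⁻¹ < 37 / 100 := by
      rw [inv_lt_comm₀ (Real.exp_pos 1) (by norm_num)]
      have := Real.exp_one_gt_d9
      refine lt_trans ?_ this
      norm_num
    have h9 : Real.exp (1 / 10) ≤ 10 / 9 := by
      have h10 : (-(1 / 10) + 1 : ℝ) ≤ Real.exp (-(1 / 10)) := Real.add_one_le_exp _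
      rw [Real.exp_neg] at h10
      have h11 : (9 / 10 : ℝ) ≤ (Real.exp (1 / 10))⁻¹ := by
        norm_num at h10 ⊢
        linarith
      rw [le_inv_comm₀ (by norm_num) (Real.exp_pos _)] at h11
      norm_num at h11 ⊢
      linarith
    rw [h6, h7]
    have h12 : (Real.exp 1)⁻¹ ^ 2 < (37 / 100) ^ 2 :=
      pow_lt_pow_left₀ h8 (inv_pos.2 (Real.exp_pos 1)).le (by norm_num)
    calc (Real.exp 1)⁻¹ ^ 2 * Real.exp (1 / 10) ≤ (Real.exp 1)⁻¹ ^ 2 * (10 / 9) := by
          apply mul_le_mul_of_nonneg_left h9 (by positivity)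
      _ < (37 / 100) ^ 2 * (10 / 9) := by
          apply mul_lt_mul_of_pos_right h12 (by norm_num)
      _ < 19 / 100 := by norm_num
  linarith

variable {d : ℕ} {K : Set (V d)} {o : V d} {R : Finset (V d)} {L lam : ℝ}

/-- If for almost all `w` and some `x₀` in the face of `K` in the direction `w` few `x ∈ R` have
`⟪x, x₀ - o⟫ ≥ 1 / 2`, there is no tight set. -/
theorem no_tight (hT : Tight K o R L lam) (hL : 0 ≤ L) (hLd : 5 * (L + 1) ≤ d)
    (hlam : 1 - 1 / (5 * d) ≤ lam) {I : ℝ} (hI : I ≤ 2 * Real.exp (-(4 * L + 6)))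
    (H : ∀ t : ℝ, 0 < t → t ≤ 1 → ∃ c : V d → ℝ, IntegrableOn c (sl K o (1 + t)) volume ∧
      (∀ᵐ w ∂volume.restrict (sl K o (1 + t)), ∃ x₀ ∈ K, ⟪w, x₀ - o⟫_ℝ = hs K o w ∧
        ((R.filter fun x => 1 / 2 ≤ ⟪x, x₀ - o⟫_ℝ).card : ℝ) ≤ c w * R.card) ∧
      ∫ w in sl K o (1 + t), c w ≤ I * ((1 + t) ^ d * volume.real (pol K o))) : False := by
  obtain ⟨t, ht0, ht1, ht2, ht3⟩ := num_t hL hLd hlam
  obtain ⟨c, hci, hc, hcI⟩ := H t ht0 ht1
  have h1 := stay hT (s := L + 1) (t := t) (θ := 1 / 2) (by linarith) (by linarith) ht0 ht1 ht2 c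
    hci hc
  have hV := vol_pos hT.body
  have h2 := h1.trans hcI
  have e1 : (L - (L + 1)) / 2 = -1 / 2 := by ring
  rw [e1] at h2
  have h3 : I * ((1 + t) ^ d * volume.real (pol K o)) ≤
      2 * Real.exp (-19 / 10) * volume.real (pol K o) := by
    calc I * ((1 + t) ^ d * volume.real (pol K o))
        ≤ 2 * Real.exp (-(4 * L + 6)) * ((1 + t) ^ d * volume.real (pol K o)) :=
          mul_le_mul_of_nonneg_right hI (by positivity)
      _ ≤ 2 * Real.exp (-(4 * L + 6)) *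
          (Real.exp (4 * (L + 1) + 1 / 10) * volume.real (pol K o)) := by
          apply mul_le_mul_of_nonneg_left _ (by positivity)
          exact mul_le_mul_of_nonneg_right ht3 hV.le
      _ = 2 * (Real.exp (-(4 * L + 6)) * Real.exp (4 * (L + 1) + 1 / 10)) *
          volume.real (pol K o) := by ring
      _ = 2 * Real.exp (-19 / 10) * volume.real (pol K o) := by
          rw [← Real.exp_add]
          congr 3
          ring
  have h4 := mul_lt_mul_of_pos_right num_exp hV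
  linarith

/-- Bodies without flat directions. -/
theorem flat (hT : Tight K o R L lam) (hL : 0 ≤ L) (hLd : 5 * (L + 1) ≤ d)
    (hlam : 1 - 1 / (5 * d) ≤ lam) {S : ℝ} (hS : ∀ x ∈ K, ⨍ v in pol K o, ⟪v, x - o⟫_ℝ ^ 2 ≤ S)
    (hSL : (110 * L + 160) ^ 2 * S ≤ 1) : False := by
  have hK := hT.body
  have hV := vol_pos hK
  -- replace `S`
  set c₀ : ℝ := 110 * L + 160 with hc₀
  have hc0 : 0 < c₀ := by positivity
  set S' : ℝ := 1 / c₀ ^ 2 with hS'
  have hS'0 : 0 < S' := by positivity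
  have hSS' : S ≤ S' := by
    rw [hS', le_div_iff₀ (by positivity)]
    linarith
  have hsq8 : Real.sqrt (8 * S') = Real.sqrt 8 / c₀ := by
    rw [hS', mul_one_div, Real.sqrt_div (by norm_num), Real.sqrt_sq hc0.le]
  have hsq2 : Real.sqrt (2 * S') = Real.sqrt 2 / c₀ := by
    rw [hS', mul_one_div, Real.sqrt_div (by norm_num), Real.sqrt_sq hc0.le]
  have h8 : Real.sqrt 8 ≤ 283 / 100 := by
    rw [Real.sqrt_le_left (by norm_num)]
    norm_num
  have h2 : Real.sqrt 2 ≤ 142 / 100 := by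
    rw [Real.sqrt_le_left (by norm_num)]
    norm_num
  -- the number of steps
  set j : ℕ := ⌈463 / 100 * L + 52 / 10⌉₊ with hj
  have hj1 : 463 / 100 * L + 52 / 10 ≤ (j : ℝ) := Nat.le_ceil _
  have hj2 : (j : ℝ) < 463 / 100 * L + 52 / 10 + 1 := Nat.ceil_lt_add_one (by positivity)
  set η : ℝ := (2 * j + 1) * Real.sqrt (8 * S') with hη
  set η₂ : ℝ := Real.sqrt (2 * S') with hη₂
  have hη0 : 0 ≤ η := by positivity
  have hη₂0 : 0 ≤ η₂ := Real.sqrt_nonneg _
  have hθ : 2 * η + η₂ ≤ 1 / 2 := by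
    rw [hη, hsq8, hsq2]
    have e1 : 2 * ((2 * (j : ℝ) + 1) * (Real.sqrt 8 / c₀)) + Real.sqrt 2 / c₀ =
        (2 * (2 * (j : ℝ) + 1) * Real.sqrt 8 + Real.sqrt 2) / c₀ := by
      field_simp
    rw [e1, div_le_iff₀ hc0]
    have h3 : 2 * (2 * (j : ℝ) + 1) * Real.sqrt 8 ≤ 2 * (2 * (j : ℝ) + 1) * (283 / 100) :=
      mul_le_mul_of_nonneg_left h8 (by positivity)
    rw [hc₀]
    linarith
  set Θ : ℝ := 1 / 8 * (1 / 7) ^ j with hΘ
  have hΘ0 : 0 ≤ Θ := by positivity
  have hΘ1 : Θ ≤ Real.exp (-(9 * L + 12)) := by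
    have h7 : Real.exp (1945 / 1000) ≤ 7 := by
      have e1 : Real.exp (1945 / 1000) = Real.exp 1 ^ 2 * Real.exp (-(55 / 1000)) := by
        rw [← Real.exp_nat_mul, ← Real.exp_add]
        norm_num
      have e2 : Real.exp (-(55 / 1000)) ≤ 1 / (1 + 55 / 1000 + (55 / 1000) ^ 2 / 2) := by
        rw [Real.exp_neg, ← one_div]
        apply one_div_le_one_div_of_le (by norm_num)
        exact Real.quadratic_le_exp_of_nonneg (by norm_num)
      have e3 : Real.exp 1 ^ 2 ≤ 2.7182818286 ^ 2 :=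
        pow_le_pow_left₀ (Real.exp_pos 1).le Real.exp_one_lt_d9.le 2
      rw [e1]
      calc Real.exp 1 ^ 2 * Real.exp (-(55 / 1000)) ≤
            2.7182818286 ^ 2 * (1 / (1 + 55 / 1000 + (55 / 1000) ^ 2 / 2)) :=
            mul_le_mul e3 e2 (Real.exp_pos _).le (by positivity)
        _ ≤ 7 := by norm_num
    have h8' : Real.exp 2 ≤ 8 := by
      have e1 : Real.exp 2 = Real.exp 1 ^ 2 := by
        rw [← Real.exp_nat_mul]
        norm_num
      have e3 : Real.exp 1 ^ 2 ≤ 2.7182818286 ^ 2 :=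
        pow_le_pow_left₀ (Real.exp_pos 1).le Real.exp_one_lt_d9.le 2
      rw [e1]
      refine e3.trans ?_
      norm_num
    have h9 : Real.exp (9 * L + 12) ≤ 8 * 7 ^ j := by
      calc Real.exp (9 * L + 12) ≤ Real.exp (2 + j * (1945 / 1000)) := by
            apply Real.exp_le_exp.2
            linarith
        _ = Real.exp 2 * Real.exp (1945 / 1000) ^ j := by
            rw [Real.exp_add, ← Real.exp_nat_mul]
        _ ≤ 8 * 7 ^ j := by
            apply mul_le_mul h8' _ (by positivity) (by norm_num)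
            exact pow_le_pow_left₀ (Real.exp_pos _).le h7 j
    rw [hΘ, Real.exp_neg]
    have e1 : (1 : ℝ) / 8 * (1 / 7) ^ j = (8 * 7 ^ j)⁻¹ := by
      rw [one_div_pow, mul_inv]
      ring
    rw [e1]
    exact inv_anti₀ (Real.exp_pos _) h9
  refine no_tight hT hL hLd hlam (I := 2 * Real.sqrt (Real.exp L * Θ)) ?_ fun t ht0 _ => ?_
  · have h3 : Real.sqrt (Real.exp L * Θ) ≤ Real.exp (-(4 * L + 6)) := by
      rw [Real.sqrt_le_left (Real.exp_pos _).le]
      calc Real.exp L * Θ ≤ Real.exp L * Real.exp (-(9 * L + 12)) :=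
            mul_le_mul_of_nonneg_left hΘ1 (Real.exp_pos _).le
        _ = Real.exp (-(4 * L + 6)) ^ 2 := by
            rw [← Real.exp_add, ← Real.exp_nat_mul]
            congr 1
            push_cast
            ring
    linarith
  · refine ⟨fun _ => 2 * Real.sqrt (Real.exp L * Θ), ?_, ?_, ?_⟩
    · exact integrableOn_const (hs := sl_ne_top hK _)
    · refine Filter.Eventually.of_forall fun w => ?_
      obtain ⟨x₀, hx₀, hx₀w, _⟩ := hs_attained hK w
      refine ⟨x₀, hx₀, hx₀w, ?_⟩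
      have hSx := (hS x₀ hx₀).trans hSS'
      refine few hT (x₀ - o) hη0 hη₂0 hθ hΘ0 ?_ (half hK _ hS'0 hSx)
      exact tail hK _ hS'0 hSx j
    · rw [setIntegral_const, smul_eq_mul, vol_sl hK (by linarith)]
      exact le_of_eq (by ring)

end Pool.Agent.Lib.MP_5e7226_co.NF
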