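import Pool.Agent.Lib.MP_5e7226_co.NF.C4

/-!
# NF, C6: numerics for dimensions at least 40
-/

set_option autoImplicit false
set_option linter.unusedSectionVars false

open MeasureTheory Set Module

namespace Pool.Agent.Lib.MP_5e7226_co.NF

lemma tangent {a x : ℝ} (ha : 0 < a) (hx : 0 < x) : Real.log x ≤ Real.log a + x / a - 1 := by
  have h1 := Real.log_le_sub_one_of_pos (x := x / a) (by positivity)
  rw [Real.log_div hx.ne' ha.ne'] at h1
  linarith

lemma num40 {d : ℕ} (hd : 40 ≤ d) : ∃ L : ℝ, 0 ≤ L ∧ 5 * (L + 1) ≤ d ∧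
    110 * L + 160 ≤ 250 * Real.log d ∧ L + 4 ≤ 3 * Real.log d ∧ 9 * L + 12 ≤ 20 * Real.log d ∧
    Real.exp (-L) * (2 ^ d * (d * Real.log d + d * Real.log (Real.log d) + 5 * d)) + 1 ≤
      2 ^ (d - 1) := by
  have hD : (40 : ℝ) ≤ d := by exact_mod_cast hd
  have hD0 : (0 : ℝ) < d := by linarith
  have l2 := Real.log_two_lt_d9
  have l2' := Real.log_two_gt_d9
  have h40 : (3.686 : ℝ) ≤ Real.log 40 := by
    have h1 : Real.log ((2 : ℝ) ^ 117) ≤ Real.log ((40 : ℝ) ^ 22) :=
      Real.log_le_log (by norm_num) (by norm_num)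
    rw [Real.log_pow, Real.log_pow] at h1
    push_cast at h1
    linarith
  have h40' : Real.log 40 ≤ (3.697 : ℝ) := by
    have h1 : Real.log ((40 : ℝ) ^ 3) ≤ Real.log ((2 : ℝ) ^ 16) :=
      Real.log_le_log (by norm_num) (by norm_num)
    rw [Real.log_pow, Real.log_pow] at h1
    push_cast at h1
    linarith
  have h20 : Real.log 20 ≤ (3.0037 : ℝ) := by
    have h1 : Real.log ((20 : ℝ) ^ 9) ≤ Real.log ((2 : ℝ) ^ 39) :=
      Real.log_le_log (by norm_num) (by norm_num)
    rw [Real.log_pow, Real.log_pow] at h1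
    push_cast at h1
    linarith
  have h37 : Real.log 3.7 ≤ (1.3863 : ℝ) := by
    have h1 : Real.log (3.7 : ℝ) ≤ Real.log ((2 : ℝ) ^ 2) :=
      Real.log_le_log (by norm_num) (by norm_num)
    rw [Real.log_pow] at h1
    push_cast at h1
    linarith
  set x : ℝ := Real.log d with hx
  have hx1 : (3.686 : ℝ) ≤ x := h40.trans (Real.log_le_log (by norm_num) hD)
  have hx0 : 0 < x := by linarith
  have hlx0 : 0 ≤ Real.log x := Real.log_nonneg (by linarith)
  set y : ℝ := x + Real.log x + 5 with hy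
  have hy0 : 0 < y := by positivity
  set L : ℝ := x + Real.log (2.01 * y) with hL
  have hlog0 : 0 ≤ Real.log (2.01 * y) := by
    apply Real.log_nonneg
    have : (5 : ℝ) ≤ y := by linarith
    linarith
  have hL0 : 0 ≤ L := by linarith
  -- upper bound
  have hLx : L ≤ 1.82 * x := by
    have h1 := tangent (a := 20) (x := 2.01 * y) (by norm_num) (by positivity)
    have h2 := tangent (a := 3.7) (x := x) (by norm_num) hx0
    have h3 : y ≤ x + (1.3863 + x / 3.7 - 1) + 5 := by linarith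
    have h4 : 2.01 * y / 20 ≤ 2.01 * (x + (1.3863 + x / 3.7 - 1) + 5) / 20 := by linarith
    have h5 : Real.log (2.01 * y) ≤ 3.0037 + 2.01 * (x + (1.3863 + x / 3.7 - 1) + 5) / 20 - 1 := by
      linarith
    have h6 : 3.0037 + 2.01 * (x + (1.3863 + x / 3.7 - 1) + 5) / 20 - 1 ≤ 0.82 * x := by
      have e1 : 3.0037 + 2.01 * (x + (1.3863 + x / 3.7 - 1) + 5) / 20 - 1 =
          (2.0037 + 2.01 * 5.3863 / 20) + (2.01 * (1 + 1 / 3.7) / 20) * x := by ring
      rw [e1]
      have e2 : (2.01 * (1 + 1 / 3.7) / 20 : ℝ) ≤ 0.12767 := by norm_num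
      have e3 : (2.0037 + 2.01 * 5.3863 / 20 : ℝ) ≤ 2.54503 := by norm_num
      have e4 := mul_le_mul_of_nonneg_right e2 hx0.le
      have e5 : (0.69233 : ℝ) * 3.686 ≤ 0.69233 * x := by linarith
      have e6 : (2.54503 : ℝ) ≤ 0.69233 * 3.686 := by norm_num
      linarith
    rw [hL]
    linarith
  refine ⟨L, hL0, ?_, ?_, ?_, ?_, ?_⟩
  · have h1 := tangent (a := 40) (x := (d : ℝ)) (by norm_num) hD0
    have h2 : x ≤ 3.697 + d / 40 - 1 := by
      rw [hx]
      linarith
    linarith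
  · linarith
  · linarith
  · linarith
  · have e1 : (d : ℝ) * x + d * Real.log x + 5 * d = d * y := by
      rw [hy]
      ring
    have e2 : Real.exp (-L) = 1 / (d * (2.01 * y)) := by
      rw [Real.exp_neg, hL, Real.exp_add, hx, Real.exp_log hD0, Real.exp_log (by positivity),
        one_div]
    rw [e1, e2]
    have e3 : 1 / ((d : ℝ) * (2.01 * y)) * (2 ^ d * (d * y)) = 2 ^ d / 2.01 := by
      field_simp
    rw [e3]
    have e4 : (2 : ℝ) ^ d = 2 ^ (d - 1) * 2 := by
      rw [← pow_succ]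
      congr 1
      omega
    have e5 : (2 : ℝ) ^ 39 ≤ 2 ^ (d - 1) := pow_le_pow_right₀ (by norm_num) (by omega)
    rw [e4]
    set z : ℝ := 2 ^ (d - 1) with hz
    have e6 : z * 2 / 2.01 + 1 ≤ z := by
      rw [← sub_nonneg]
      have e7 : z - (z * 2 / 2.01 + 1) = z * (0.01 / 2.01) - 1 := by
        field_simp
        ring
      rw [e7]
      have e8 : (2 : ℝ) ^ 39 * (0.01 / 2.01) ≤ z * (0.01 / 2.01) :=
        mul_le_mul_of_nonneg_right e5 (by norm_num)
      have e9 : (1 : ℝ) ≤ 2 ^ 39 * (0.01 / 2.01) := by norm_num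
      linarith
    exact e6

end Pool.Agent.Lib.MP_5e7226_co.NF
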