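import Pool.Agent.Lib.MP_5e7226_co.NF.B1

/-!
# NF, D1: means over the polar body, the derivative of the support function
-/

set_option autoImplicit false
set_option linter.unusedSectionVars false

open MeasureTheory Set Module
open scoped Pointwise InnerProductSpace
open Pool.Agent.Lib.MP_5e7226_co.AB (pol ind)

namespace Pool.Agent.Lib.MP_5e7226_co.NF

variable {d : ℕ}

/-- Measurable and bounded on `P`. -/
def Bd (K : Set (V d)) (o : V d) (F : V d → ℝ) : Prop :=
  Measurable F ∧ ∃ C : ℝ, ∀ u ∈ pol K o, |F u| ≤ C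

/-- The mean over `P`. -/
noncomputable def Mn (K : Set (V d)) (o : V d) (F : V d → ℝ) : ℝ :=
  (volume.real (pol K o))⁻¹ * ∫ u in pol K o, F u

variable {K : Set (V d)} {o : V d}

lemma Mn_eq (F : V d → ℝ) : ⨍ u in pol K o, F u = Mn K o F := by
  rw [setAverage_eq, smul_eq_mul]
  rfl

lemma Bd.neg {F : V d → ℝ} (hF : Bd K o F) : Bd K o fun u => -F u := by
  obtain ⟨h1, C, hC⟩ := hF
  exact ⟨h1.neg, C, fun u hu => by rw [abs_neg]; exact hC u hu⟩

lemma Bd.add {F G : V d → ℝ} (hF : Bd K o F) (hG : Bd K o G) : Bd K o fun u => F u + G u := by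
  obtain ⟨h1, C, hC⟩ := hF
  obtain ⟨h2, C', hC'⟩ := hG
  exact ⟨h1.add h2, C + C', fun u hu => (abs_add_le _ _).trans (add_le_add (hC u hu) (hC' u hu))⟩

lemma Bd.sub {F G : V d → ℝ} (hF : Bd K o F) (hG : Bd K o G) : Bd K o fun u => F u - G u := by
  obtain ⟨h1, C, hC⟩ := hF
  obtain ⟨h2, C', hC'⟩ := hG
  exact ⟨h1.sub h2, C + C', fun u hu => (abs_sub _ _).trans (add_le_add (hC u hu) (hC' u hu))⟩

lemma Bd.mul {F G : V d → ℝ} (hF : Bd K o F) (hG : Bd K o G) : Bd K o fun u => F u * G u := by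
  obtain ⟨h1, C, hC⟩ := hF
  obtain ⟨h2, C', hC'⟩ := hG
  refine ⟨h1.mul h2, |C| * |C'|, fun u hu => ?_⟩
  rw [abs_mul]
  exact mul_le_mul ((hC u hu).trans (le_abs_self _)) ((hC' u hu).trans (le_abs_self _))
    (abs_nonneg _) (abs_nonneg _)

lemma Bd.const (c : ℝ) : Bd K o fun _ => c := ⟨measurable_const, |c|, fun _ _ => le_rfl⟩

lemma Bd.pow {F : V d → ℝ} (hF : Bd K o F) (n : ℕ) : Bd K o fun u => F u ^ n := by
  induction n with
  | zero => simpa using Bd.const (K := K) (o := o) 1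
  | succ n ih =>
    simp_rw [pow_succ]
    exact ih.mul hF

lemma Bd.abs {F : V d → ℝ} (hF : Bd K o F) : Bd K o fun u => |F u| := by
  obtain ⟨h1, C, hC⟩ := hF
  exact ⟨measurable_norm.comp h1, C, fun u hu => by rw [abs_abs]; exact hC u hu⟩

lemma Bd.max_zero {F : V d → ℝ} (hF : Bd K o F) : Bd K o fun u => max (F u) 0 := by
  obtain ⟨h1, C, hC⟩ := hF
  refine ⟨h1.max measurable_const, C, fun u hu => ?_⟩
  rw [abs_of_nonneg (le_max_right _ _)]
  exact max_le ((le_abs_self _).trans (hC u hu)) ((abs_nonneg _).trans (hC u hu))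

lemma Bd.sqrt {F : V d → ℝ} (hF : Bd K o F) : Bd K o fun u => Real.sqrt (F u) := by
  obtain ⟨h1, C, hC⟩ := hF
  refine ⟨h1.sqrt, Real.sqrt C, fun u hu => ?_⟩
  rw [abs_of_nonneg (Real.sqrt_nonneg _)]
  exact Real.sqrt_le_sqrt ((le_abs_self _).trans (hC u hu))

lemma Bd.sum {ι : Type} (s : Finset ι) {F : ι → V d → ℝ} (hF : ∀ i ∈ s, Bd K o (F i)) :
    Bd K o fun u => ∑ i ∈ s, F i u := by
  classical
  induction s using Finset.induction_on with
  | empty => simpa using Bd.const (K := K) (o := o) 0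
  | insert a s ha ih =>
    simp_rw [Finset.sum_insert ha]
    exact (hF a (Finset.mem_insert_self a s)).add
      (ih fun i hi => hF i (Finset.mem_insert_of_mem hi))

lemma Bd.indicator {S : Set (V d)} (hS : MeasurableSet S) :
    Bd K o (S.indicator fun _ => (1 : ℝ)) := by
  refine ⟨measurable_const.indicator hS, 1, fun u _ => ?_⟩
  by_cases h : u ∈ S
  · rw [indicator_of_mem h]; simp
  · rw [indicator_of_notMem h]; simp

lemma Bd.cont (hK : Body K o) {F : V d → ℝ} (hF : Continuous F) : Bd K o F := by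
  obtain ⟨C, hC⟩ := (isCompact_pol hK).exists_bound_of_continuousOn hF.continuousOn
  exact ⟨hF.measurable, C, fun u hu => by rw [← Real.norm_eq_abs]; exact hC u hu⟩

lemma Bd.integrable (hK : Body K o) {F : V d → ℝ} (hF : Bd K o F) :
    IntegrableOn F (pol K o) := by
  obtain ⟨h1, C, hC⟩ := hF
  refine Measure.integrableOn_of_bounded (M := C) (pol_ne_top hK) h1.aestronglyMeasurable ?_
  filter_upwards [ae_restrict_mem (measurableSet_pol hK)] with u hu
  rw [Real.norm_eq_abs]
  exact hC u hu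

lemma M_add (hK : Body K o) {F G : V d → ℝ} (hF : Bd K o F) (hG : Bd K o G) :
    Mn K o (fun u => F u + G u) = Mn K o F + Mn K o G := by
  unfold Mn
  rw [integral_add (hF.integrable hK) (hG.integrable hK), mul_add]

lemma M_sub (hK : Body K o) {F G : V d → ℝ} (hF : Bd K o F) (hG : Bd K o G) :
    Mn K o (fun u => F u - G u) = Mn K o F - Mn K o G := by
  unfold Mn
  rw [integral_sub (hF.integrable hK) (hG.integrable hK), mul_sub]

lemma M_mul_left (c : ℝ) (F : V d → ℝ) : Mn K o (fun u => c * F u) = c * Mn K o F := by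
  unfold Mn
  rw [integral_const_mul]
  ring

lemma M_mul_right (c : ℝ) (F : V d → ℝ) : Mn K o (fun u => F u * c) = Mn K o F * c := by
  unfold Mn
  rw [integral_mul_const]
  ring

lemma M_const (hK : Body K o) (c : ℝ) : Mn K o (fun _ => c) = c := by
  unfold Mn
  rw [setIntegral_const, smul_eq_mul, ← mul_assoc, inv_mul_cancel₀ (vol_pos hK).ne', one_mul]

lemma M_sum (hK : Body K o) {ι : Type} (s : Finset ι) {F : ι → V d → ℝ}
    (hF : ∀ i ∈ s, Bd K o (F i)) :
    Mn K o (fun u => ∑ i ∈ s, F i u) = ∑ i ∈ s, Mn K o (F i) := by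
  unfold Mn
  rw [integral_finsetSum s fun i hi => (hF i hi).integrable hK, Finset.mul_sum]

lemma M_mono (hK : Body K o) {F G : V d → ℝ} (hF : Bd K o F) (hG : Bd K o G)
    (h : ∀ u ∈ pol K o, F u ≤ G u) : Mn K o F ≤ Mn K o G := by
  unfold Mn
  apply mul_le_mul_of_nonneg_left _ (inv_nonneg.2 (vol_pos hK).le)
  exact setIntegral_mono_on (hF.integrable hK) (hG.integrable hK) (measurableSet_pol hK) h

/-- Monotonicity for almost all `u`. -/
lemma M_mono_ae (hK : Body K o) {F G : V d → ℝ} (hF : Bd K o F) (hG : Bd K o G)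
    (h : ∀ᵐ u, u ∈ pol K o → F u ≤ G u) : Mn K o F ≤ Mn K o G := by
  unfold Mn
  apply mul_le_mul_of_nonneg_left _ (inv_nonneg.2 (vol_pos hK).le)
  exact setIntegral_mono_on_ae (hF.integrable hK) (hG.integrable hK) (measurableSet_pol hK) h

lemma M_nonneg (hK : Body K o) {F : V d → ℝ} (h : ∀ u ∈ pol K o, 0 ≤ F u) : 0 ≤ Mn K o F := by
  unfold Mn
  exact mul_nonneg (inv_nonneg.2 (vol_pos hK).le)
    (setIntegral_nonneg (measurableSet_pol hK) h)

lemma abs_M_le (hK : Body K o) {F : V d → ℝ} (hF : Bd K o F) :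
    |Mn K o F| ≤ Mn K o fun u => |F u| := by
  rw [abs_le]
  constructor
  · have h := M_mono hK hF.abs.neg hF fun u _ => neg_abs_le (F u)
    have h2 : Mn K o (fun u => -|F u|) = -Mn K o (fun u => |F u|) := by
      have := M_mul_left (K := K) (o := o) (-1) fun u => |F u|
      simpa using this
    linarith
  · exact M_mono hK hF hF.abs fun u _ => le_abs_self (F u)

/-- The mean of the square is at least the square of the mean. -/
lemma sq_M_le (hK : Body K o) {F : V d → ℝ} (hF : Bd K o F) :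
    Mn K o F ^ 2 ≤ Mn K o fun u => F u ^ 2 := by
  have h1 : 0 ≤ Mn K o fun u => (F u - Mn K o F) ^ 2 := M_nonneg hK fun u _ => sq_nonneg _
  have h2 : Mn K o (fun u => (F u - Mn K o F) ^ 2)
      = Mn K o (fun u => F u ^ 2) - Mn K o F ^ 2 := by
    have e : (fun u => (F u - Mn K o F) ^ 2)
        = fun u => (F u ^ 2 + (-2 * Mn K o F) * F u) + Mn K o F ^ 2 := by
      funext u
      ring
    rw [e, M_add hK ((hF.pow 2).add ((Bd.const _).mul hF)) (Bd.const _),
      M_add hK (hF.pow 2) ((Bd.const _).mul hF), M_mul_left, M_const hK]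
    ring
  linarith

/-- The mean of the square root is at most the square root of the mean. -/
lemma M_sqrt_le (hK : Body K o) {F : V d → ℝ} (hF : Bd K o F) (h : ∀ u ∈ pol K o, 0 ≤ F u) :
    Mn K o (fun u => Real.sqrt (F u)) ≤ Real.sqrt (Mn K o F) := by
  apply Real.le_sqrt_of_sq_le
  refine (sq_M_le hK hF.sqrt).trans ?_
  exact M_mono hK (hF.sqrt.pow 2) hF fun u hu => (Real.sq_sqrt (h u hu)).le

/-- The mean of an indicator function. -/
lemma M_indicator {S : Set (V d)} (hS : MeasurableSet S) :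
    Mn K o (S.indicator fun _ => (1 : ℝ)) =
      volume.real {u | u ∈ pol K o ∧ u ∈ S} / volume.real (pol K o) := by
  unfold Mn
  rw [setIntegral_indicator hS, setIntegral_const, smul_eq_mul, mul_one, div_eq_inv_mul]
  rfl

/-- The mean with respect to one variable. -/
lemma Bd.mean (hK : Body K o) {F : V d → V d → ℝ} (hF : Measurable fun p : V d × V d => F p.1 p.2)
    {C : ℝ} (hC : ∀ u ∈ pol K o, ∀ v ∈ pol K o, |F u v| ≤ C) :
    Bd K o fun u => Mn K o fun v => F u v := by
  constructor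
  · unfold Mn
    apply Measurable.const_mul
    exact (hF.stronglyMeasurable.integral_prod_right' (f := fun p : V d × V d => F p.1 p.2)).measurable
  · refine ⟨C, fun u hu => ?_⟩
    have h1 : Bd K o (F u) := ⟨hF.comp measurable_prodMk_left, C, fun v hv => hC u hu v hv⟩
    refine (abs_M_le hK h1).trans ?_
    calc Mn K o (fun v => |F u v|) ≤ Mn K o fun _ => C :=
          M_mono hK h1.abs (Bd.const C) fun v hv => hC u hu v hv
      _ = C := M_const hK C

/-- The derivative of the support function. -/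
noncomputable def gD (K : Set (V d)) (o u : V d) : V d →L[ℝ] ℝ := fderiv ℝ (hs K o) u

lemma ae_diff (hK : Body K o) : ∀ᵐ u, DifferentiableAt ℝ (hs K o) u := by
  obtain ⟨C, hC⟩ := exists_lipschitz hK
  exact hC.ae_differentiableAt

/-- At a point of differentiability the derivative is given by a point of the face. -/
lemma gD_eq (hK : Body K o) {w x₀ : V d} (hw : DifferentiableAt ℝ (hs K o) w) (hx₀ : x₀ ∈ K)
    (hx₀w : ⟪w, x₀ - o⟫_ℝ = hs K o w) (v : V d) : gD K o w v = ⟪v, x₀ - o⟫_ℝ := by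
  have h4 : HasFDerivAt (fun z : V d => ⟪z, x₀ - o⟫_ℝ) (innerSL ℝ (x₀ - o)) w := by
    have := (innerSL ℝ (x₀ - o)).hasFDerivAt (x := w)
    refine this.congr_of_eventuallyEq (Filter.Eventually.of_forall fun z => ?_)
    simp only [innerSL_apply_apply]
    exact real_inner_comm _ _
  have h1 : DifferentiableAt ℝ (fun z : V d => ⟪z, x₀ - o⟫_ℝ) w := h4.differentiableAt
  have h2 : IsLocalMin (fun z => hs K o z - ⟪z, x₀ - o⟫_ℝ) w := by
    refine Filter.Eventually.of_forall fun z => ?_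
    have := le_hs hK hx₀ z
    simp only
    rw [hx₀w]
    linarith
  have h3 := h2.fderiv_eq_zero
  rw [fderiv_fun_sub hw h1, sub_eq_zero] at h3
  unfold gD
  rw [h3]
  rw [h4.fderiv, innerSL_apply_apply]
  exact real_inner_comm _ _

lemma exists_face (hK : Body K o) {w : V d} (hw : DifferentiableAt ℝ (hs K o) w) :
    ∃ x₀ ∈ K, ⟪w, x₀ - o⟫_ℝ = hs K o w ∧ ∀ v, gD K o w v = ⟪v, x₀ - o⟫_ℝ := by
  obtain ⟨x₀, hx₀, hx₀w, _⟩ := hs_attained hK w
  exact ⟨x₀, hx₀, hx₀w, gD_eq hK hw hx₀ hx₀w⟩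

lemma gD_bound (hK : Body K o) : ∃ C : ℝ, 0 < C ∧ ∀ u v, |gD K o u v| ≤ C * ‖v‖ := by
  obtain ⟨R, hR, hR2, _⟩ := exists_bound hK
  refine ⟨R, hR, fun u v => ?_⟩
  by_cases hu : DifferentiableAt ℝ (hs K o) u
  · obtain ⟨x₀, hx₀, _, h⟩ := exists_face hK hu
    rw [h]
    refine (abs_real_inner_le_norm _ _).trans ?_
    rw [mul_comm]
    exact mul_le_mul_of_nonneg_right (hR2 x₀ hx₀) (norm_nonneg _)
  · have : gD K o u = 0 := fderiv_zero_of_not_differentiableAt hu
    rw [this]
    simp only [_root_.zero_apply, abs_zero]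
    positivity

/-- On `P` the derivative is at most `1`. -/
lemma gD_le_one (hK : Body K o) {u v : V d} (hv : v ∈ pol K o) : gD K o u v ≤ 1 := by
  by_cases hu : DifferentiableAt ℝ (hs K o) u
  · obtain ⟨x₀, hx₀, _, h⟩ := exists_face hK hu
    rw [h]
    exact hv x₀ hx₀
  · have : gD K o u = 0 := fderiv_zero_of_not_differentiableAt hu
    rw [this]
    simp

lemma gD_smul (hK : Body K o) {c : ℝ} (hc : 0 < c) (u : V d) : gD K o (c • u) = gD K o u := by
  have h1 : fderiv ℝ (fun v : V d => hs K o (c • v)) u = c • gD K o (c • u) :=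
    fderiv_comp_smul (f := hs K o) (x := u) c
  have h2 : (fun v : V d => hs K o (c • v)) = c • hs K o := by
    funext v
    rw [hs_smul hK hc.le]
    rfl
  have h3 : fderiv ℝ (c • hs K o) u = c • gD K o u := by
    rw [fderiv_const_smul_field]
    rfl
  rw [h2, h3] at h1
  exact (smul_right_injective _ hc.ne' h1).symm

lemma measurable_gD : Measurable fun p : V d × V d => gD K o p.1 p.2 := by
  let b := Module.finBasis ℝ (V d)
  have h1 : (fun p : V d × V d => gD K o p.1 p.2) =
      fun p : V d × V d => ∑ i, b.coord i p.2 * gD K o p.1 (b i) := by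
    funext p
    conv_lhs => rw [← b.sum_repr p.2, map_sum]
    refine Finset.sum_congr rfl fun i _ => ?_
    rw [map_smul, smul_eq_mul]
    rfl
  rw [h1]
  refine Finset.measurable_sum _ fun i _ => ?_
  refine Measurable.mul ?_ ?_
  · exact ((b.coord i).continuous_of_finiteDimensional.measurable).comp measurable_snd
  · exact (measurable_fderiv_apply_const ℝ (hs K o) (b i)).comp measurable_fst

lemma measurable_gD_left (v : V d) : Measurable fun u => gD K o u v :=
  measurable_fderiv_apply_const ℝ (hs K o) v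

lemma measurable_gD_right (u : V d) : Measurable fun v => gD K o u v :=
  (gD K o u).continuous.measurable

/-- `P` is bounded. -/
lemma pol_norm (hK : Body K o) : ∃ C : ℝ, 0 < C ∧ ∀ v ∈ pol K o, ‖v‖ ≤ C := by
  obtain ⟨C, hC⟩ := (isCompact_pol hK).isBounded.exists_norm_le
  exact ⟨max C 1, by positivity, fun v hv => (hC v hv).trans (le_max_left _ _)⟩

/-- The derivative is bounded on `P`. -/
lemma gD_bound' (hK : Body K o) : ∃ C : ℝ, 0 < C ∧ ∀ u, ∀ v ∈ pol K o, |gD K o u v| ≤ C := by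
  obtain ⟨C, hC, h⟩ := gD_bound hK
  obtain ⟨C', hC', h'⟩ := pol_norm hK
  exact ⟨C * C', by positivity, fun u v hv =>
    (h u v).trans (mul_le_mul_of_nonneg_left (h' v hv) hC.le)⟩

end Pool.Agent.Lib.MP_5e7226_co.NF
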