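import Pool.Agent.Lib.MP_5e7226_co.NF.C5
import Pool.Agent.Lib.MP_5e7226_co.NF.D1

/-!
# NF, D2: few large derivatives
-/

set_option autoImplicit false
set_option linter.unusedSectionVars false

open MeasureTheory Set Module
open scoped Pointwise InnerProductSpace
open Pool.Agent.Lib.MP_5e7226_co.AB (pol ind)

namespace Pool.Agent.Lib.MP_5e7226_co.NF

variable {d : ℕ} {K : Set (V d)} {o : V d} {R : Finset (V d)} {L lam : ℝ}

/-- Integrals of homogeneous functions. -/
lemma integral_sl_hom (hK : Body K o) {F : V d → ℝ} (hF : ∀ c : ℝ, 0 < c → ∀ u, F (c • u) = F u)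
    {r : ℝ} (hr : 0 < r) : ∫ u in sl K o r, F u = r ^ d * ∫ u in pol K o, F u := by
  have h1 := Measure.setIntegral_comp_smul_of_pos volume F (pol K o) hr
  rw [← sl_eq hK hr] at h1
  simp only [hF r hr] at h1
  rw [h1, smul_eq_mul, ← mul_assoc, finrank_euclideanSpace_fin, mul_inv_cancel₀ (pow_pos hr _).ne',
    one_mul]

/-- The probability that the derivative at `u` is at least `1 / 6`. -/
noncomputable def bigAt (K : Set (V d)) (o u : V d) : ℝ :=
  Mn K o ({v : V d | 1 / 6 ≤ |gD K o u v|}.indicator fun _ => (1 : ℝ))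

/-- The probability of a large derivative. -/
noncomputable def big (K : Set (V d)) (o : V d) : ℝ :=
  ⨍ u in pol K o, ⨍ v in pol K o,
    {v : V d | 1 / 6 ≤ |fderiv ℝ (hs K o) u v|}.indicator (fun _ => (1 : ℝ)) v

lemma big_eq : big K o = Mn K o fun u => bigAt K o u := by
  unfold big
  rw [Mn_eq]
  congr 1
  funext u
  rw [Mn_eq]
  rfl

lemma ms_big (u : V d) : MeasurableSet {v : V d | 1 / 6 ≤ |gD K o u v|} :=
  measurableSet_le measurable_const (measurable_norm.comp (measurable_gD_right u))

lemma bigAt_nonneg (hK : Body K o) (u : V d) : 0 ≤ bigAt K o u :=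
  M_nonneg hK fun v _ => indicator_nonneg (fun _ _ => zero_le_one) v

lemma bigAt_le_one (hK : Body K o) (u : V d) : bigAt K o u ≤ 1 := by
  have h := M_mono hK (Bd.indicator (ms_big (K := K) (o := o) u)) (Bd.const 1) fun v _ =>
    indicator_le_self' (fun _ _ => zero_le_one) v
  rw [M_const hK] at h
  exact h

lemma Bd_bigAt (hK : Body K o) : Bd K o fun u => bigAt K o u := by
  unfold bigAt
  refine Bd.mean hK (F := fun u v =>
    {v : V d | 1 / 6 ≤ |gD K o u v|}.indicator (fun _ => (1 : ℝ)) v) (C := 1) ?_ ?_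
  · have h1 : MeasurableSet {p : V d × V d | 1 / 6 ≤ |gD K o p.1 p.2|} :=
      measurableSet_le measurable_const (measurable_norm.comp measurable_gD)
    exact (measurable_const (a := (1 : ℝ))).indicator h1
  · intro u _ v _
    by_cases h : v ∈ {v : V d | 1 / 6 ≤ |gD K o u v|}
    · rw [indicator_of_mem h, abs_one]
    · rw [indicator_of_notMem h, abs_zero]
      exact zero_le_one

lemma bigAt_smul (hK : Body K o) {c : ℝ} (hc : 0 < c) (u : V d) :
    bigAt K o (c • u) = bigAt K o u := by
  unfold bigAt
  rw [gD_smul hK hc]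

/-- Bodies with few large derivatives. -/
theorem theta (hT : Tight K o R L lam) (hL : 0 ≤ L) (hLd : 5 * (L + 1) ≤ d)
    (hlam : 1 - 1 / (5 * d) ≤ lam) (hb : Real.exp (9 * L + 12) * big K o ≤ 1) : False := by
  have hK := hT.body
  have hV := vol_pos hK
  rw [big_eq] at hb
  set Θ : ℝ := Mn K o fun u => bigAt K o u with hΘ
  have hΘ0 : 0 ≤ Θ := M_nonneg hK fun u _ => bigAt_nonneg hK u
  have hΘ1 : Θ ≤ Real.exp (-(9 * L + 12)) := by
    rw [Real.exp_neg, ← one_div, le_div_iff₀ (Real.exp_pos _)]
    linarith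
  have hBc : Bd K o fun w => 2 * Real.sqrt (Real.exp L * bigAt K o w) :=
    (Bd.const _).mul ((Bd.const _).mul (Bd_bigAt hK)).sqrt
  refine no_tight hT hL hLd hlam (I := 2 * Real.sqrt (Real.exp L * Θ)) ?_ fun t ht0 _ => ?_
  · have h3 : Real.sqrt (Real.exp L * Θ) ≤ Real.exp (-(4 * L + 6)) := by
      rw [Real.sqrt_le_left (Real.exp_pos _).le]
      calc Real.exp L * Θ ≤ Real.exp L * Real.exp (-(9 * L + 12)) :=
            mul_le_mul_of_nonneg_left hΘ1 (Real.exp_pos _).le
        _ = Real.exp (-(4 * L + 6)) ^ 2 := by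
            rw [← Real.exp_add, ← Real.exp_nat_mul]
            congr 1
            push_cast
            ring
    linarith
  · refine ⟨fun w => 2 * Real.sqrt (Real.exp L * bigAt K o w), ?_, ?_, ?_⟩
    · refine Measure.integrableOn_of_bounded (M := 2 * Real.sqrt (Real.exp L * 1))
        (sl_ne_top hK _) hBc.1.aestronglyMeasurable ?_
      filter_upwards with w
      rw [Real.norm_eq_abs, abs_of_nonneg (by positivity)]
      have h1 := bigAt_le_one hK w
      gcongr
    · refine ae_restrict_of_ae ?_
      filter_upwards [ae_diff hK] with w hw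
      obtain ⟨x₀, hx₀, hx₀w, hg⟩ := exists_face hK hw
      refine ⟨x₀, hx₀, hx₀w, ?_⟩
      have hind : volume.real {v | v ∈ pol K o ∧ v ∈ {v : V d | 1 / 6 ≤ |gD K o w v|}} =
          bigAt K o w * volume.real (pol K o) := by
        unfold bigAt
        rw [M_indicator (ms_big w), div_mul_cancel₀ _ hV.ne']
      have hfin : volume {v | v ∈ pol K o ∧ v ∈ {v : V d | 1 / 6 ≤ |gD K o w v|}} ≠ ⊤ :=
        ne_top_of_le_ne_top (pol_ne_top hK) (measure_mono fun _ hv => hv.1)
      rcases le_total (bigAt K o w) (1 / 2) with h2 | h2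
      · refine few hT (x₀ - o) (η := 1 / 6) (η₂ := 1 / 6) (by norm_num) (by norm_num)
          (by norm_num) (bigAt_nonneg hK w) ?_ ?_
        · rw [← hind]
          refine measureReal_mono ?_ hfin
          rintro v ⟨hv, hv2⟩
          refine ⟨hv, ?_⟩
          change 1 / 6 ≤ |gD K o w v|
          rw [hg]
          exact hv2.trans (le_abs_self _)
        · have hcov : pol K o ⊆ {v | v ∈ pol K o ∧ v ∈ {v : V d | 1 / 6 ≤ |gD K o w v|}} ∪
              {v | v ∈ pol K o ∧ -(1 / 6) ≤ ⟪v, x₀ - o⟫_ℝ} := by
            intro v hv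
            by_cases h : -(1 / 6) ≤ ⟪v, x₀ - o⟫_ℝ
            · exact Or.inr ⟨hv, h⟩
            · left
              refine ⟨hv, ?_⟩
              change 1 / 6 ≤ |gD K o w v|
              rw [hg, le_abs]
              right
              rw [not_le] at h
              linarith
          have h4 := (measureReal_mono hcov
            (measure_union_ne_top hfin (qv_fin hK _ _))).trans (measureReal_union_le _ _)
          rw [hind] at h4
          have h5 := mul_le_mul_of_nonneg_right h2 hV.le
          linarith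
      · have h3 : (1 : ℝ) ≤ 2 * Real.sqrt (Real.exp L * bigAt K o w) := by
          have h4 : (1 / 2 : ℝ) ≤ Real.sqrt (Real.exp L * bigAt K o w) := by
            apply Real.le_sqrt_of_sq_le
            have h5 : (1 : ℝ) ≤ Real.exp L := Real.one_le_exp hL
            nlinarith
          linarith
        have h4 : ((R.filter fun x => 1 / 2 ≤ ⟪x, x₀ - o⟫_ℝ).card : ℝ) ≤ R.card := by
          exact_mod_cast Finset.card_filter_le _ _
        nlinarith [Nat.cast_nonneg (α := ℝ) R.card]
    · rw [integral_sl_hom hK (F := fun w => 2 * Real.sqrt (Real.exp L * bigAt K o w))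
        (fun c hc u => by simp only [bigAt_smul hK hc]) (by linarith)]
      have h1 : Mn K o (fun w => 2 * Real.sqrt (Real.exp L * bigAt K o w)) ≤
          2 * Real.sqrt (Real.exp L * Θ) := by
        rw [M_mul_left]
        apply mul_le_mul_of_nonneg_left _ (by norm_num)
        refine (M_sqrt_le hK ((Bd.const _).mul (Bd_bigAt hK)) fun u _ =>
          mul_nonneg (Real.exp_pos _).le (bigAt_nonneg hK u)).trans (le_of_eq ?_)
        rw [M_mul_left]
      have h2 : ∫ w in pol K o, 2 * Real.sqrt (Real.exp L * bigAt K o w) =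
          Mn K o (fun w => 2 * Real.sqrt (Real.exp L * bigAt K o w)) * volume.real (pol K o) := by
        unfold Mn
        rw [mul_comm, ← mul_assoc, mul_inv_cancel₀ hV.ne', one_mul]
      rw [h2]
      have h3 := mul_le_mul_of_nonneg_right h1 hV.le
      have h4 : 0 ≤ (1 + t) ^ d := by positivity
      calc (1 + t) ^ d * (Mn K o (fun w => 2 * Real.sqrt (Real.exp L * bigAt K o w)) *
            volume.real (pol K o))
          ≤ (1 + t) ^ d * (2 * Real.sqrt (Real.exp L * Θ) * volume.real (pol K o)) :=
            mul_le_mul_of_nonneg_left h3 h4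
        _ = _ := by ring

end Pool.Agent.Lib.MP_5e7226_co.NF
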