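import Pool.Agent.Lib.MP_5e7226_co.NF.D2

/-!
# NF, E1: the exit volume
-/

set_option autoImplicit false
set_option linter.unusedSectionVars false

open MeasureTheory Set Module
open scoped Pointwise InnerProductSpace
open Pool.Agent.Lib.MP_5e7226_co.AB (pol ind)

namespace Pool.Agent.Lib.MP_5e7226_co.NF

variable {d : ℕ} {K : Set (V d)} {o : V d}

/-- The exit volume. -/
noncomputable def XV (K : Set (V d)) (o x : V d) (t : ℝ) : ℝ :=
  volume.real {u | hs K o u ≤ 1 ∧ 1 < hs K o (u + t • x)}

lemma XV_ne_top (hK : Body K o) (x : V d) (t : ℝ) :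
    volume {u | hs K o u ≤ 1 ∧ 1 < hs K o (u + t • x)} ≠ ⊤ :=
  ne_top_of_le_ne_top (sl_ne_top hK 1) (measure_mono fun _ hu => hu.1)

lemma XV_nonneg (x : V d) (t : ℝ) : 0 ≤ XV K o x t := measureReal_nonneg

lemma XV_mono (hK : Body K o) (x : V d) {s t : ℝ} (hs0 : 0 ≤ s) (hst : s ≤ t) :
    XV K o x s ≤ XV K o x t := by
  unfold XV
  refine measureReal_mono ?_ (XV_ne_top hK x t)
  rintro u ⟨hu, hs1⟩
  refine ⟨hu, ?_⟩
  by_contra hcon
  rw [not_lt] at hcon
  rcases hs0.eq_or_lt with h0 | h0
  · rw [← h0, zero_smul, add_zero] at hs1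
    linarith
  · have ht : 0 < t := h0.trans_le hst
    have h1 : u + s • x = (1 - s / t) • u + (s / t) • (u + t • x) := by
      rw [smul_add, smul_smul, div_mul_cancel₀ _ ht.ne', ← add_assoc, ← add_smul]
      congr 1
      rw [sub_add_cancel, one_smul]
    have h2 : 0 ≤ s / t := div_nonneg hs0 ht.le
    have h3 : s / t ≤ 1 := (div_le_one ht).2 hst
    have h4 : hs K o (u + s • x) ≤ 1 := by
      rw [h1]
      refine (hs_add_le hK _ _).trans ?_
      rw [hs_smul hK (by linarith), hs_smul hK h2]
      nlinarith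
    linarith

lemma XV_div (hK : Body K o) (x : V d) (t : ℝ) {k : ℕ} (hk : 1 ≤ k) :
    XV K o x t ≤ k * XV K o x (t / k) := by
  have hk0 : (0 : ℝ) < k := by exact_mod_cast hk
  set A : Set (V d) := {u | hs K o u ≤ 1 ∧ 1 < hs K o (u + (t / k) • x)} with hA
  have hsub : {u | hs K o u ≤ 1 ∧ 1 < hs K o (u + t • x)} ⊆
      ⋃ j ∈ Finset.range k, (fun u : V d => u + ((j : ℝ) * (t / k)) • x) ⁻¹' A := by
    rintro u ⟨hu, ht⟩
    classical
    have hex : ∃ j : ℕ, 1 < hs K o (u + ((j : ℝ) * (t / k)) • x) := by
      refine ⟨k, ?_⟩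
      rw [mul_div_cancel₀ _ hk0.ne']
      exact ht
    have hf := Nat.find_spec hex
    have hle : Nat.find hex ≤ k := Nat.find_min' hex (by
      rw [mul_div_cancel₀ _ hk0.ne']
      exact ht)
    have hne : Nat.find hex ≠ 0 := by
      intro h0
      rw [h0, Nat.cast_zero, zero_mul, zero_smul, add_zero] at hf
      linarith
    obtain ⟨m, hm⟩ := Nat.exists_eq_succ_of_ne_zero hne
    have hmin := Nat.find_min hex (m := m) (by omega)
    rw [not_lt] at hmin
    rw [hm] at hf
    simp only [mem_iUnion]
    refine ⟨m, Finset.mem_range.2 (by omega), ?_⟩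
    refine ⟨hmin, ?_⟩
    have h1 : u + ((m : ℝ) * (t / k)) • x + (t / k) • x = u + (((m.succ : ℕ) : ℝ) * (t / k)) • x := by
      rw [add_assoc, ← add_smul]
      congr 2
      push_cast
      ring
    rw [h1]
    exact hf
  have hm : volume {u | hs K o u ≤ 1 ∧ 1 < hs K o (u + t • x)} ≤ k * volume A := by
    refine (measure_mono hsub).trans ((measure_biUnion_finset_le _ _).trans ?_)
    have h2 : ∀ j ∈ Finset.range k,
        volume ((fun u : V d => u + ((j : ℝ) * (t / k)) • x) ⁻¹' A) = volume A := fun j _ =>
      measure_preimage_add_right volume _ A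
    rw [Finset.sum_congr rfl h2, Finset.sum_const, Finset.card_range, nsmul_eq_mul]
  unfold XV Measure.real
  have hA' : volume A ≠ ⊤ := XV_ne_top hK x (t / k)
  have h3 := ENNReal.toReal_mono (ENNReal.mul_ne_top (ENNReal.natCast_ne_top k) hA') hm
  rwa [ENNReal.toReal_mul, ENNReal.toReal_natCast] at h3

lemma XV_scale (hK : Body K o) (x : V d) (t : ℝ) {r : ℝ} (hr : 0 < r) :
    volume.real {u | hs K o u ≤ r ∧ r < hs K o (u + t • x)} = r ^ d * XV K o x (t / r) := by
  have hset : {u | hs K o u ≤ r ∧ r < hs K o (u + t • x)} =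
      r • {u | hs K o u ≤ 1 ∧ 1 < hs K o (u + (t / r) • x)} := by
    ext u
    rw [mem_smul_set_iff_inv_smul_mem₀ hr.ne']
    have h1 : hs K o (r⁻¹ • u) = r⁻¹ * hs K o u := hs_smul hK (inv_nonneg.2 hr.le) u
    have h2 : r⁻¹ • u + (t / r) • x = r⁻¹ • (u + t • x) := by
      rw [smul_add, smul_smul, div_eq_inv_mul]
    have h3 : hs K o (r⁻¹ • u + (t / r) • x) = r⁻¹ * hs K o (u + t • x) := by
      rw [h2, hs_smul hK (inv_nonneg.2 hr.le)]
    change (hs K o u ≤ r ∧ r < hs K o (u + t • x)) ↔
      (hs K o (r⁻¹ • u) ≤ 1 ∧ 1 < hs K o (r⁻¹ • u + (t / r) • x))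
    rw [h1, h3, inv_mul_le_iff₀ hr, mul_one, lt_inv_mul_iff₀ hr, mul_one]
  rw [hset]
  exact vol_smul r hr.le _

/-- Fubini for the radius. -/
lemma radius_fubini (hK : Body K o) (y : V d) {a b : ℝ} :
    ∫ r in Icc a b, volume.real {u | hs K o u ≤ r ∧ r < hs K o (u + y)} =
      ∫ u in sl K o b, (volume.real (Icc a b ∩ Ico (hs K o u) (hs K o (u + y)))) := by
  have hm := measurable_hs hK
  have hm1 : Measurable fun p : ℝ × V d => hs K o p.2 := hm.comp measurable_snd
  have hm2 : Measurable fun p : ℝ × V d => hs K o (p.2 + y) :=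
    hm.comp (measurable_snd.add_const y)
  have hT0 : MeasurableSet {p : ℝ × V d | hs K o p.2 ≤ p.1 ∧ p.1 < hs K o (p.2 + y)} :=
    (measurableSet_le hm1 measurable_fst).inter (measurableSet_lt measurable_fst hm2)
  set T : Set (ℝ × V d) := {p | (a ≤ p.1 ∧ p.1 ≤ b) ∧ hs K o p.2 ≤ p.1 ∧ p.1 < hs K o (p.2 + y)}
    with hT
  have hTm : MeasurableSet T :=
    ((measurableSet_le measurable_const measurable_fst).inter
      (measurableSet_le measurable_fst measurable_const)).inter hT0
  have h1 : ∫ r in Icc a b, volume.real {u | hs K o u ≤ r ∧ r < hs K o (u + y)} =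
      (((volume : Measure ℝ).prod (volume : Measure (V d))) T).toReal := by
    rw [Measure.prod_apply hTm]
    simp only [Measure.real]
    rw [integral_toReal]
    · congr 1
      rw [← lintegral_indicator measurableSet_Icc]
      refine lintegral_congr fun r => ?_
      by_cases hr : r ∈ Icc a b
      · rw [indicator_of_mem hr]
        congr 1
        ext u
        simp only [hT, mem_ofPred_eq, mem_preimage, hr.1, hr.2, and_self, true_and]
      · rw [indicator_of_notMem hr]
        have h0 : Prod.mk r ⁻¹' T = ∅ := by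
          ext u
          simp only [hT, mem_preimage, mem_ofPred_eq, mem_empty_iff_false, iff_false]
          exact fun h => hr ⟨h.1.1, h.1.2⟩
        rw [h0, measure_empty]
    · exact (measurable_measure_prodMk_left hT0).aemeasurable
    · refine ae_of_all _ fun r => ?_
      exact lt_of_le_of_lt (measure_mono (t := sl K o r) fun u hu => hu.1)
        (sl_ne_top hK r).lt_top
  have h2 : ∫ u in sl K o b, (volume.real (Icc a b ∩ Ico (hs K o u) (hs K o (u + y)))) =
      (((volume : Measure ℝ).prod (volume : Measure (V d))) T).toReal := by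
    rw [Measure.prod_apply_symm hTm]
    simp only [Measure.real]
    have hsec : ∀ u : V d, (fun r : ℝ => (r, u)) ⁻¹' T =
        Icc a b ∩ Ico (hs K o u) (hs K o (u + y)) := by
      intro u
      ext r
      simp only [hT, mem_preimage, mem_ofPred_eq, mem_inter_iff, mem_Icc, mem_Ico]
    rw [integral_toReal]
    · congr 1
      rw [← lintegral_indicator (measurableSet_sl hK b)]
      refine lintegral_congr fun u => ?_
      rw [hsec]
      by_cases hu : u ∈ sl K o b
      · rw [indicator_of_mem hu]
      · rw [indicator_of_notMem hu]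
        have h0 : Icc a b ∩ Ico (hs K o u) (hs K o (u + y)) = ∅ := by
          ext r
          simp only [mem_inter_iff, mem_Icc, mem_Ico, mem_empty_iff_false, iff_false]
          intro h
          exact hu (h.2.1.trans h.1.2)
        rw [h0, measure_empty]
    · have h3 : (fun u : V d => volume (Icc a b ∩ Ico (hs K o u) (hs K o (u + y)))) =
          fun u : V d => volume ((fun r : ℝ => (r, u)) ⁻¹' T) := by
        funext u
        rw [hsec]
      rw [h3]
      exact (measurable_measure_prodMk_right hTm).aemeasurable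
    · refine ae_of_all _ fun u => ?_
      refine lt_of_le_of_lt (measure_mono inter_subset_left) ?_
      exact isCompact_Icc.measure_lt_top
  rw [h1, h2]

/-- The exit volume is at most the mean of the positive part of the derivative. -/
theorem XV_le (hK : Body K o) (hd : 1 ≤ d) {x : V d} (hx : x ∈ pol K o) {τ : ℝ} (hτ : 0 < τ) :
    XV K o x (τ / (1 + 1 / d)) ≤
      d * τ * (1 + 1 / d + τ) ^ d * ∫ u in pol K o, max (gD K o u x) 0 := by
  have hd0 : (0 : ℝ) < d := by exact_mod_cast hd
  have hx1 : hs K o x ≤ 1 := (mem_pol hK).1 hx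
  set b : ℝ := 1 + 1 / d with hb
  have hinv0 : 0 < 1 / (d : ℝ) := by positivity
  have hb1 : 1 ≤ b := by rw [hb]; linarith
  have hF := radius_fubini hK (τ • x) (a := 1) (b := b)
  -- the left side
  have hL : 1 / (d : ℝ) * XV K o x (τ / b) ≤
      ∫ r in Icc (1 : ℝ) b, volume.real {u | hs K o u ≤ r ∧ r < hs K o (u + τ • x)} := by
    have e1 : ∫ r in Icc (1 : ℝ) b, volume.real {u | hs K o u ≤ r ∧ r < hs K o (u + τ • x)} =
        ∫ r in Icc (1 : ℝ) b, r ^ d * XV K o x (τ / r) := by
      apply setIntegral_congr_fun measurableSet_Icc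
      intro r hr
      exact XV_scale hK x τ (by linarith [hr.1])
    have e2 : 1 / (d : ℝ) * XV K o x (τ / b) = ∫ _r in Icc (1 : ℝ) b, XV K o x (τ / b) := by
      rw [setIntegral_const, smul_eq_mul, Measure.real, Real.volume_Icc, ENNReal.toReal_ofReal
        (by linarith)]
      congr 1
      rw [hb]; ring
    rw [e1, e2]
    have hanti : AntitoneOn (fun r : ℝ => XV K o x (τ / r)) (Icc 1 b) := by
      intro r hr s hs hrs
      have hr0 : 0 < r := by linarith [hr.1]
      have hs0 : 0 < s := by linarith [hs.1]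
      exact XV_mono hK x (by positivity) (div_le_div_of_nonneg_left hτ.le hr0 hrs)
    have hint1 : IntegrableOn (fun r : ℝ => XV K o x (τ / r)) (Icc 1 b) :=
      hanti.integrableOn_isCompact isCompact_Icc
    have hint2 : IntegrableOn (fun r : ℝ => r ^ d * XV K o x (τ / r)) (Icc 1 b) :=
      hint1.continuousOn_mul (continuous_pow d).continuousOn isCompact_Icc
    apply setIntegral_mono_on _ hint2 measurableSet_Icc
    · intro r hr
      have hr0 : 0 < r := by linarith [hr.1]
      have h1 : XV K o x (τ / b) ≤ XV K o x (τ / r) :=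
        XV_mono hK x (by positivity) (div_le_div_of_nonneg_left hτ.le hr0 hr.2)
      have h2 : (1 : ℝ) ≤ r ^ d := one_le_pow₀ hr.1
      calc XV K o x (τ / b) ≤ XV K o x (τ / r) := h1
        _ = 1 * XV K o x (τ / r) := (one_mul _).symm
        _ ≤ r ^ d * XV K o x (τ / r) := mul_le_mul_of_nonneg_right h2 (XV_nonneg x _)
    · exact integrableOn_const (by rw [Real.volume_Icc]; exact ENNReal.ofReal_ne_top)
  -- the function G
  set G : V d → ℝ := fun u => max (gD K o u x) 0 with hG
  have hmeas : Measurable G := (measurable_gD_left x).max measurable_const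
  have hG0 : ∀ u, 0 ≤ G u := fun u => le_max_right _ _
  have hG1 : ∀ u, G u ≤ 1 := fun u => max_le (gD_le_one hK hx) zero_le_one
  have hGint : ∀ s : Set (V d), volume s ≠ ⊤ → IntegrableOn G s := by
    intro s hs
    refine Measure.integrableOn_of_bounded (M := 1) hs hmeas.aestronglyMeasurable ?_
    filter_upwards with u
    rw [Real.norm_eq_abs, abs_of_nonneg (hG0 u)]
    exact hG1 u
  have hmeas' : Measurable fun u : V d => G (u + τ • x) :=
    hmeas.comp (measurable_id.add_const _)
  -- the right side
  have hR : ∫ u in sl K o b, (volume.real (Icc 1 b ∩ Ico (hs K o u) (hs K o (u + τ • x)))) ≤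
      ∫ u in sl K o b, τ * G (u + τ • x) := by
    apply integral_mono_of_nonneg
    · filter_upwards with u
      exact measureReal_nonneg
    · apply Integrable.const_mul
      refine Measure.integrableOn_of_bounded (M := 1) (sl_ne_top hK b)
        hmeas'.aestronglyMeasurable ?_
      filter_upwards with u
      rw [Real.norm_eq_abs, abs_of_nonneg (hG0 _)]
      exact hG1 _
    · apply ae_restrict_of_ae
      have hae : ∀ᵐ u, DifferentiableAt ℝ (hs K o) (u + τ • x) := by
        have h1 := ae_diff hK
        have h2 := (measurePreserving_add_right (volume : Measure (V d))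
          (τ • x)).quasiMeasurePreserving
        exact h2.ae h1
      filter_upwards [hae] with u hu
      obtain ⟨x₀, hx₀, hx₀w, hg⟩ := exists_face hK hu
      have h1 := le_hs hK hx₀ u
      have h3 : hs K o (u + τ • x) - hs K o u ≤ τ * G (u + τ • x) := by
        have e1 : hs K o (u + τ • x) = ⟪u, x₀ - o⟫_ℝ + τ * gD K o (u + τ • x) x := by
          rw [hg, ← hx₀w, inner_add_left, inner_smul_left, conj_trivial]
        have e2 : τ * gD K o (u + τ • x) x ≤ τ * G (u + τ • x) :=
          mul_le_mul_of_nonneg_left (le_max_left _ _) hτ.le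
        linarith
      have h4 : 0 ≤ τ * G (u + τ • x) := mul_nonneg hτ.le (hG0 _)
      calc volume.real (Icc 1 b ∩ Ico (hs K o u) (hs K o (u + τ • x))) ≤
            volume.real (Ico (hs K o u) (hs K o (u + τ • x))) := by
            apply measureReal_mono (h₂ := ?_) inter_subset_right
            rw [Real.volume_Ico]; exact ENNReal.ofReal_ne_top
        _ = (ENNReal.ofReal (hs K o (u + τ • x) - hs K o u)).toReal := by
            rw [Measure.real, Real.volume_Ico]
        _ ≤ τ * G (u + τ • x) := by
            rw [ENNReal.toReal_ofReal']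
            exact max_le h3 h4
  -- translation
  have hT : ∫ u in sl K o b, G (u + τ • x) ≤ ∫ w in sl K o (b + τ), G w := by
    set A : Set (V d) := (fun w => w - τ • x) ⁻¹' sl K o b with hA
    have hAm : MeasurableSet A :=
      (measurable_id.sub measurable_const) (measurableSet_sl hK b)
    have e1 : ∫ u in sl K o b, G (u + τ • x) = ∫ w in A, G w := by
      rw [← integral_indicator (measurableSet_sl hK b), ← integral_indicator hAm,
        ← integral_add_right_eq_self (fun w => A.indicator G w) (τ • x)]
      congr 1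
      funext u
      by_cases h : u ∈ sl K o b
      · have h' : u + τ • x ∈ A := by
          change u + τ • x - τ • x ∈ sl K o b
          rwa [add_sub_cancel_right]
        rw [indicator_of_mem h, indicator_of_mem h']
      · have h' : u + τ • x ∉ A := by
          intro hc
          change u + τ • x - τ • x ∈ sl K o b at hc
          rw [add_sub_cancel_right] at hc
          exact h hc
        rw [indicator_of_notMem h, indicator_of_notMem h']
    rw [e1]
    apply setIntegral_mono_set (hGint _ (sl_ne_top hK _))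
    · filter_upwards with u
      exact hG0 u
    · apply LE.le.eventuallyLE
      intro w hw
      have h1 := hs_add_le hK (w - τ • x) (τ • x)
      rw [sub_add_cancel, hs_smul hK hτ.le] at h1
      have h2 := mul_le_mul_of_nonneg_left hx1 hτ.le
      have h3 : hs K o (w - τ • x) ≤ b := hw
      change hs K o w ≤ b + τ
      linarith
  have hH : ∫ w in sl K o (b + τ), G w = (b + τ) ^ d * ∫ w in pol K o, G w := by
    apply integral_sl_hom hK
    · intro c hc u
      simp only [hG, gD_smul hK hc]
    · linarith
  have key : 1 / (d : ℝ) * XV K o x (τ / b) ≤ τ * ((b + τ) ^ d * ∫ w in pol K o, G w) := by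
    calc 1 / (d : ℝ) * XV K o x (τ / b) ≤ _ := hL
      _ = _ := hF
      _ ≤ _ := hR
      _ = τ * ∫ u in sl K o b, G (u + τ • x) := integral_const_mul _ _
      _ ≤ τ * ((b + τ) ^ d * ∫ w in pol K o, G w) := by
        apply mul_le_mul_of_nonneg_left _ hτ.le
        rw [← hH]
        exact hT
  have : XV K o x (τ / b) = d * (1 / (d : ℝ) * XV K o x (τ / b)) := by field_simp
  rw [this]
  calc (d : ℝ) * (1 / (d : ℝ) * XV K o x (τ / b)) ≤
      d * (τ * ((b + τ) ^ d * ∫ w in pol K o, G w)) :=
        mul_le_mul_of_nonneg_left key hd0.le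
    _ = d * τ * (b + τ) ^ d * ∫ u in pol K o, G u := by ring

end Pool.Agent.Lib.MP_5e7226_co.NF
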