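import Pool.Agent.Lib.MP_5e7226_co.NF.E1

/-!
# NF, E2: small thickness
-/

set_option autoImplicit false
set_option linter.unusedSectionVars false

open MeasureTheory Set Module
open scoped Pointwise InnerProductSpace
open Pool.Agent.Lib.MP_5e7226_co.AB (pol ind)

namespace Pool.Agent.Lib.MP_5e7226_co.NF

lemma exp_le_seven : Real.exp (1945 / 1000) ≤ 7 := by
  have e1 : Real.exp (1945 / 1000) = Real.exp 1 ^ 2 * Real.exp (-(55 / 1000)) := by
    rw [← Real.exp_nat_mul, ← Real.exp_add]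
    norm_num
  have e2 : Real.exp (-(55 / 1000)) ≤ 1 / (1 + 55 / 1000 + (55 / 1000) ^ 2 / 2) := by
    rw [Real.exp_neg, ← one_div]
    apply one_div_le_one_div_of_le (by norm_num)
    exact Real.quadratic_le_exp_of_nonneg (by norm_num)
  have e3 : Real.exp 1 ^ 2 ≤ 2.7182818286 ^ 2 :=
    pow_le_pow_left₀ (Real.exp_pos 1).le Real.exp_one_lt_d9.le 2
  rw [e1]
  calc Real.exp 1 ^ 2 * Real.exp (-(55 / 1000)) ≤
        2.7182818286 ^ 2 * (1 / (1 + 55 / 1000 + (55 / 1000) ^ 2 / 2)) :=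
        mul_le_mul e3 e2 (Real.exp_pos _).le (by positivity)
    _ ≤ 7 := by norm_num

/-- Layers. -/
lemma layers (θ₀ c : ℝ) (hc : 0 ≤ c) (y : ℝ) (J : ℕ) (h : y < θ₀ + c * J) :
    y ≤ θ₀ + ∑ j ∈ Finset.range J, (if θ₀ + c * j ≤ y then c else 0) := by
  induction J with
  | zero =>
    simp only [Nat.cast_zero, mul_zero, add_zero] at h
    simpa using h.le
  | succ J ih =>
    by_cases h1 : y < θ₀ + c * J
    · refine (ih h1).trans ?_
      rw [Finset.sum_range_succ]
      have : (0 : ℝ) ≤ if θ₀ + c * J ≤ y then c else 0 := by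
        split_ifs
        · exact hc
        · exact le_rfl
      linarith
    · rw [not_lt] at h1
      have h2 : ∀ j ∈ Finset.range (J + 1), (if θ₀ + c * (j : ℝ) ≤ y then c else 0) = c := by
        intro j hj
        rw [if_pos]
        have h3 : (j : ℝ) ≤ J := by
          have := Finset.mem_range.1 hj
          exact_mod_cast Nat.lt_succ_iff.1 this
        have h4 := mul_le_mul_of_nonneg_left h3 hc
        linarith
      rw [Finset.sum_congr rfl h2, Finset.sum_const, Finset.card_range, nsmul_eq_mul]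
      push_cast at h ⊢
      linarith

lemma geom_bound (J : ℕ) : ∑ j ∈ Finset.range J, ((378 : ℝ) / 1000) ^ j ≤ 1.608 := by
  have h1 := geom_sum_eq (show ((378 : ℝ) / 1000) ≠ 1 by norm_num) J
  rw [h1]
  have h2 : (0 : ℝ) ≤ (378 / 1000) ^ J := by positivity
  rw [div_le_iff_of_neg (by norm_num)]
  have h3 : (1.608 : ℝ) * (378 / 1000 - 1) ≤ -1 := by norm_num
  linarith

variable {d : ℕ} {K : Set (V d)} {o : V d} {R : Finset (V d)} {L lam : ℝ}

/-- The mean over a tight set of the positive part of a linear functional. -/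
theorem tail_sum_pos (hT : Tight K o R L lam) (hL : 0 ≤ L) {x₀ : V d} (hx₀ : x₀ ∈ K) {S : ℝ}
    (hS0 : 0 < S) (hS : ⨍ v in pol K o, ⟪v, x₀ - o⟫_ℝ ^ 2 ≤ S) :
    ∑ x ∈ R, max ⟪x, x₀ - o⟫_ℝ 0 ≤ (5.9 * L + 32) * Real.sqrt S * R.card := by
  classical
  have hK := hT.body
  set e : V d := x₀ - o with he
  set σ : ℝ := Real.sqrt S with hσ
  have hσ0 : 0 < σ := Real.sqrt_pos.2 hS0
  set a : ℝ := Real.sqrt (8 * S) with ha
  have ha0 : 0 < a := Real.sqrt_pos.2 (by positivity)
  have ha1 : a ≤ 2.8285 * σ := by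
    rw [ha, hσ, Real.sqrt_mul (by norm_num)]
    apply mul_le_mul_of_nonneg_right _ (Real.sqrt_nonneg _)
    rw [Real.sqrt_le_left (by norm_num)]
    norm_num
  set η₂ : ℝ := Real.sqrt (2 * S) with hη₂
  have hη₂0 : 0 ≤ η₂ := Real.sqrt_nonneg _
  have hη₂1 : η₂ ≤ 1.4143 * σ := by
    rw [hη₂, hσ, Real.sqrt_mul (by norm_num)]
    apply mul_le_mul_of_nonneg_right _ (Real.sqrt_nonneg _)
    rw [Real.sqrt_le_left (by norm_num)]
    norm_num
  set j₀ : ℕ := ⌈L / (1945 / 1000)⌉₊ with hj₀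
  have hj1 : L / (1945 / 1000) ≤ (j₀ : ℝ) := Nat.le_ceil _
  have hj2 : (j₀ : ℝ) < L / (1945 / 1000) + 1 := Nat.ceil_lt_add_one (by positivity)
  have h7 : Real.exp L ≤ 7 ^ j₀ := by
    calc Real.exp L ≤ Real.exp (j₀ * (1945 / 1000)) := by
          apply Real.exp_le_exp.2
          rw [div_le_iff₀ (by norm_num)] at hj1
          exact hj1
      _ = Real.exp (1945 / 1000) ^ j₀ := by rw [← Real.exp_nat_mul]
      _ ≤ 7 ^ j₀ := pow_le_pow_left₀ (Real.exp_pos _).le exp_le_seven j₀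
  set θ₀ : ℝ := (4 * j₀ + 2) * a + η₂ with hθ₀
  have hθ₀0 : 0 ≤ θ₀ := by positivity
  -- the number of large values
  have hfew : ∀ j : ℕ, ((R.filter fun x => θ₀ + 4 * a * j ≤ ⟪x, e⟫_ℝ).card : ℝ) ≤
      2 * (354 / 1000 * (378 / 1000) ^ j) * R.card := by
    intro j
    have h1 := few hT e (η := (2 * ((j₀ + j : ℕ) : ℝ) + 1) * a) (η₂ := η₂)
      (θ := θ₀ + 4 * a * j) (Θ := 1 / 8 * (1 / 7) ^ (j₀ + j)) (by positivity) hη₂0
      (by
        rw [hθ₀]
        push_cast
        linarith) (by positivity) (tail hK e hS0 hS (j₀ + j)) (half hK e hS0 hS)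
    refine h1.trans ?_
    apply mul_le_mul_of_nonneg_right _ (Nat.cast_nonneg _)
    apply mul_le_mul_of_nonneg_left _ (by norm_num)
    rw [Real.sqrt_le_left (by positivity)]
    calc Real.exp L * (1 / 8 * (1 / 7) ^ (j₀ + j)) ≤ 7 ^ j₀ * (1 / 8 * (1 / 7) ^ (j₀ + j)) :=
          mul_le_mul_of_nonneg_right h7 (by positivity)
      _ = (7 * (1 / 7)) ^ j₀ * (1 / 8 * (1 / 7) ^ j) := by
          rw [pow_add, mul_pow]
          ring
      _ = 1 / 8 * (1 / 7) ^ j := by norm_num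
      _ ≤ (354 / 1000) ^ 2 * ((378 / 1000) ^ 2) ^ j := by
          apply mul_le_mul (by norm_num) _ (by positivity) (by positivity)
          exact pow_le_pow_left₀ (by norm_num) (by norm_num) j
      _ = (354 / 1000 * (378 / 1000) ^ j) ^ 2 := by
          rw [mul_pow, ← pow_mul, ← pow_mul, mul_comm 2 j]
  -- the number of layers
  obtain ⟨J, hJ⟩ : ∃ J : ℕ, 1 < θ₀ + 4 * a * J := by
    obtain ⟨J, hJ⟩ := exists_nat_gt (1 / (4 * a))
    refine ⟨J, ?_⟩
    rw [div_lt_iff₀ (by positivity)] at hJ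
    linarith
  have hpt : ∀ x ∈ R, max ⟪x, e⟫_ℝ 0 ≤
      θ₀ + ∑ j ∈ Finset.range J, (if θ₀ + 4 * a * j ≤ ⟪x, e⟫_ℝ then 4 * a else 0) := by
    intro x hx
    have h1 : ⟪x, e⟫_ℝ ≤ 1 := hT.mem x hx x₀ hx₀
    refine max_le (layers θ₀ (4 * a) (by positivity) _ J (by linarith)) ?_
    refine add_nonneg hθ₀0 (Finset.sum_nonneg fun j _ => ?_)
    split_ifs
    · positivity
    · exact le_rfl
  have hsum := Finset.sum_le_sum hpt
  rw [Finset.sum_add_distrib, Finset.sum_const, nsmul_eq_mul, Finset.sum_comm] at hsum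
  have h2 : ∀ j ∈ Finset.range J, ∑ x ∈ R, (if θ₀ + 4 * a * (j : ℝ) ≤ ⟪x, e⟫_ℝ then 4 * a else 0) ≤
      4 * a * (2 * (354 / 1000 * (378 / 1000) ^ j) * R.card) := by
    intro j _
    rw [← Finset.sum_filter, Finset.sum_const, nsmul_eq_mul, mul_comm]
    exact mul_le_mul_of_nonneg_left (hfew j) (by positivity)
  have h3 := Finset.sum_le_sum h2
  have h4 : ∑ j ∈ Finset.range J, 4 * a * (2 * (354 / 1000 * (378 / 1000) ^ j) * (R.card : ℝ)) =
      (4 * a * 2 * (354 / 1000) * R.card) * ∑ j ∈ Finset.range J, ((378 : ℝ) / 1000) ^ j := by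
    rw [Finset.mul_sum]
    exact Finset.sum_congr rfl fun j _ => by ring
  rw [h4] at h3
  have h5 : (4 * a * 2 * (354 / 1000) * (R.card : ℝ)) *
      ∑ j ∈ Finset.range J, ((378 : ℝ) / 1000) ^ j ≤
      (4 * a * 2 * (354 / 1000) * R.card) * 1.608 :=
    mul_le_mul_of_nonneg_left (geom_bound J) (by positivity)
  have h6 : θ₀ + 4 * a * 2 * (354 / 1000) * 1.608 ≤ (5.9 * L + 32) * σ := by
    have e1 : θ₀ + 4 * a * 2 * (354 / 1000) * 1.608 ≤ (4 * j₀ + 2 + 4.5539) * a + η₂ := by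
      rw [hθ₀]
      nlinarith
    refine e1.trans ?_
    have e2 : (4 * (j₀ : ℝ) + 2 + 4.5539) ≤ 4 * (L / (1945 / 1000) + 1) + 2 + 4.5539 := by
      linarith
    have e3 : (4 * (j₀ : ℝ) + 2 + 4.5539) * a ≤
        (4 * (L / (1945 / 1000) + 1) + 2 + 4.5539) * (2.8285 * σ) :=
      mul_le_mul e2 ha1 ha0.le (by positivity)
    have e4 : (4 * (L / (1945 / 1000) + 1) + 2 + 4.5539) * (2.8285 * σ) + 1.4143 * σ ≤
        (5.9 * L + 32) * σ := by
      have e5 : (4 * (L / (1945 / 1000) + 1) + 2 + 4.5539) * 2.8285 + 1.4143 ≤ 5.9 * L + 32 := by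
        have e6 : (4 * (L / (1945 / 1000) + 1) + 2 + 4.5539) * 2.8285 + 1.4143 =
            (4 * 2.8285 / 1.945) * L + (10.5539 * 2.8285 + 1.4143) := by ring
        rw [e6]
        have e7 : (4 * 2.8285 / 1.945 : ℝ) ≤ 5.9 := by norm_num
        have e8 : (10.5539 * 2.8285 + 1.4143 : ℝ) ≤ 32 := by norm_num
        have e9 := mul_le_mul_of_nonneg_right e7 hL
        linarith
      have := mul_le_mul_of_nonneg_right e5 hσ0.le
      linarith
    linarith
  have h7' : (R.card : ℝ) * θ₀ + (4 * a * 2 * (354 / 1000) * R.card) * 1.608 =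
      (θ₀ + 4 * a * 2 * (354 / 1000) * 1.608) * R.card := by ring
  have h8 := mul_le_mul_of_nonneg_right h6 (Nat.cast_nonneg (α := ℝ) R.card)
  linarith

/-- The same for `S ≥ 0`. -/
theorem tail_sum (hT : Tight K o R L lam) (hL : 0 ≤ L) {x₀ : V d} (hx₀ : x₀ ∈ K) {S : ℝ}
    (hS : ⨍ v in pol K o, ⟪v, x₀ - o⟫_ℝ ^ 2 ≤ S) :
    ∑ x ∈ R, max ⟪x, x₀ - o⟫_ℝ 0 ≤ (5.9 * L + 32) * Real.sqrt S * R.card := by
  have hS0 : 0 ≤ S := by
    refine le_trans ?_ hS
    rw [Mn_eq]
    exact M_nonneg hT.body fun _ _ => sq_nonneg _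
  have h1 : Filter.Tendsto (fun ε : ℝ => (5.9 * L + 32) * Real.sqrt (S + ε) * R.card)
      (nhdsWithin 0 (Ioi 0)) (nhds ((5.9 * L + 32) * Real.sqrt (S + 0) * R.card)) := by
    refine Filter.Tendsto.mono_left ?_ nhdsWithin_le_nhds
    have : Continuous fun ε : ℝ => (5.9 * L + 32) * Real.sqrt (S + ε) * (R.card : ℝ) := by
      fun_prop
    exact this.tendsto 0
  rw [add_zero] at h1
  refine ge_of_tendsto h1 ?_
  filter_upwards [self_mem_nhdsWithin] with ε hε
  have hε' : (0 : ℝ) < ε := hε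
  exact tail_sum_pos hT hL hx₀ (by linarith) (hS.trans (by linarith))

/-- The mean of the square of the derivative at `u`. -/
noncomputable def sg (K : Set (V d)) (o u : V d) : ℝ := Mn K o fun v => gD K o u v ^ 2

/-- The thickness. -/
noncomputable def thick (K : Set (V d)) (o : V d) : ℝ :=
  ⨍ u in pol K o, ⨍ v in pol K o, (fderiv ℝ (hs K o) u v) ^ 2

lemma thick_eq : thick K o = Mn K o fun u => sg K o u := by
  unfold thick
  rw [Mn_eq]
  congr 1
  funext u
  rw [Mn_eq]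
  rfl

lemma sg_nonneg (hK : Body K o) (u : V d) : 0 ≤ sg K o u := M_nonneg hK fun _ _ => sq_nonneg _

lemma Bd_sg (hK : Body K o) : Bd K o fun u => sg K o u := by
  obtain ⟨C, hC, h⟩ := gD_bound' hK
  unfold sg
  refine Bd.mean hK (F := fun u v => gD K o u v ^ 2) (measurable_gD.pow_const 2) (C := C ^ 2) ?_
  intro u _ v hv
  rw [abs_pow]
  exact pow_le_pow_left₀ (abs_nonneg _) (h u v hv) 2

lemma num_exp2 : Real.exp (-12 / 10) ≤ 31 / 100 := by
  have h1 : Real.exp (12 / 10) = Real.exp 1 * Real.exp (2 / 10) := by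
    rw [← Real.exp_add]
    norm_num
  have h2 : (1 + 2 / 10 + (2 / 10) ^ 2 / 2 : ℝ) ≤ Real.exp (2 / 10) :=
    Real.quadratic_le_exp_of_nonneg (by norm_num)
  have h3 := Real.exp_one_gt_d9
  have h4 : (100 / 31 : ℝ) ≤ Real.exp (12 / 10) := by
    rw [h1]
    calc (100 / 31 : ℝ) ≤ 2.7182818283 * (1 + 2 / 10 + (2 / 10) ^ 2 / 2) := by norm_num
      _ ≤ Real.exp 1 * Real.exp (2 / 10) :=
        mul_le_mul h3.le h2 (by norm_num) (Real.exp_pos _).le
  have h5 : Real.exp (-12 / 10) = (Real.exp (12 / 10))⁻¹ := by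
    rw [← Real.exp_neg]
    congr 1
    norm_num
  rw [h5, inv_le_comm₀ (Real.exp_pos _) (by norm_num)]
  refine le_trans (le_of_eq ?_) h4
  norm_num

/-- `(1 + 1 / d) (1 + 1 / d + τ)^d ≤ 3.31` if `τ d ≤ 0.012`. -/
lemma num_pow {d : ℕ} (hd : (5 : ℝ) ≤ d) {τ : ℝ} (hτ0 : 0 ≤ τ) (hτ : τ * d ≤ 12 / 1000) :
    (1 + 1 / (d : ℝ)) * (1 + 1 / d + τ) ^ d ≤ 3.31 := by
  have hd0 : (0 : ℝ) < d := by linarith
  have h1 : 1 + 1 / (d : ℝ) + τ ≤ Real.exp (1 / d + τ) := by
    have := Real.add_one_le_exp (1 / (d : ℝ) + τ)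
    linarith
  have h2 : (1 + 1 / (d : ℝ) + τ) ^ d ≤ Real.exp 1 * Real.exp (12 / 1000) := by
    calc (1 + 1 / (d : ℝ) + τ) ^ d ≤ Real.exp (1 / d + τ) ^ d :=
          pow_le_pow_left₀ (by positivity) h1 d
      _ = Real.exp (d * (1 / d + τ)) := by rw [← Real.exp_nat_mul]
      _ ≤ Real.exp (1 + 12 / 1000) := by
          apply Real.exp_le_exp.2
          have : (d : ℝ) * (1 / d + τ) = 1 + τ * d := by
            field_simp
          rw [this]
          linarith
      _ = _ := Real.exp_add _ _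
  have h3 : Real.exp (12 / 1000) ≤ 1 / (1 - 12 / 1000) := by
    have h4 := Real.add_one_le_exp (-(12 / 1000) : ℝ)
    rw [Real.exp_neg] at h4
    have h5 : (1 - 12 / 1000 : ℝ) ≤ (Real.exp (12 / 1000))⁻¹ := by linarith
    rw [le_inv_comm₀ (by norm_num) (Real.exp_pos _)] at h5
    rw [one_div]
    exact h5
  have h4 : 1 / (d : ℝ) ≤ 1 / 5 := one_div_le_one_div_of_le (by norm_num) hd
  calc (1 + 1 / (d : ℝ)) * (1 + 1 / d + τ) ^ d
      ≤ (1 + 1 / 5) * (Real.exp 1 * Real.exp (12 / 1000)) := by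
        apply mul_le_mul (by linarith) h2 (by positivity) (by norm_num)
    _ ≤ (1 + 1 / 5) * (2.7182818286 * (1 / (1 - 12 / 1000))) := by
        apply mul_le_mul_of_nonneg_left _ (by norm_num)
        exact mul_le_mul Real.exp_one_lt_d9.le h3 (Real.exp_pos _).le (by norm_num)
    _ ≤ 3.31 := by norm_num

/-- Bodies with small thickness. -/
theorem thin (hT : Tight K o R L lam) (hL : 0 ≤ L) (hLd : 5 * (L + 1) ≤ d)
    (hlam : 1 - 1 / (5 * d) ≤ lam) (hth : 3600 * (L + 4) ^ 4 * thick K o < 1) : False := by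
  have hK := hT.body
  have hV := vol_pos hK
  have hRc : (0 : ℝ) < R.card := by exact_mod_cast hT.nonempty.card_pos
  have hd5 : (5 : ℝ) ≤ d := by linarith
  have hd0 : (0 : ℝ) < d := by linarith
  have hd1 : 1 ≤ d := by
    have : (1 : ℝ) ≤ d := by linarith
    exact_mod_cast this
  have hlam2 := num_lam hd5 hlam
  rw [thick_eq] at hth
  set T : ℝ := Mn K o fun u => sg K o u with hTdef
  have hT0 : 0 ≤ T := M_nonneg hK fun u _ => sg_nonneg hK u
  -- the exit volumes
  set t : ℝ := (2 * L + 5) / d with ht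
  have ht0 : 0 < t := by positivity
  have ht1 : t ≤ 1 := by
    rw [ht, div_le_one hd0]
    linarith
  have hst : (1 + 1 / lam) * (L + 2.4) / d < t := by
    rw [ht]
    apply div_lt_div_of_pos_right _ hd0
    have h1 : (1 + 1 / lam) * (L + 2.4) ≤ (2 + 1 / (4 * d)) * (L + 2.4) := by
      apply mul_le_mul_of_nonneg_right _ (by linarith)
      linarith
    refine h1.trans_lt ?_
    have h2 : (2 + 1 / (4 * (d : ℝ))) * (L + 2.4) = 2 * (L + 2.4) + (L + 2.4) / (4 * d) := by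
      field_simp
    rw [h2]
    have h3 : (L + 2.4) / (4 * (d : ℝ)) ≤ 3 / 25 := by
      rw [div_le_iff₀ (by positivity)]
      linarith
    linarith
  have hex := exit_avg hT (s := L + 2.4) (t := t) (by linarith) (by linarith) ht1 hst
  have e1 : (L - (L + 2.4)) / 2 = -12 / 10 := by ring
  rw [e1] at hex
  -- upper bound for the exit volumes
  obtain ⟨k, hk⟩ := exists_nat_ge (100 * (2 * L + 5))
  have hk0 : (0 : ℝ) < k := by linarith
  have hk1 : 1 ≤ k := by
    have : (1 : ℝ) ≤ k := by linarith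
    exact_mod_cast this
  set τ : ℝ := t / k * (1 + 1 / d) with hτ
  have hτ0 : 0 < τ := by positivity
  have hτd : τ * d ≤ 12 / 1000 := by
    have h1 : τ * d = (2 * L + 5) * (1 + 1 / d) / k := by
      rw [hτ, ht]
      field_simp
    rw [h1, div_le_iff₀ hk0]
    have h4 : 1 / (d : ℝ) ≤ 1 / 5 := one_div_le_one_div_of_le (by norm_num) hd5
    have h5 : (2 * L + 5) * (1 + 1 / d) ≤ (2 * L + 5) * (1 + 1 / 5) :=
      mul_le_mul_of_nonneg_left (by linarith) (by linarith)
    linarith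
  have hup : ∀ x ∈ R, volume.real {u | u ∈ pol K o ∧ u + t • x ∉ pol K o} ≤
      (2 * L + 5) * 3.31 * ∫ u in pol K o, max (gD K o u x) 0 := by
    intro x hx
    have h1 : {u | u ∈ pol K o ∧ u + t • x ∉ pol K o} =
        {u | hs K o u ≤ 1 ∧ 1 < hs K o (u + t • x)} := by
      ext u
      simp only [mem_ofPred_eq, mem_pol hK, not_le]
    rw [h1]
    change XV K o x t ≤ _
    have h2 := XV_div hK x t hk1
    have h3 := XV_le hK hd1 (hT.mem x hx) hτ0
    have h4 : τ / (1 + 1 / d) = t / k := by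
      rw [hτ]
      exact mul_div_cancel_right₀ _ (by positivity)
    rw [h4] at h3
    have hI0 : 0 ≤ ∫ u in pol K o, max (gD K o u x) 0 :=
      integral_nonneg fun u => le_max_right _ _
    have h5 := num_pow hd5 hτ0.le hτd
    calc XV K o x t ≤ k * XV K o x (t / k) := h2
      _ ≤ k * (d * τ * (1 + 1 / d + τ) ^ d * ∫ u in pol K o, max (gD K o u x) 0) :=
        mul_le_mul_of_nonneg_left h3 hk0.le
      _ = (2 * L + 5) * ((1 + 1 / d) * (1 + 1 / d + τ) ^ d) *
          ∫ u in pol K o, max (gD K o u x) 0 := by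
          have h6 : (k : ℝ) * (d * τ) = (2 * L + 5) * (1 + 1 / d) := by
            rw [hτ, ht]
            field_simp
          calc (k : ℝ) * (d * τ * (1 + 1 / d + τ) ^ d * ∫ u in pol K o, max (gD K o u x) 0)
              = (k * (d * τ)) * (1 + 1 / d + τ) ^ d * ∫ u in pol K o, max (gD K o u x) 0 := by ring
            _ = _ := by rw [h6]; ring
      _ ≤ (2 * L + 5) * 3.31 * ∫ u in pol K o, max (gD K o u x) 0 := by
          apply mul_le_mul_of_nonneg_right _ hI0
          exact mul_le_mul_of_nonneg_left h5 (by linarith)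
  have hsum := hex.trans (Finset.sum_le_sum hup)
  rw [← Finset.mul_sum] at hsum
  -- exchange sum and integral
  have hBg : ∀ x, Bd K o fun u => max (gD K o u x) 0 := by
    intro x
    obtain ⟨C, hC, h⟩ := gD_bound hK
    refine ⟨(measurable_gD_left x).max measurable_const, C * ‖x‖, fun u _ => ?_⟩
    rw [abs_of_nonneg (le_max_right _ _)]
    exact max_le ((le_abs_self _).trans (h u x)) (by positivity)
  have h9 : ∑ x ∈ R, ∫ u in pol K o, max (gD K o u x) 0 =
      volume.real (pol K o) * Mn K o fun u => ∑ x ∈ R, max (gD K o u x) 0 := by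
    rw [M_sum hK R fun x _ => hBg x, Finset.mul_sum]
    refine Finset.sum_congr rfl fun x _ => ?_
    unfold Mn
    rw [← mul_assoc, mul_inv_cancel₀ hV.ne', one_mul]
  have h10 : (Mn K o fun u => ∑ x ∈ R, max (gD K o u x) 0) ≤
      (5.9 * L + 32) * Real.sqrt T * R.card := by
    have h11 : (Mn K o fun u => ∑ x ∈ R, max (gD K o u x) 0) ≤
        Mn K o fun u => ((5.9 * L + 32) * R.card) * Real.sqrt (sg K o u) := by
      refine M_mono_ae hK (Bd.sum R fun x _ => hBg x) ((Bd.const _).mul (Bd_sg hK).sqrt) ?_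
      filter_upwards [ae_diff hK] with u hu _
      obtain ⟨x₀, hx₀, _, hg⟩ := exists_face hK hu
      have h12 := tail_sum hT hL hx₀ (S := sg K o u) (by
        rw [Mn_eq]
        unfold sg
        simp only [hg]
        exact le_rfl)
      simp only [hg]
      linarith
    refine h11.trans ?_
    rw [M_mul_left]
    have h12 := M_sqrt_le hK (Bd_sg hK) fun u _ => sg_nonneg hK u
    have h13 : 0 ≤ (5.9 * L + 32) * (R.card : ℝ) := by positivity
    have h14 := mul_le_mul_of_nonneg_left h12 h13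
    linarith
  rw [h9] at hsum
  -- the contradiction
  have h15 : (2 * L + 5) * 3.31 *
      (volume.real (pol K o) * Mn K o fun u => ∑ x ∈ R, max (gD K o u x) 0) ≤
      (2 * L + 5) * 3.31 * (volume.real (pol K o) * ((5.9 * L + 32) * Real.sqrt T * R.card)) := by
    apply mul_le_mul_of_nonneg_left _ (by linarith)
    exact mul_le_mul_of_nonneg_left h10 hV.le
  have h16 := hsum.trans h15
  have h17 : (R.card : ℝ) * (1 - Real.exp (-12 / 10)) * volume.real (pol K o) =
      (1 - Real.exp (-12 / 10)) * (R.card * volume.real (pol K o)) := by ring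
  have h18 : (2 * L + 5) * 3.31 *
      (volume.real (pol K o) * ((5.9 * L + 32) * Real.sqrt T * R.card)) =
      ((2 * L + 5) * 3.31 * (5.9 * L + 32) * Real.sqrt T) * (R.card * volume.real (pol K o)) := by
    ring
  rw [h17, h18] at h16
  have h19 := le_of_mul_le_mul_right h16 (mul_pos hRc hV)
  have h20 : 0.69 ≤ 1 - Real.exp (-12 / 10) := by
    have := num_exp2
    norm_num at this ⊢
    linarith
  have h21 : (2 * L + 5) * 3.31 * (5.9 * L + 32) ≤ 0.69 * (60 * (L + 4) ^ 2) := by nlinarith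
  have h22 : 0.69 ≤ 0.69 * (60 * (L + 4) ^ 2) * Real.sqrt T :=
    (h20.trans h19).trans (mul_le_mul_of_nonneg_right h21 (Real.sqrt_nonneg _))
  have h23 : 1 ≤ 60 * (L + 4) ^ 2 * Real.sqrt T := by linarith
  have h24 : (1 : ℝ) ≤ (60 * (L + 4) ^ 2 * Real.sqrt T) ^ 2 := one_le_pow₀ h23
  rw [mul_pow, Real.sq_sqrt hT0] at h24
  have h25 : (60 * (L + 4) ^ 2) ^ 2 * T = 3600 * (L + 4) ^ 4 * T := by ring
  linarith

end Pool.Agent.Lib.MP_5e7226_co.NF
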