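import Pool.Agent.Lib.MP_5e7226_co.NF.D1
import Pool.Agent.Lib.MP_5e7226_co.TH.L1

/-!
# NF, G1: an invariant ellipsoid with small semi-axes
-/

set_option autoImplicit false
set_option linter.unusedSectionVars false

open MeasureTheory Set Module
open scoped Pointwise InnerProductSpace

namespace Pool.Agent.Lib.MP_5e7226_co.NF

variable {d : ℕ}

/-- tuples of vectors, a Hilbert space -/
abbrev HH (d : ℕ) := PiLp 2 (fun _ : Fin d => V d)

/-- the standard basis -/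
noncomputable abbrev bs (d : ℕ) : OrthonormalBasis (Fin d) ℝ (V d) :=
  EuclideanSpace.basisFun (Fin d) ℝ

/-- the operator with the columns `g i` -/
noncomputable def op (g : HH d) : V d →ₗ[ℝ] V d :=
  (bs d).toBasis.constr ℝ (fun i => g i)

lemma op_apply (g : HH d) (w : V d) : op g w = ∑ i, w i • g i := by
  unfold op
  rw [Basis.constr_apply_fintype]
  refine Finset.sum_congr rfl fun i _ => ?_
  congr 1

lemma op_basis (g : HH d) (i : Fin d) : op g (bs d i) = g i := by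
  unfold op
  have := (bs d).toBasis.constr_basis ℝ (fun i => g i) i
  rwa [OrthonormalBasis.coe_toBasis] at this

lemma op_comb (a b : ℝ) (g g' : HH d) (w : V d) :
    op (a • g + b • g') w = a • op g w + b • op g' w := by
  rw [op_apply, op_apply, op_apply, Finset.smul_sum, Finset.smul_sum, ← Finset.sum_add_distrib]
  refine Finset.sum_congr rfl fun i _ => ?_
  have : (a • g + b • g') i = a • g i + b • g' i := rfl
  rw [this, smul_add, smul_comm (w i) a, smul_comm (w i) b]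

lemma continuous_op (u w : V d) : Continuous fun g : HH d => ⟪u, op g w⟫_ℝ := by
  simp only [op_apply]
  fun_prop

lemma op_ext {g g' : HH d} (h : ∀ w, op g w = op g' w) : g = g' := by
  ext i : 1
  have := h (bs d i)
  rwa [op_basis, op_basis] at this

/-- The closed convex set of the symmetric operators `G` such that `⟪w, x⟫² ≤ ⟪w, G w⟫` for
`x ∈ X`, with trace at most `Q`. -/
def CC (X : Set (V d)) (Q : ℝ) : Set (HH d) :=
  {g | (∀ u w, ⟪u, op g w⟫_ℝ = ⟪w, op g u⟫_ℝ) ∧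
    (∀ x ∈ X, ∀ w, ⟪w, x⟫_ℝ ^ 2 ≤ ⟪w, op g w⟫_ℝ) ∧ ∑ i, ⟪bs d i, op g (bs d i)⟫_ℝ ≤ Q}

lemma isClosed_CC (X : Set (V d)) (Q : ℝ) : IsClosed (CC X Q) := by
  have e : CC X Q = (⋂ u, ⋂ w, {g : HH d | ⟪u, op g w⟫_ℝ = ⟪w, op g u⟫_ℝ}) ∩
      ((⋂ x ∈ X, ⋂ w, {g : HH d | ⟪w, x⟫_ℝ ^ 2 ≤ ⟪w, op g w⟫_ℝ}) ∩
        {g : HH d | ∑ i, ⟪bs d i, op g (bs d i)⟫_ℝ ≤ Q}) := by
    ext g
    simp only [CC, mem_ofPred_eq, mem_inter_iff, mem_iInter]
  rw [e]
  refine IsClosed.inter ?_ (IsClosed.inter ?_ ?_)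
  · exact isClosed_iInter fun u => isClosed_iInter fun w =>
      isClosed_eq (continuous_op u w) (continuous_op w u)
  · exact isClosed_biInter fun x _ => isClosed_iInter fun w =>
      isClosed_le continuous_const (continuous_op w w)
  · exact isClosed_le (continuous_finsetSum _ fun i _ => continuous_op _ _) continuous_const

lemma convex_CC (X : Set (V d)) (Q : ℝ) : Convex ℝ (CC X Q) := by
  intro g hg g' hg' a b ha hb hab
  obtain ⟨h1, h2, h3⟩ := hg
  obtain ⟨h1', h2', h3'⟩ := hg'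
  refine ⟨fun u w => ?_, fun x hx w => ?_, ?_⟩
  · rw [op_comb, op_comb, inner_add_right, inner_add_right, inner_smul_right, inner_smul_right,
      inner_smul_right, inner_smul_right, h1, h1']
  · rw [op_comb, inner_add_right, inner_smul_right, inner_smul_right]
    have e1 := mul_le_mul_of_nonneg_left (h2 x hx w) ha
    have e2 := mul_le_mul_of_nonneg_left (h2' x hx w) hb
    calc ⟪w, x⟫_ℝ ^ 2 = (a + b) * ⟪w, x⟫_ℝ ^ 2 := by rw [hab, one_mul]
      _ = a * ⟪w, x⟫_ℝ ^ 2 + b * ⟪w, x⟫_ℝ ^ 2 := by ring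
      _ ≤ _ := add_le_add e1 e2
  · simp only [op_comb, inner_add_right, inner_smul_right]
    rw [Finset.sum_add_distrib, ← Finset.mul_sum, ← Finset.mul_sum]
    have e1 := mul_le_mul_of_nonneg_left h3 ha
    have e2 := mul_le_mul_of_nonneg_left h3' hb
    have e3 : a * Q + b * Q = Q := by rw [← add_mul, hab, one_mul]
    linarith

/-- The Hilbert-Schmidt norm. -/
lemma norm_HH (g : HH d) : ‖g‖ ^ 2 = ∑ i, ‖op g (bs d i)‖ ^ 2 := by
  rw [PiLp.norm_sq_eq_of_L2]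
  exact Finset.sum_congr rfl fun i _ => by rw [op_basis]

lemma hs_norm {g : HH d} (hg : ∀ u w, ⟪u, op g w⟫_ℝ = ⟪w, op g u⟫_ℝ)
    (b : OrthonormalBasis (Fin d) ℝ (V d)) : ∑ i, ‖op g (b i)‖ ^ 2 = ‖g‖ ^ 2 := by
  rw [norm_HH]
  calc ∑ i, ‖op g (b i)‖ ^ 2 = ∑ i, ∑ j, ⟪bs d j, op g (b i)⟫_ℝ ^ 2 :=
        Finset.sum_congr rfl fun i _ => ((bs d).sum_sq_inner_right _).symm
    _ = ∑ j, ∑ i, ⟪bs d j, op g (b i)⟫_ℝ ^ 2 := Finset.sum_comm
    _ = ∑ j, ∑ i, ⟪b i, op g (bs d j)⟫_ℝ ^ 2 := by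
        refine Finset.sum_congr rfl fun j _ => Finset.sum_congr rfl fun i _ => ?_
        rw [hg]
    _ = ∑ j, ‖op g (bs d j)‖ ^ 2 :=
        Finset.sum_congr rfl fun j _ => b.sum_sq_inner_right _

/-- The conjugate of `g` by `γ`. -/
noncomputable def conj (γ : V d ≃ₗᵢ[ℝ] V d) (g : HH d) : HH d :=
  WithLp.toLp 2 fun i => γ (op g (γ.symm (bs d i)))

lemma op_conj (γ : V d ≃ₗᵢ[ℝ] V d) (g : HH d) (w : V d) :
    op (conj γ g) w = γ (op g (γ.symm w)) := by
  have h1 : op (conj γ g) = γ.toLinearEquiv.toLinearMap ∘ₗ op g ∘ₗ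
      γ.symm.toLinearEquiv.toLinearMap := by
    refine (bs d).toBasis.ext fun i => ?_
    rw [OrthonormalBasis.coe_toBasis, op_basis]
    rfl
  rw [h1]
  rfl

lemma conj_mem {X : Set (V d)} {Q : ℝ} {γ : V d ≃ₗᵢ[ℝ] V d} (hγ : ∀ x, x ∈ X ↔ γ x ∈ X)
    {g : HH d} (hg : g ∈ CC X Q) : conj γ g ∈ CC X Q ∧ ‖conj γ g‖ = ‖g‖ := by
  obtain ⟨h1, h2, h3⟩ := hg
  have hin : ∀ u w : V d, ⟪u, γ w⟫_ℝ = ⟪γ.symm u, w⟫_ℝ := by
    intro u w
    rw [← γ.inner_map_map (γ.symm u) w, γ.apply_symm_apply]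
  refine ⟨⟨fun u w => ?_, fun x hx w => ?_, ?_⟩, ?_⟩
  · rw [op_conj, op_conj, hin, hin]
    exact h1 _ _
  · rw [op_conj, hin]
    have hx' : γ.symm x ∈ X := by
      rw [hγ, γ.apply_symm_apply]
      exact hx
    have e := h2 _ hx' (γ.symm w)
    rwa [γ.symm.inner_map_map] at e
  · have e1 : ∑ i, ⟪bs d i, op (conj γ g) (bs d i)⟫_ℝ =
        ∑ i, ⟪(bs d).map γ.symm i, op g ((bs d).map γ.symm i)⟫_ℝ := by
      refine Finset.sum_congr rfl fun i _ => ?_
      rw [op_conj, hin]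
      rfl
    rw [e1, ← LinearMap.trace_eq_sum_inner, LinearMap.trace_eq_sum_inner _ (bs d)]
    exact h3
  · have e1 : ‖conj γ g‖ ^ 2 = ‖g‖ ^ 2 := by
      rw [← hs_norm h1 ((bs d).map γ.symm), norm_HH]
      refine Finset.sum_congr rfl fun i _ => ?_
      rw [op_conj, γ.norm_map]
      rfl
    exact (pow_left_inj₀ (norm_nonneg _) (norm_nonneg _) two_ne_zero).1 e1

/-- If the set `X` lies in an ellipsoid and has enough symmetries then it is small. -/
theorem inv_bound [Nontrivial (V d)] {X : Set (V d)} (A : V d →ₗ[ℝ] V d)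
    (hA : ∀ x ∈ X, ∀ w, ⟪w, x⟫_ℝ ≤ ‖A w‖) {Q : ℝ} (hQ : ∑ i, ‖A (bs d i)‖ ^ 2 ≤ Q) {r : ℕ}
    (hr : ∀ W : Submodule ℝ (V d), W ≠ ⊥ →
      (∀ γ : V d ≃ₗᵢ[ℝ] V d, (∀ x, x ∈ X ↔ γ x ∈ X) → ∀ a ∈ W, γ a ∈ W) → r ≤ finrank ℝ W) :
    ∀ x ∈ X, r * ‖x‖ ^ 2 ≤ Q := by
  classical
  intro x hx
  -- the set is not empty
  have hne : (CC X Q).Nonempty := by
    set T : V d →ₗ[ℝ] V d := LinearMap.adjoint A ∘ₗ A with hT
    have hTi : ∀ u w, ⟪u, T w⟫_ℝ = ⟪A u, A w⟫_ℝ := by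
      intro u w
      rw [hT, LinearMap.comp_apply, LinearMap.adjoint_inner_right]
    have hop : ∀ w, op (WithLp.toLp 2 fun i => T (bs d i) : HH d) w = T w := by
      intro w
      have h1 : op (WithLp.toLp 2 fun i => T (bs d i) : HH d) = T := by
        refine (bs d).toBasis.ext fun i => ?_
        rw [OrthonormalBasis.coe_toBasis, op_basis]
      rw [h1]
    refine ⟨WithLp.toLp 2 fun i => T (bs d i), fun u w => ?_, fun y hy w => ?_, ?_⟩
    · rw [hop, hop, hTi, hTi, real_inner_comm]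
    · rw [hop, hTi, real_inner_self_eq_norm_sq]
      have h1 := hA y hy w
      have h2 := hA y hy (-w)
      rw [inner_neg_left, map_neg, norm_neg] at h2
      exact sq_le_sq' (by linarith) h1
    · simp only [hop, hTi, real_inner_self_eq_norm_sq]
      exact hQ
  -- the element of least norm
  obtain ⟨g, hg, hmin⟩ := exists_norm_eq_iInf_of_complete_convex hne
    (isClosed_CC X Q).isComplete (convex_CC X Q) 0
  rw [norm_eq_iInf_iff_real_inner_le_zero (convex_CC X Q) hg] at hmin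
  have hinv : ∀ γ : V d ≃ₗᵢ[ℝ] V d, (∀ x, x ∈ X ↔ γ x ∈ X) → conj γ g = g := by
    intro γ hγ
    obtain ⟨h1, h2⟩ := conj_mem hγ hg
    have h3 := hmin _ h1
    rw [zero_sub, inner_neg_left, inner_sub_right, real_inner_self_eq_norm_sq] at h3
    have h4 : ‖conj γ g - g‖ ^ 2 ≤ 0 := by
      rw [@norm_sub_sq_real, h2, real_inner_comm]
      linarith
    have h5 : ‖conj γ g - g‖ = 0 := by
      have := sq_nonneg ‖conj γ g - g‖
      exact pow_eq_zero_iff two_ne_zero |>.1 (le_antisymm h4 this)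
    exact sub_eq_zero.1 (norm_eq_zero.1 h5)
  obtain ⟨h1, h2, h3⟩ := hg
  -- the form
  let B : V d →ₗ[ℝ] V d →ₗ[ℝ] ℝ := LinearMap.mk₂ ℝ (fun a b => ⟪a, op g b⟫_ℝ)
    (fun a a' b => inner_add_left _ _ _) (fun c a b => by
      rw [inner_smul_left, conj_trivial, smul_eq_mul])
    (fun a b b' => by rw [map_add, inner_add_right]) (fun c a b => by
      rw [map_smul, inner_smul_right, smul_eq_mul])
  have hBa : ∀ a b, B a b = ⟪a, op g b⟫_ℝ := fun a b => rfl
  have hB0 : ∀ a, 0 ≤ B a a := fun a => (sq_nonneg _).trans (h2 x hx a)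
  obtain ⟨κ, hκ0, hκ1, hκ2⟩ := Pool.Agent.Lib.MP_5e7226_co.TH.exists_kappa B hB0 (T := Q)
    (by
      intro n f hf
      have hinj : Function.Injective f := hf.linearIndependent.injective
      have hf' : Orthonormal ℝ ((↑) : (Set.range f) → V d) := hf.toSubtypeRange
      obtain ⟨u, b, hsub, hb⟩ := hf'.exists_orthonormalBasis_extension
      have htr : ∑ y ∈ u, ⟪y, op g y⟫_ℝ ≤ Q := by
        have e1 : ∑ y ∈ u, ⟪y, op g y⟫_ℝ = ∑ i : u, ⟪b i, op g (b i)⟫_ℝ := by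
          rw [hb, ← Finset.sum_coe_sort u]
        rw [e1, ← LinearMap.trace_eq_sum_inner, LinearMap.trace_eq_sum_inner _ (bs d)]
        exact h3
      refine le_trans ?_ htr
      have e2 : ∑ j, B (f j) (f j) = ∑ y ∈ Finset.univ.image f, ⟪y, op g y⟫_ℝ := by
        rw [Finset.sum_image fun i _ j _ h => hinj h]
        rfl
      rw [e2]
      refine Finset.sum_le_sum_of_subset_of_nonneg ?_ fun y _ _ => hB0 y
      intro y hy
      obtain ⟨i, _, rfl⟩ := Finset.mem_image.1 hy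
      exact hsub ⟨i, rfl⟩)
    {φ | ∃ γ : V d ≃ₗᵢ[ℝ] V d, (∀ x, x ∈ X ↔ γ x ∈ X) ∧ ∀ a, φ a = γ a}
    (by
      rintro φ ⟨γ, hγ, hφ⟩ a
      rw [hφ]
      refine ⟨γ.norm_map a, ?_⟩
      have e1 := hinv γ hγ
      have e2 : op g (γ a) = γ (op g a) := by
        have e3 := op_conj γ g (γ a)
        rw [e1, γ.symm_apply_apply] at e3
        exact e3
      rw [hBa, hBa, e2, γ.inner_map_map])
    (by
      intro W hW hWinv
      refine hr W hW fun γ hγ a ha => ?_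
      exact hWinv γ.toLinearEquiv.toLinearMap ⟨γ, hγ, fun a => rfl⟩ a ha)
  have e1 := (h2 x hx x).trans (hκ1 x)
  rw [real_inner_self_eq_norm_sq] at e1
  have hr0 : (0 : ℝ) ≤ r := Nat.cast_nonneg r
  rcases (norm_nonneg x).eq_or_lt with h0 | h0
  · rw [← h0]
    have := mul_nonneg hκ0 hr0
    have h5 : (r : ℝ) * 0 ^ 2 = 0 := by ring
    rw [h5]
    linarith
  · have e2 : ‖x‖ ^ 2 ≤ κ := by
      have h5 : 0 < ‖x‖ ^ 2 := by positivity
      have h6 : ‖x‖ ^ 2 * ‖x‖ ^ 2 ≤ κ * ‖x‖ ^ 2 := by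
        rw [← sq]
        exact e1
      exact le_of_mul_le_mul_right h6 h5
    have e3 := mul_le_mul_of_nonneg_left e2 hr0
    linarith

end Pool.Agent.Lib.MP_5e7226_co.NF
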