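import Pool.Agent.Lib.MP_5e7226_co.NF.G1

/-!
# NF, G2: bodies with many symmetries
-/

set_option autoImplicit false
set_option linter.unusedSectionVars false

open MeasureTheory Set Module
open scoped Pointwise InnerProductSpace
open Pool.Agent.Lib.MP_5e7226_co.AB (pol ind)

namespace Pool.Agent.Lib.MP_5e7226_co.NF

/-- A positive definite form is the inner product in suitable coordinates. -/
lemma exists_coords {W : Type} [AddCommGroup W] [Module ℝ W] [FiniteDimensional ℝ W] {n : ℕ}
    (hn : finrank ℝ W = n) (P : W →ₗ[ℝ] W →ₗ[ℝ] ℝ) (hPs : ∀ a b, P a b = P b a)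
    (hPp : ∀ a, a ≠ 0 → 0 < P a a) :
    ∃ Φ : W ≃ₗ[ℝ] EuclideanSpace ℝ (Fin n), ∀ a b, ⟪Φ a, Φ b⟫_ℝ = P a b := by
  let c : InnerProductSpace.Core ℝ W :=
    { inner := fun a b => P a b
      conj_inner_symm := fun a b => hPs b a
      re_inner_nonneg := fun a => by
        by_cases h : a = 0
        · rw [h]
          simp
        · exact (hPp a h).le
      add_left := fun a b d => by
        change P (a + b) d = P a d + P b d
        rw [map_add, LinearMap.add_apply]
      smul_left := fun a b r => by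
        change P (r • a) b = r * P a b
        rw [map_smul, LinearMap.smul_apply, smul_eq_mul]
      definite := fun a h => by
        by_contra h0
        exact absurd h (hPp a h0).ne' }
  let _ : NormedAddCommGroup W := @InnerProductSpace.Core.toNormedAddCommGroup ℝ W _ _ _ c
  let _ : InnerProductSpace ℝ W := InnerProductSpace.ofCore c.toCore
  have hin : ∀ a b : W, inner ℝ a b = P a b := fun a b => rfl
  let b : OrthonormalBasis (Fin n) ℝ W := (stdOrthonormalBasis ℝ W).reindex (finCongr hn)
  refine ⟨b.repr.toLinearEquiv, fun x y => ?_⟩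
  rw [← hin]
  exact b.repr.inner_map_map x y

variable {d : ℕ} {K : Set (V d)} {o : V d}

/-- the second moment form -/
noncomputable def mf (K : Set (V d)) (o a b : V d) : ℝ := Mn K o fun v => ⟪v, a⟫_ℝ * ⟪v, b⟫_ℝ

lemma Bd_in (hK : Body K o) (a : V d) : Bd K o fun v => ⟪v, a⟫_ℝ :=
  Bd.cont hK (by fun_prop)

lemma exists_mf_form (hK : Body K o) : ∃ P : V d →ₗ[ℝ] V d →ₗ[ℝ] ℝ, ∀ a b, P a b = mf K o a b := by
  refine ⟨LinearMap.mk₂ ℝ (fun f g => mf K o f g) ?_ ?_ ?_ ?_, fun f g => rfl⟩
  · intro f f' g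
    unfold mf
    rw [← M_add hK ((Bd_in hK f).mul (Bd_in hK g)) ((Bd_in hK f').mul (Bd_in hK g))]
    congr 1
    funext v
    rw [inner_add_right]
    ring
  · intro c f g
    unfold mf
    rw [smul_eq_mul, ← M_mul_left]
    congr 1
    funext v
    rw [inner_smul_right]
    ring
  · intro f g g'
    unfold mf
    rw [← M_add hK ((Bd_in hK f).mul (Bd_in hK g)) ((Bd_in hK f).mul (Bd_in hK g'))]
    congr 1
    funext v
    rw [inner_add_right]
    ring
  · intro c f g
    unfold mf
    rw [smul_eq_mul, ← M_mul_left]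
    congr 1
    funext v
    rw [inner_smul_right]
    ring

lemma mf_symm (a b : V d) : mf K o a b = mf K o b a := by
  unfold mf
  congr 1
  funext v
  ring

lemma mf_self (a : V d) : mf K o a a = ⨍ v in pol K o, ⟪v, a⟫_ℝ ^ 2 := by
  rw [Mn_eq]
  unfold mf
  congr 1
  funext v
  ring

lemma mf_pos (hK : Body K o) {a : V d} (ha : a ≠ 0) : 0 < mf K o a a := by
  have hV := vol_pos hK
  obtain ⟨R, hR, _, hR2⟩ := exists_bound hK
  -- a point of `P` with large value
  have hna : 0 < ‖a‖ := norm_pos_iff.2 ha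
  set w : V d := (2 * R * ‖a‖)⁻¹ • a with hw
  have hw1 : hs K o w < 1 := by
    refine (hR2 w).trans_lt ?_
    rw [hw, norm_smul, norm_inv, Real.norm_of_nonneg (by positivity)]
    have : R * ((2 * R * ‖a‖)⁻¹ * ‖a‖) = 1 / 2 := by
      field_simp
    rw [this]
    norm_num
  have hwa : 0 < ⟪w, a⟫_ℝ := by
    rw [hw, inner_smul_left, conj_trivial, real_inner_self_eq_norm_sq]
    positivity
  set U : Set (V d) := {u | hs K o u < 1 ∧ ⟪w, a⟫_ℝ / 2 < ⟪u, a⟫_ℝ} with hU
  have hca : Continuous fun u : V d => ⟪u, a⟫_ℝ := by fun_prop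
  have hUo : IsOpen U :=
    (isOpen_lt (continuous_hs hK) continuous_const).inter (isOpen_lt continuous_const hca)
  have hUne : U.Nonempty := ⟨w, hw1, by linarith⟩
  have hUm : MeasurableSet U := hUo.measurableSet
  have h1 : Mn K o (fun u => (⟪w, a⟫_ℝ / 2) ^ 2 * U.indicator (fun _ => (1 : ℝ)) u) ≤
      mf K o a a := by
    refine M_mono hK ((Bd.const _).mul (Bd.indicator hUm)) ((Bd_in hK a).mul (Bd_in hK a))
      fun u _ => ?_
    by_cases hu : u ∈ U
    · rw [indicator_of_mem hu, mul_one, sq]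
      have h2 := hu.2
      exact mul_le_mul h2.le h2.le (by positivity) (by linarith)
    · rw [indicator_of_notMem hu, mul_zero]
      exact mul_self_nonneg _
  refine lt_of_lt_of_le ?_ h1
  rw [M_mul_left, M_indicator hUm]
  have h2 : {u | u ∈ pol K o ∧ u ∈ U} = U := by
    ext u
    exact ⟨fun h => h.2, fun h => ⟨(mem_pol hK).2 h.1.le, h⟩⟩
  rw [h2]
  have h3 : 0 < volume.real U := by
    refine ENNReal.toReal_pos (hUo.measure_pos volume hUne).ne' ?_
    refine ne_top_of_le_ne_top (pol_ne_top hK) (measure_mono ?_)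
    intro u hu
    exact (mem_pol hK).2 hu.1.le
  positivity

/-- Linear maps preserving `P` preserve the mean. -/
lemma M_map (hK : Body K o) {T : V d →ₗ[ℝ] V d} (hTb : Function.Bijective T)
    (hT : ∀ v, T v ∈ pol K o ↔ v ∈ pol K o) (F : V d → ℝ) :
    Mn K o (fun v => F (T v)) = Mn K o F := by
  let e : V d ≃ₗ[ℝ] V d := LinearEquiv.ofBijective T hTb
  have he : ∀ u, e u = T u := fun u => rfl
  have hpre : T ⁻¹' pol K o = pol K o := by
    ext u
    exact hT u
  have hemb : MeasurableEmbedding T := by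
    have h1 : MeasurableEmbedding e.toContinuousLinearEquiv :=
      e.toContinuousLinearEquiv.toHomeomorph.measurableEmbedding
    exact h1
  have hdet : LinearMap.det T ≠ 0 := by
    have h1 := e.isUnit_det'
    exact h1.ne_zero
  have hmap := Measure.map_linearMap_addHaar_eq_smul_addHaar (volume : Measure (V d)) hdet
  have hpos : volume (pol K o) ≠ 0 := AB.pol_volume hK.comp o
  have hfin := pol_ne_top hK
  have h1 : ENNReal.ofReal |(LinearMap.det T)⁻¹| = 1 := by
    have h2 := congrArg (fun ν : Measure (V d) => ν (pol K o)) hmap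
    simp only [hemb.map_apply, hpre, Measure.smul_apply, smul_eq_mul] at h2
    have h3 : 1 * volume (pol K o) =
        ENNReal.ofReal |(LinearMap.det T)⁻¹| * volume (pol K o) := by
      rw [one_mul]
      exact h2
    exact ((ENNReal.mul_left_inj hpos hfin).mp h3).symm
  rw [h1, one_smul] at hmap
  have hmp : MeasurePreserving T volume volume := ⟨hemb.measurable, hmap⟩
  unfold Mn
  congr 1
  have h4 := hmp.setIntegral_preimage_emb hemb F (pol K o)
  rw [hpre] at h4
  exact h4

/-- Every nonzero linear subspace which is invariant under all linear symmetries of `K - o` has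
dimension at least `r`. -/
def InvDim (K : Set (V d)) (o : V d) (r : ℕ) : Prop :=
  ∀ W : Submodule ℝ (V d), W ≠ ⊥ →
    (∀ g : V d ≃ₗ[ℝ] V d, (∀ x, o + x ∈ K ↔ o + g x ∈ K) → ∀ v ∈ W, g v ∈ W) → r ≤ finrank ℝ W

/-- Many symmetries: the second moments are small if `K - o` lies in a small ellipsoid. -/
theorem sym_bound (hd : 1 ≤ d) (hK : Body K o) {r : ℕ} (hr : InvDim K o r)
    (A : V d →ₗ[ℝ] V d) (hA : ∀ x ∈ K, ∀ v, ⟪v, x - o⟫_ℝ ≤ ‖A v‖) {Q : ℝ}
    (hQ : ⨍ v in pol K o, ‖A v‖ ^ 2 ≤ Q) :
    ∀ x ∈ K, r * ⨍ v in pol K o, ⟪v, x - o⟫_ℝ ^ 2 ≤ Q := by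
  classical
  obtain ⟨P, hP⟩ := exists_mf_form hK
  obtain ⟨Φ, hΦ⟩ := exists_coords (W := V d) (n := d) finrank_euclideanSpace_fin P
    (fun a b => by rw [hP, hP, mf_symm]) (fun a ha => by rw [hP]; exact mf_pos hK ha)
  have hΦ' : ∀ a b, ⟪Φ a, Φ b⟫_ℝ = mf K o a b := fun a b => by rw [hΦ, hP]
  have hnt : Nontrivial (V d) := by
    have : Nonempty (Fin d) := ⟨⟨0, by omega⟩⟩
    infer_instance
  set Φt : V d →ₗ[ℝ] V d := LinearMap.adjoint Φ.toLinearMap with hΦt
  have hadj : ∀ w a, ⟪Φt w, a⟫_ℝ = ⟪w, Φ a⟫_ℝ := fun w a => by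
    rw [hΦt, LinearMap.adjoint_inner_left]
    rfl
  set X : Set (V d) := {y | ∃ x ∈ K, y = Φ (x - o)} with hX
  -- the trace
  have htr : ∑ i, ‖(A ∘ₗ Φt) (bs d i)‖ ^ 2 ≤ Q := by
    refine le_trans (le_of_eq ?_) hQ
    rw [Mn_eq]
    set f : Fin d → V d := fun i => Φ.symm (bs d i) with hf
    have hexp : ∀ v, A v = ∑ i, ⟪v, f i⟫_ℝ • A (Φt (bs d i)) := by
      intro v
      have h1 : v = ∑ i, ⟪v, f i⟫_ℝ • Φt (bs d i) := by
        refine ext_inner_right ℝ fun a => ?_
        rw [sum_inner]
        have h2 : ∀ i, ⟪⟪v, f i⟫_ℝ • Φt (bs d i), a⟫_ℝ = ⟪bs d i, Φ a⟫_ℝ * ⟪v, f i⟫_ℝ := by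
          intro i
          rw [inner_smul_left, conj_trivial, hadj, mul_comm]
        simp only [h2]
        have h3 : a = ∑ i, ⟪bs d i, Φ a⟫_ℝ • f i := by
          apply Φ.injective
          rw [map_sum]
          have h4 : ∀ i, Φ (⟪bs d i, Φ a⟫_ℝ • f i) = ⟪bs d i, Φ a⟫_ℝ • bs d i := by
            intro i
            rw [map_smul, hf, Φ.apply_symm_apply]
          simp only [h4]
          exact ((bs d).sum_repr' (Φ a)).symm
        conv_lhs => rw [h3]
        rw [inner_sum]
        exact Finset.sum_congr rfl fun i _ => by rw [inner_smul_right]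
      conv_lhs => rw [h1]
      rw [map_sum]
      exact Finset.sum_congr rfl fun i _ => by rw [map_smul]
    have hsq : ∀ v, ‖A v‖ ^ 2 = ∑ i, ∑ j,
        ⟪A (Φt (bs d i)), A (Φt (bs d j))⟫_ℝ * (⟪v, f i⟫_ℝ * ⟪v, f j⟫_ℝ) := by
      intro v
      rw [← real_inner_self_eq_norm_sq, hexp v, sum_inner]
      refine Finset.sum_congr rfl fun i _ => ?_
      rw [inner_sum]
      refine Finset.sum_congr rfl fun j _ => ?_
      rw [inner_smul_left, inner_smul_right, conj_trivial]
      ring
    simp only [hsq]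
    rw [M_sum hK _ fun i _ => Bd.sum _ fun j _ =>
      (Bd.const _).mul ((Bd_in hK (f i)).mul (Bd_in hK (f j)))]
    refine Finset.sum_congr rfl fun i _ => ?_
    rw [M_sum hK _ fun j _ => (Bd.const _).mul ((Bd_in hK (f i)).mul (Bd_in hK (f j)))]
    have h5 : ∀ j, Mn K o (fun v => ⟪A (Φt (bs d i)), A (Φt (bs d j))⟫_ℝ *
        (⟪v, f i⟫_ℝ * ⟪v, f j⟫_ℝ)) =
        if i = j then ⟪A (Φt (bs d i)), A (Φt (bs d j))⟫_ℝ else 0 := by
      intro j
      rw [M_mul_left]
      have h6 : Mn K o (fun v => ⟪v, f i⟫_ℝ * ⟪v, f j⟫_ℝ) = if i = j then 1 else 0 := by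
        change mf K o (f i) (f j) = _
        rw [← hΦ', hf]
        simp only [Φ.apply_symm_apply]
        exact orthonormal_iff_ite.1 (bs d).orthonormal i j
      rw [h6]
      split_ifs <;> simp
    simp only [h5]
    rw [Finset.sum_ite_eq, if_pos (Finset.mem_univ i), real_inner_self_eq_norm_sq]
    rfl
  have key := inv_bound (X := X) (A ∘ₗ Φt) (by
      rintro _ ⟨x, hx, rfl⟩ w
      rw [← hadj]
      exact hA x hx (Φt w)) htr (r := r) (by
      intro W hW hWinv
      have h1 := hr (W.comap Φ.toLinearMap) (by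
        intro hbot
        apply hW
        rw [eq_bot_iff] at hbot ⊢
        intro w hw
        have h2 : Φ.symm w ∈ W.comap Φ.toLinearMap := by
          rw [Submodule.mem_comap]
          change Φ (Φ.symm w) ∈ W
          rwa [Φ.apply_symm_apply]
        have h3 := hbot h2
        rw [Submodule.mem_bot] at h3 ⊢
        rw [← Φ.apply_symm_apply w, h3, map_zero]) (by
        intro g hg v hv
        rw [Submodule.mem_comap] at hv ⊢
        -- the adjoint of `g` preserves `P`
        set gt : V d →ₗ[ℝ] V d := LinearMap.adjoint g.toLinearMap with hgt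
        have hgadj : ∀ w a, ⟪gt w, a⟫_ℝ = ⟪w, g a⟫_ℝ := fun w a => by
          rw [hgt, LinearMap.adjoint_inner_left]
          rfl
        have hgb : Function.Bijective gt := by
          have hinj : Function.Injective gt := by
            intro u w huw
            refine ext_inner_right ℝ fun a => ?_
            have h4 : ⟪gt u, g.symm a⟫_ℝ = ⟪gt w, g.symm a⟫_ℝ := by rw [huw]
            rwa [hgadj, hgadj, g.apply_symm_apply] at h4
          exact ⟨hinj, LinearMap.injective_iff_surjective.1 hinj⟩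
        have hgP : ∀ v, gt v ∈ pol K o ↔ v ∈ pol K o := by
          intro v
          constructor
          · intro h x hx
            have hx' : o + g.symm (x - o) ∈ K := by
              rw [hg, g.apply_symm_apply, add_sub_cancel]
              exact hx
            have h4 := h _ hx'
            rwa [add_sub_cancel_left, hgadj, g.apply_symm_apply] at h4
          · intro h x hx
            have hx' : o + g (x - o) ∈ K := by
              rw [← hg, add_sub_cancel]
              exact hx
            have h4 := h _ hx'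
            rwa [add_sub_cancel_left, ← hgadj] at h4
        have hmfg : ∀ a b, mf K o (g a) (g b) = mf K o a b := by
          intro a b
          unfold mf
          simp only [← hgadj]
          exact M_map hK hgb hgP fun v => ⟪v, a⟫_ℝ * ⟪v, b⟫_ℝ
        -- the isometry
        set γl : V d ≃ₗ[ℝ] V d := (Φ.symm.trans g).trans Φ with hγl
        have hγa : ∀ y, γl y = Φ (g (Φ.symm y)) := fun y => rfl
        let γ : V d ≃ₗᵢ[ℝ] V d := ⟨γl, by
          intro y
          have h4 : ‖γl y‖ ^ 2 = ‖y‖ ^ 2 := by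
            rw [← real_inner_self_eq_norm_sq, hγa, hΦ', hmfg, ← hΦ', Φ.apply_symm_apply,
              real_inner_self_eq_norm_sq]
          exact (pow_left_inj₀ (norm_nonneg _) (norm_nonneg _) two_ne_zero).1 h4⟩
        have hγ : ∀ y, γ y = Φ (g (Φ.symm y)) := fun y => rfl
        have hγX : ∀ y, y ∈ X ↔ γ y ∈ X := by
          intro y
          constructor
          · rintro ⟨x, hx, rfl⟩
            refine ⟨o + g (x - o), ?_, ?_⟩
            · rw [← hg, add_sub_cancel]
              exact hx
            · rw [hγ, Φ.symm_apply_apply, add_sub_cancel_left]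
          · rintro ⟨x, hx, hxy⟩
            rw [hγ] at hxy
            have h4 := Φ.injective hxy
            refine ⟨o + Φ.symm y, ?_, ?_⟩
            · rw [hg, h4, add_sub_cancel]
              exact hx
            · rw [add_sub_cancel_left, Φ.apply_symm_apply]
        have h4 := hWinv γ hγX (Φ v) hv
        rw [hγ, Φ.symm_apply_apply] at h4
        exact h4)
      have h2 : finrank ℝ (W.comap Φ.toLinearMap) = finrank ℝ W := by
        have h3 : W.comap Φ.toLinearMap = W.map Φ.symm.toLinearMap :=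
          (Submodule.map_equiv_eq_comap_symm Φ.symm W).symm
        rw [h3]
        exact LinearEquiv.finrank_map_eq Φ.symm W
      rw [← h2]
      exact h1)
  intro x hx
  have h1 := key (Φ (x - o)) ⟨x, hx, rfl⟩
  rwa [← real_inner_self_eq_norm_sq, hΦ', mf_self] at h1

end Pool.Agent.Lib.MP_5e7226_co.NF
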