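import Pool.Agent.Lib.MP_5e7226_co.NF.E2
import Pool.Agent.Lib.MP_5e7226_co.NF.G2
import Pool.Agent.Lib.MP_5e7226_co.NF.C6

/-!
# NF, H1: the theorems for bodies
-/

set_option autoImplicit false
set_option linter.unusedSectionVars false

open MeasureTheory Set Module
open scoped Pointwise InnerProductSpace
open Pool.Agent.Lib.MP_5e7226_co.AB (pol ind)

namespace Pool.Agent.Lib.MP_5e7226_co.NF

variable {d : ℕ} {K : Set (V d)} {o : V d}

/-- the bound `e^(-L) 2^d (d ln d + d ln ln d + 5 d) + 1` -/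
noncomputable def bound (d : ℕ) (L : ℝ) : ℝ :=
  Real.exp (-L) * (2 ^ d * (d * Real.log d + d * Real.log (Real.log d) + 5 * d)) + 1

/-- `n ≤ r` smaller homothetic copies of `C` cover `C`. -/
def CovLE (C : Set (V d)) (r : ℝ) : Prop :=
  ∃ n : ℕ, (n : ℝ) ≤ r ∧ ∃ m : ℝ, 0 < m ∧ m < 1 ∧ ∃ t : Fin n → V d,
    ∀ x ∈ C, ∃ i, ∃ k ∈ C, x = t i + m • k

/-- `s(K, o) ≤ r` -/
def SepL (K : Set (V d)) (o : V d) (r : ℝ) : Prop :=
  ∃ n : ℕ, (n : ℝ) ≤ r ∧ ∃ (w : Fin n → V d) (b : Fin n → ℝ),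
    ∀ u x₀ : V d, u ≠ 0 → x₀ ∈ K → (∀ y ∈ K, ⟪u, y⟫_ℝ ≤ ⟪u, x₀⟫_ℝ) →
      ∃ i, ⟪w i, o⟫_ℝ < b i ∧ ∀ x ∈ K, ⟪u, x⟫_ℝ = ⟪u, x₀⟫_ℝ → b i < ⟪w i, x⟫_ℝ

/-- `I(K) ≤ r` -/
def IllL (K : Set (V d)) (r : ℝ) : Prop :=
  ∃ n : ℕ, (n : ℝ) ≤ r ∧ ∃ p : Fin n → V d, (∀ i, p i ∉ K) ∧
    ∀ q ∈ frontier K, ∃ i, ∃ s : ℝ, 0 < s ∧ q + s • (q - p i) ∈ interior K

lemma CovLE.sep (ho : o ∈ interior K) {r : ℝ} (h : CovLE (pol K o) r) : SepL K o r := by
  obtain ⟨n, hn, m, hm0, hm1, t, ht⟩ := h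
  exact ⟨n, hn, AB.separated_of_cover ho hm0.le hm1 t ht⟩

lemma CovLE.ill (hd : 1 ≤ d) (hc : Convex ℝ K) (hK : IsCompact K) (ho : o ∈ interior K) {r : ℝ}
    (h : CovLE K r) : IllL K r := by
  obtain ⟨n, hn, m, hm0, hm1, t, ht⟩ := h
  exact ⟨n, hn, AB.illuminated_of_cover hd hc hK ho hm0 hm1 t ht⟩

lemma CovLE.mono {r s : ℝ} (h : CovLE K r) (hrs : r ≤ s) : CovLE K s := by
  obtain ⟨n, hn, h⟩ := h
  exact ⟨n, hn.trans hrs, h⟩

theorem cov_flat (hd : 2 ≤ d) (hK : Body K o) {L : ℝ} (hL : 0 ≤ L) (hLd : 5 * (L + 1) ≤ d)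
    {S : ℝ} (hS : ∀ x ∈ K, ⨍ v in pol K o, ⟪v, x - o⟫_ℝ ^ 2 ≤ S)
    (hSL : (110 * L + 160) ^ 2 * S ≤ 1) : CovLE (pol K o) (bound d L) :=
  cover_of_not_tight hd hK hL fun _ _ hlam hT => flat hT hL hLd hlam hS hSL

theorem cov_theta (hd : 2 ≤ d) (hK : Body K o) {L : ℝ} (hL : 0 ≤ L) (hLd : 5 * (L + 1) ≤ d)
    (hb : Real.exp (9 * L + 12) * big K o ≤ 1) : CovLE (pol K o) (bound d L) :=
  cover_of_not_tight hd hK hL fun _ _ hlam hT => theta hT hL hLd hlam hb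

theorem cov_thin (hd : 2 ≤ d) (hK : Body K o) {L : ℝ} (hL : 0 ≤ L) (hLd : 5 * (L + 1) ≤ d)
    (hth : 3600 * (L + 4) ^ 4 * thick K o < 1) : CovLE (pol K o) (bound d L) :=
  cover_of_not_tight hd hK hL fun _ _ hlam hT => thin hT hL hLd hlam hth

lemma S_nonneg (hK : Body K o) {S : ℝ} (hS : ∀ x ∈ K, ⨍ v in pol K o, ⟪v, x - o⟫_ℝ ^ 2 ≤ S) :
    0 ≤ S := by
  refine le_trans ?_ (hS o hK.mem)
  rw [Mn_eq]
  exact M_nonneg hK fun _ _ => sq_nonneg _

theorem half_flat (hd : 40 ≤ d) (hK : Body K o)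
    {S : ℝ} (hS : ∀ x ∈ K, ⨍ v in pol K o, ⟪v, x - o⟫_ℝ ^ 2 ≤ S)
    (hSL : (250 * Real.log d) ^ 2 * S ≤ 1) : CovLE (pol K o) (2 ^ (d - 1)) := by
  obtain ⟨L, hL, hLd, h1, _, _, h4⟩ := num40 hd
  refine (cov_flat (by omega) hK hL hLd hS ?_).mono h4
  refine le_trans ?_ hSL
  apply mul_le_mul_of_nonneg_right _ (S_nonneg hK hS)
  exact pow_le_pow_left₀ (by positivity) h1 2

lemma big_nonneg (hK : Body K o) : 0 ≤ big K o := by
  rw [big_eq]
  exact M_nonneg hK fun u _ => bigAt_nonneg hK u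

lemma thick_nonneg (hK : Body K o) : 0 ≤ thick K o := by
  rw [thick_eq]
  exact M_nonneg hK fun u _ => sg_nonneg hK u

theorem half_theta (hd : 40 ≤ d) (hK : Body K o) (hb : (d : ℝ) ^ 20 * big K o ≤ 1) :
    CovLE (pol K o) (2 ^ (d - 1)) := by
  obtain ⟨L, hL, hLd, _, _, h3, h4⟩ := num40 hd
  refine (cov_theta (by omega) hK hL hLd ?_).mono h4
  refine le_trans ?_ hb
  apply mul_le_mul_of_nonneg_right _ (big_nonneg hK)
  have hd0 : (0 : ℝ) < d := by
    have : 0 < d := by omega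
    exact_mod_cast this
  calc Real.exp (9 * L + 12) ≤ Real.exp (20 * Real.log d) := Real.exp_le_exp.2 h3
    _ = Real.exp (Real.log d) ^ 20 := by
        rw [← Real.exp_nat_mul]
        norm_num
    _ = (d : ℝ) ^ 20 := by rw [Real.exp_log hd0]

theorem half_thin (hd : 40 ≤ d) (hK : Body K o)
    (hth : 3 * 10 ^ 5 * Real.log d ^ 4 * thick K o < 1) : CovLE (pol K o) (2 ^ (d - 1)) := by
  obtain ⟨L, hL, hLd, _, h2, _, h4⟩ := num40 hd
  refine (cov_thin (by omega) hK hL hLd ?_).mono h4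
  refine lt_of_le_of_lt ?_ hth
  apply mul_le_mul_of_nonneg_right _ (thick_nonneg hK)
  calc 3600 * (L + 4) ^ 4 ≤ 3600 * (3 * Real.log d) ^ 4 := by
        apply mul_le_mul_of_nonneg_left _ (by norm_num)
        exact pow_le_pow_left₀ (by positivity) h2 4
    _ = 291600 * Real.log d ^ 4 := by ring
    _ ≤ 3 * 10 ^ 5 * Real.log d ^ 4 := by
        apply mul_le_mul_of_nonneg_right (by norm_num) (by positivity)

/-- The bipolar theorem. -/
lemma bipolar {C : Set (V d)} (hc : Convex ℝ C) (hC : IsCompact C) {c : V d} (hcC : c ∈ C)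
    (v : V d) : v ∈ pol (pol C c) 0 ↔ c + v ∈ C := by
  constructor
  · intro h
    by_contra hv
    obtain ⟨f, u, hf1, hf2⟩ := geometric_hahn_banach_closed_point hc hC.isClosed hv
    set z : V d := (InnerProductSpace.toDual ℝ (V d)).symm f with hz
    have hfz : ∀ x, f x = ⟪z, x⟫_ℝ := fun x => by
      rw [hz, InnerProductSpace.toDual_symm_apply]
    set β : ℝ := u - ⟪z, c⟫_ℝ with hβ
    have hβ0 : 0 < β := by
      have := hf1 c hcC
      rw [hfz] at this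
      rw [hβ]
      linarith
    have hy : β⁻¹ • z ∈ pol C c := by
      intro x hx
      rw [inner_smul_left, conj_trivial, inv_mul_le_iff₀ hβ0, mul_one, inner_sub_right, hβ]
      have := hf1 x hx
      rw [hfz] at this
      linarith
    have h1 := h _ hy
    rw [sub_zero, inner_smul_right, inv_mul_le_iff₀ hβ0, mul_one, hβ] at h1
    rw [hfz, inner_add_right] at hf2
    rw [real_inner_comm] at h1
    linarith
  · intro h y hy
    have := hy _ h
    rw [add_sub_cancel_left] at this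
    rw [sub_zero, real_inner_comm]
    exact this

/-- The polar body of a body is a body. -/
lemma body_polar {C : Set (V d)} (hC : IsCompact C) {c : V d} (hcC : c ∈ interior C) :
    Body (pol C c) 0 := by
  refine ⟨AB.pol_isCompact hcC, ?_⟩
  have hK : Body C c := ⟨hC, hcC⟩
  obtain ⟨R, hR, _, hR2⟩ := exists_bound hK
  rw [mem_interior]
  refine ⟨Metric.ball 0 (1 / R), fun v hv => ?_, Metric.isOpen_ball, by simp [hR]⟩
  rw [mem_pol hK]
  rw [mem_ball_zero_iff, lt_div_iff₀ hR] at hv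
  have := hR2 v
  linarith

/-- Covering a convex body without flat directions. -/
lemma cov_of_polar {C : Set (V d)} (hc : Convex ℝ C) (hC : IsCompact C) {c : V d}
    (hcC : c ∈ interior C) {r : ℝ} (h : CovLE (pol (pol C c) 0) r) : CovLE C r := by
  obtain ⟨n, hn, m, hm0, hm1, t, ht⟩ := h
  refine ⟨n, hn, m, hm0, hm1, fun i => t i + (1 - m) • c, fun x hx => ?_⟩
  have h1 : x - c ∈ pol (pol C c) 0 := by
    rw [bipolar hc hC (interior_subset hcC), add_sub_cancel]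
    exact hx
  obtain ⟨i, k, hk, hxk⟩ := ht _ h1
  rw [bipolar hc hC (interior_subset hcC)] at hk
  refine ⟨i, c + k, hk, ?_⟩
  have h2 : x = c + (t i + m • k) := by
    rw [← hxk]
    abel
  rw [h2]
  module

/-- Means over `C` and over the bipolar body. -/
lemma mean_bipolar {C : Set (V d)} (hc : Convex ℝ C) (hC : IsCompact C) {c : V d}
    (hcC : c ∈ C) (y : V d) :
    ⨍ v in pol (pol C c) 0, ⟪v, y⟫_ℝ ^ 2 = ⨍ x in C, ⟪y, x - c⟫_ℝ ^ 2 := by
  have hset : pol (pol C c) 0 = (fun v => v + c) ⁻¹' C := by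
    ext v
    rw [bipolar hc hC hcC, add_comm]
    rfl
  have hmp : MeasurePreserving (fun v : V d => v + c) volume volume :=
    measurePreserving_add_right volume c
  have hemb : MeasurableEmbedding (fun v : V d => v + c) :=
    (Homeomorph.addRight c).measurableEmbedding
  rw [setAverage_eq, setAverage_eq, hset]
  have h1 : volume.real ((fun v => v + c) ⁻¹' C) = volume.real C := by
    rw [Measure.real, Measure.real, hmp.measure_preimage_emb hemb]
  have h2 := hmp.setIntegral_preimage_emb hemb (fun x => ⟪y, x - c⟫_ℝ ^ 2) C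
  rw [h1, ← h2]
  simp only [add_sub_cancel_right, real_inner_comm y]

theorem ill_flat (hd : 2 ≤ d) {C : Set (V d)} (hc : Convex ℝ C) (hC : IsCompact C) {c : V d}
    (hcC : c ∈ interior C) {S : ℝ}
    (hS : ∀ y, (∀ x ∈ C, ⟪y, x - c⟫_ℝ ≤ 1) → ⨍ x in C, ⟪y, x - c⟫_ℝ ^ 2 ≤ S) :
    (∀ L : ℝ, 0 ≤ L → 5 * (L + 1) ≤ d → (110 * L + 160) ^ 2 * S ≤ 1 → CovLE C (bound d L)) ∧
    (40 ≤ d → (250 * Real.log d) ^ 2 * S ≤ 1 → CovLE C (2 ^ (d - 1))) := by
  have hb := body_polar hC hcC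
  have hS' : ∀ y ∈ pol C c, ⨍ v in pol (pol C c) 0, ⟪v, y - 0⟫_ℝ ^ 2 ≤ S := by
    intro y hy
    rw [sub_zero, mean_bipolar hc hC (interior_subset hcC)]
    exact hS y hy
  refine ⟨fun L hL hLd hSL => ?_, fun hd40 hSd => ?_⟩
  · exact cov_of_polar hc hC hcC (cov_flat hd hb hL hLd hS' hSL)
  · exact cov_of_polar hc hC hcC (half_flat hd40 hb hS' hSd)

/-- Bodies between two ellipsoids. -/
lemma near_outer (hK : Body K o) {D : ℝ} (A : V d →ₗ[ℝ] V d) (hA1 : ∀ b, ‖b‖ ≤ 1 → o + A b ∈ K)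
    (hA2 : ∀ x ∈ K, ∃ b, ‖b‖ ≤ 1 ∧ x = o + D • A b) :
    ∃ A' : V d →ₗ[ℝ] V d, (∀ x ∈ K, ∀ v, ⟪v, x - o⟫_ℝ ≤ ‖A' v‖) ∧
      ⨍ v in pol K o, ‖A' v‖ ^ 2 ≤ D ^ 2 := by
  set At : V d →ₗ[ℝ] V d := LinearMap.adjoint A with hAt
  have hadj : ∀ w a, ⟪At w, a⟫_ℝ = ⟪w, A a⟫_ℝ := fun w a => by
    rw [hAt, LinearMap.adjoint_inner_left]
  refine ⟨D • At, fun x hx v => ?_, ?_⟩
  · obtain ⟨b, hb, rfl⟩ := hA2 x hx
    have e1 : D * ⟪At v, b⟫_ℝ = ⟪D • At v, b⟫_ℝ := by rw [inner_smul_left, conj_trivial]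
    rw [add_sub_cancel_left, inner_smul_right, ← hadj, LinearMap.smul_apply, e1]
    refine (real_inner_le_norm _ _).trans ?_
    exact mul_le_of_le_one_right (norm_nonneg _) hb
  · rw [Mn_eq]
    have hcont : Continuous fun v : V d => ‖(D • At) v‖ ^ 2 := by
      have : Continuous (D • At) := LinearMap.continuous_of_finiteDimensional _
      fun_prop
    calc Mn K o (fun v => ‖(D • At) v‖ ^ 2) ≤ Mn K o fun _ => D ^ 2 := by
          refine M_mono hK (Bd.cont hK hcont) (Bd.const _) fun v hv => ?_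
          have h1 : ‖At v‖ ≤ 1 := by
            by_cases h0 : At v = 0
            · rw [h0, norm_zero]
              exact zero_le_one
            · have hn : 0 < ‖At v‖ := norm_pos_iff.2 h0
              have h2 := hv _ (hA1 (‖At v‖⁻¹ • At v) (by
                rw [norm_smul, norm_inv, norm_norm, inv_mul_cancel₀ hn.ne']))
              rw [add_sub_cancel_left, ← hadj, inner_smul_right, real_inner_self_eq_norm_sq, sq,
                ← mul_assoc, inv_mul_cancel₀ hn.ne', one_mul] at h2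
              exact h2
          rw [LinearMap.smul_apply, norm_smul, mul_pow, Real.norm_eq_abs, sq_abs]
          have h3 : ‖At v‖ ^ 2 ≤ 1 := pow_le_one₀ (norm_nonneg _) h1
          have h4 := mul_le_mul_of_nonneg_left h3 (sq_nonneg D)
          linarith
      _ = D ^ 2 := M_const hK _

end Pool.Agent.Lib.MP_5e7226_co.NF
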